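/-
H868PF: definitions and the list of statements (as `Prop`s) for the proof of Davidson's conjecture
`c = 1/e` for standard p-functions (problem MP_b4adac_pr, frozen statement S13411).
Renewal sequences (discrete part) and Laplace/Volterra part (continuous part).
-/
import Mathlib

set_option autoImplicit false

open MeasureTheory Finset

namespace H868PF

/-- `u` is the renewal sequence of the (possibly defective) distribution `f` on `{1,2,...}`. -/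
def Ren (f u : ℕ → ℝ) : Prop :=
  f 0 = 0 ∧ (∀ n, 0 ≤ f n) ∧ (∀ n, ∑ k ∈ range (n+1), f k ≤ 1) ∧ u 0 = 1 ∧
    ∀ n, u (n+1) = ∑ k ∈ range (n+1), f (k+1) * u (n-k)

/-- tail of `f`: `P(X > n)` -/
noncomputable def Fb (f : ℕ → ℝ) (n : ℕ) : ℝ := 1 - ∑ k ∈ range (n+1), f k

/-- truncated mean `U(n) = ∑_{j<n} P(X>j)` -/
noncomputable def UU (f : ℕ → ℝ) (n : ℕ) : ℝ := ∑ j ∈ range n, Fb f j

/-- renewal function `R(n) = ∑_{j<n} u_j` -/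
noncomputable def RR (u : ℕ → ℝ) (n : ℕ) : ℝ := ∑ j ∈ range n, u j

/-- probability that the first renewal epoch `≥ a` is `n` (for `n ≥ a ≥ 1`) -/
noncomputable def ent (f u : ℕ → ℝ) (a n : ℕ) : ℝ := ∑ z ∈ range a, u z * f (n - z)

/-- probability that there is a renewal epoch in `[a,N]` (for `a ≥ 1`) -/
noncomputable def hit (f u : ℕ → ℝ) (a N : ℕ) : ℝ := ∑ n ∈ Icc a N, ent f u a n

/-- probability that there is no renewal epoch in `[b,M]` (for `1 ≤ b ≤ M+1`) -/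
noncomputable def miss (f u : ℕ → ℝ) (b M : ℕ) : ℝ := ∑ z ∈ range b, u z * Fb f (M - z)

/-- convolution -/
noncomputable def conv (a b : ℕ → ℝ) (n : ℕ) : ℝ := ∑ i ∈ range (n+1), a i * b (n-i)

/-- truncation of `f` to `k < d` -/
noncomputable def trunc (f : ℕ → ℝ) (d : ℕ) (k : ℕ) : ℝ := if k < d then f k else 0

/-- the "last long jump" sequence -/
noncomputable def cc (f u : ℕ → ℝ) (d : ℕ) (n : ℕ) : ℝ :=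
  if n = 0 then 1 else ∑ x ∈ Icc d n, f x * u (n-x)

/-- `T(y) = 1 - κ ∑_{n<y} r_n` -/
noncomputable def TT (κ : ℝ) (r : ℕ → ℝ) (y : ℕ) : ℝ := 1 - κ * RR r y

/-! ### Discrete part -/

/-- existence of the renewal sequence -/
def S_EX : Prop := ∀ f : ℕ → ℝ, f 0 = 0 → (∀ n, 0 ≤ f n) → (∀ n, ∑ k ∈ range (n+1), f k ≤ 1) →
  ∃ u, Ren f u

/-- basic facts -/
def S_A1 : Prop := ∀ f u : ℕ → ℝ, Ren f u →
  (∀ n, 0 ≤ u n) ∧ (∀ n, u n ≤ 1) ∧ (∀ n, 0 ≤ Fb f n) ∧ (∀ n, Fb f n ≤ 1) ∧ Fb f 0 = 1 ∧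
  (∀ m n, m ≤ n → Fb f n ≤ Fb f m) ∧
  (∀ n, ∑ j ∈ range (n+1), Fb f j * u (n-j) = 1)

/-- supermultiplicativity -/
def S_A2 : Prop := ∀ f u : ℕ → ℝ, Ren f u → ∀ m n, u m * u n ≤ u (m+n)

/-- first entrance decomposition -/
def S_H : Prop := ∀ f u : ℕ → ℝ, Ren f u →
  (∀ a n, 0 ≤ ent f u a n) ∧
  (∀ a N, 1 ≤ a → a ≤ N → hit f u a N = 1 - miss f u a N) ∧
  (∀ a n, 1 ≤ a → a ≤ n → u n = ∑ j ∈ Icc a n, ent f u a j * u (n-j)) ∧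
  (∀ a N, 1 ≤ a → a ≤ N → u N ≤ hit f u a N) ∧
  (∀ a N, 1 ≤ a → a ≤ N → hit f u a N ≤ 1) ∧
  (∀ a b N, 1 ≤ a → a ≤ b → b ≤ N →
    hit f u b N = hit f u a N - ∑ n ∈ Ico a b, ent f u a n * miss f u (b-n) (N-n))

def S_A4 : Prop := ∀ f u : ℕ → ℝ, Ren f u → ∀ a L, ∑ n ∈ range L, u (a+n) ≤ RR u L

def S_A5 : Prop := ∀ f u : ℕ → ℝ, Ren f u → ∀ L : ℕ,
  (L:ℝ) ≤ RR u L * UU f L ∧ RR u L * UU f L ≤ 2 * L

/-- lower bound for `u` on `[0,N]` in terms of the truncated mean -/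
def S_A6 : Prop := ∀ B : ℝ, ∃ c : ℝ, 0 < c ∧ ∀ (f u : ℕ → ℝ) (N : ℕ), Ren f u → Fb f 1 ≤ 1/4 →
  UU f N ≤ B → ∀ n, n ≤ N → c ≤ u n

/-- the sequence `s_i` : one step -/
def S_A7a : Prop := ∀ (f u : ℕ → ℝ), Ren f u → ∀ (N i l : ℕ), l + 1 ≤ i → 2^i < N →
  hit f u (N - 2^(i-1-l)) N ≤ hit f u (N - 2^i) N -
    Fb f (2^i) * RR u (2^(i-1-l)) *
      (hit f u (N - 2^i) N - ∑ n ∈ Ioc (N - 2^(i-l)) N, ent f u (N-2^i) n)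

/-- deep entrance bound -/
def S_A7b : Prop := ∀ (f u : ℕ → ℝ), Ren f u → ∀ (N i l : ℕ), 1 ≤ l → l ≤ i → 2^i < N →
  ∑ n ∈ Ioc (N - 2^(i-l)) N, ent f u (N-2^i) n ≤ Fb f (2^(i-1) - 1) * RR u (2^(i-l))

/-- no gap of scales -/
def S_A7 : Prop := ∀ β : ℝ, 0 < β → β < 1 → ∃ B : ℝ, ∀ (f u : ℕ → ℝ) (N : ℕ), Ren f u →
  (∀ d : ℕ, 2 ≤ d → d ≤ N → (d:ℝ) * Fb f (d-1) ≤ (1-β) * UU f d) → B < UU f N →
  u N ≤ Real.exp (-1)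

/-- `κ (r*r)_n ≤ e^{κ-1}` if the total mass of `g` is `≤ 1-κ` -/
def S_C2 : Prop := ∀ (g r : ℕ → ℝ) (κ : ℝ), Ren g r → 0 < κ → κ ≤ 1 →
  (∀ n, ∑ k ∈ range (n+1), g k ≤ 1 - κ) → ∀ n, κ * conv r r n ≤ Real.exp (κ - 1)

/-- decomposition by long jumps -/
def S_C3 : Prop := ∀ (f u r : ℕ → ℝ) (d : ℕ), 1 ≤ d → Ren f u → Ren (trunc f d) r → ∀ n,
  u n = ∑ j ∈ range (n+1), cc f u d j * r (n-j)

/-- windows of length `≤ d` contain at most one long-jump end -/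
def S_C4 : Prop := ∀ (f u : ℕ → ℝ) (d : ℕ), 1 ≤ d → Ren f u → (∀ n, 0 ≤ cc f u d n) ∧
  ∀ (a L : ℕ), L ≤ d → ∑ n ∈ Ico a (a+L), cc f u d n ≤ 1

/-- `u_N = r_N + ∑_{x≥d} f_x ∑_v (r*r)_v c_{N-x-v}` -/
def S_C5 : Prop := ∀ (f u r : ℕ → ℝ) (d : ℕ), 1 ≤ d → Ren f u → Ren (trunc f d) r → ∀ N,
  u N = r N + ∑ x ∈ Icc d N, f x * ∑ v ∈ range (N-x+1), conv r r v * cc f u d (N-x-v)

/-- facts on `T` -/
def S_C6 : Prop := ∀ (f u r : ℕ → ℝ) (d : ℕ), 1 ≤ d → Ren f u → Ren (trunc f d) r →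
  0 < Fb f (d-1) →
  (∀ y, r y ≤ TT (Fb f (d-1)) r y) ∧ (∀ y, 0 ≤ TT (Fb f (d-1)) r y) ∧
  (∀ x y, x ≤ y → TT (Fb f (d-1)) r y ≤ TT (Fb f (d-1)) r x) ∧
  (∀ Y, ∑ y ∈ Icc 1 Y, TT (Fb f (d-1)) r y ≤ (UU f d - d * Fb f (d-1)) / Fb f (d-1)) ∧
  (∀ v, Fb f (d-1) * conv r r v ≤ 2 * TT (Fb f (d-1)) r ((v+1)/2))

/-- a gap of scales -/
def S_A8 : Prop := ∀ (f u : ℕ → ℝ) (N d : ℕ) (β : ℝ), 0 < β → β < 1 → Ren f u → 2 ≤ d → d ≤ N →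
  (1-β) * UU f d < d * Fb f (d-1) → u N ≤ Real.exp (Fb f 1 - 1) + 9 * (β / (1-β))

def S_A9 : Prop := ∀ θ : ℝ, 0 < θ → ∃ B κ₀ : ℝ, 0 < κ₀ ∧ ∀ (f u : ℕ → ℝ) (N : ℕ), Ren f u →
  Fb f 1 ≤ κ₀ → B < UU f N → u N ≤ Real.exp (-1) + θ

/-! ### Continuous part -/

/-- canonical standard p-functions, as in the frozen statement -/
def Canon (p : ℝ → ℝ) : Prop :=
  ContinuousOn p (Set.Ici 0) ∧ ∃ μ : Measure ℝ, μ (Set.Iic 0) = 0 ∧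
        Integrable (fun x : ℝ => 1 - Real.exp (-x)) μ ∧ ∃ a : ℝ, 0 ≤ a ∧
        ∀ s : ℝ, 0 < s →
          (∫ t in Set.Ioi (0:ℝ), Real.exp (-(s * t)) * p t) *
            (s + a + ∫ x, (1 - Real.exp (-(s * x))) ∂μ) = 1

/-- tail of the Levy measure: finiteness, integrability and the Tonelli identity -/
def S_V1a : Prop := ∀ μ : Measure ℝ, μ (Set.Iic 0) = 0 →
  Integrable (fun x : ℝ => 1 - Real.exp (-x)) μ →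
  (∀ y : ℝ, 0 < y → μ (Set.Ioi y) < ⊤) ∧
  ∀ s : ℝ, 0 < s → IntegrableOn (fun y : ℝ => Real.exp (-(s*y)) * (μ (Set.Ioi y)).toReal) (Set.Ioi 0) ∧
    ∫ x, (1 - Real.exp (-(s * x))) ∂μ =
      s * ∫ y in Set.Ioi (0:ℝ), Real.exp (-(s*y)) * (μ (Set.Ioi y)).toReal

/-- Lerch's uniqueness theorem for the Laplace transform -/
def S_V1b : Prop := ∀ G : ℝ → ℝ,
  (∀ s : ℝ, 0 < s → IntegrableOn (fun t : ℝ => Real.exp (-(s*t)) * G t) (Set.Ioi 0)) →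
  (∀ s : ℝ, 0 < s → ∫ t in Set.Ioi (0:ℝ), Real.exp (-(s*t)) * G t = 0) →
  ∀ᵐ t ∂(volume.restrict (Set.Ioi (0:ℝ))), G t = 0

/-- Laplace transform of a (causal) convolution -/
def S_V1c : Prop := ∀ (m p : ℝ → ℝ) (s : ℝ),
  IntegrableOn (fun t : ℝ => Real.exp (-(s*t)) * m t) (Set.Ioi 0) →
  IntegrableOn (fun t : ℝ => Real.exp (-(s*t)) * p t) (Set.Ioi 0) →
  IntegrableOn (fun t : ℝ => Real.exp (-(s*t)) * ∫ y in (0:ℝ)..t, m y * p (t-y)) (Set.Ioi 0) ∧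
  ∫ t in Set.Ioi (0:ℝ), Real.exp (-(s*t)) * (∫ y in (0:ℝ)..t, m y * p (t-y)) =
    (∫ t in Set.Ioi (0:ℝ), Real.exp (-(s*t)) * m t) * ∫ t in Set.Ioi (0:ℝ), Real.exp (-(s*t)) * p t

/-- continuity of the convolution -/
def S_V1d : Prop := ∀ (m p : ℝ → ℝ), (∀ T : ℝ, IntegrableOn m (Set.Ioc 0 T)) →
  ContinuousOn p (Set.Ici 0) →
  ContinuousOn (fun t : ℝ => ∫ y in (0:ℝ)..t, m y * p (t-y)) (Set.Ici 0)

/-- Volterra equation for canonical p-functions -/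
def S_V1 : Prop := ∀ p : ℝ → ℝ, Canon p → ∃ m : ℝ → ℝ, (∀ y, 0 < y → 0 ≤ m y) ∧
  AntitoneOn m (Set.Ioi 0) ∧ IntegrableOn m (Set.Ioc 0 1) ∧
  ∀ t ∈ Set.Icc (0:ℝ) 1, p t + ∫ y in (0:ℝ)..t, m y * p (t-y) = 1

/-- quadrature error, uniformly in `n ≤ N` -/
def S_V2a : Prop := ∀ m p : ℝ → ℝ, (∀ y, 0 < y → 0 ≤ m y) → AntitoneOn m (Set.Ioi 0) →
  IntegrableOn m (Set.Ioc 0 1) → ContinuousOn p (Set.Icc 0 1) →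
  ∀ ε : ℝ, 0 < ε → ∃ N₀ : ℕ, ∀ N : ℕ, N₀ ≤ N → 0 < N → ∀ n : ℕ, n ≤ N →
    |(∫ y in (0:ℝ)..((n:ℝ)/N), m y * p ((n:ℝ)/N - y)) -
      ∑ j ∈ range n, (1/(N:ℝ)) * m (((j:ℝ)+1)/N) * p (((n - (j+1) : ℕ) : ℝ)/N)| ≤ ε

/-- a weighted bound for the kernel -/
def S_V2b : Prop := ∀ m : ℝ → ℝ, (∀ y, 0 < y → 0 ≤ m y) → AntitoneOn m (Set.Ioi 0) →
  IntegrableOn m (Set.Ioc 0 1) → ∃ lam : ℝ, 0 < lam ∧ ∀ N : ℕ, 0 < N → ∀ n : ℕ, n ≤ N →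
    ∑ j ∈ range n, (1/(N:ℝ)) * m (((j:ℝ)+1)/N) * Real.exp (-(lam * (((j:ℝ)+1)/N))) ≤ 1/2

/-- discrete Gronwall inequality in the weighted norm -/
def S_V2c : Prop := ∀ (b d : ℕ → ℝ) (N : ℕ) (lam E : ℝ), 0 < N → 0 < lam → 0 ≤ E → (∀ j, 0 ≤ b j) →
  (∀ n, n ≤ N → ∑ j ∈ range n, b (j+1) * Real.exp (-(lam * (((j:ℝ)+1)/N))) ≤ 1/2) →
  (∀ n, n ≤ N → |d n + ∑ j ∈ range n, b (j+1) * d (n-(j+1))| ≤ E) →
  ∀ n, n ≤ N → |d n| ≤ 2 * Real.exp lam * E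

/-- discretization -/
def S_V2 : Prop := ∀ m p : ℝ → ℝ, (∀ y, 0 < y → 0 ≤ m y) → AntitoneOn m (Set.Ioi 0) →
  IntegrableOn m (Set.Ioc 0 1) → ContinuousOn p (Set.Icc 0 1) →
  (∀ t ∈ Set.Icc (0:ℝ) 1, p t + ∫ y in (0:ℝ)..t, m y * p (t-y) = 1) →
  ∀ ε : ℝ, 0 < ε → ∃ N₀ : ℕ, ∀ N : ℕ, N₀ ≤ N → ∃ f u : ℕ → ℝ, Ren f u ∧ Fb f 1 ≤ ε ∧
    ∀ n, n ≤ N → |u n - p ((n:ℝ)/N)| ≤ ε

/-- one term of the example -/
noncomputable def exT (q x0 : ℝ) (n : ℕ) (t : ℝ) : ℝ :=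
  if (n:ℝ) * x0 ≤ t then Real.exp (-(q*(t-n*x0))) * (q*(t-n*x0))^n / (n.factorial : ℝ) else 0

/-- Laplace transform of one term -/
def S_E1 : Prop := ∀ (q x0 s : ℝ), 0 < q → 0 < x0 → 0 < s → ∀ n : ℕ,
  IntegrableOn (fun t : ℝ => Real.exp (-(s*t)) * exT q x0 n t) (Set.Ioi 0) ∧
  ∫ t in Set.Ioi (0:ℝ), Real.exp (-(s*t)) * exT q x0 n t =
    Real.exp (-(s*x0))^n * q^n / (s+q)^(n+1)

/-- the sum is continuous -/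
def S_E2 : Prop := ∀ (q x0 : ℝ), 0 < q → 0 < x0 →
  ContinuousOn (fun t : ℝ => ∑' n : ℕ, exT q x0 n t) (Set.Ici 0)

/-- the sum is canonical -/
def S_E3 : Prop := ∀ (q x0 : ℝ), 0 < q → 0 < x0 → Canon (fun t : ℝ => ∑' n : ℕ, exT q x0 n t)

/-- the example (Davidson): below `1/e` there is no uniform positive lower bound -/
def S_E : Prop := ∀ M : ℝ, 0 < M → M < Real.exp (-1) → ∀ δ : ℝ, 0 < δ →
  ∃ p : ℝ → ℝ, Canon p ∧ p 1 = M ∧ ∃ t ∈ Set.Icc (0:ℝ) 1, p t < δ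

/-- uniform positive lower bound above `1/e` -/
def S_B : Prop := ∀ M : ℝ, Real.exp (-1) < M → ∃ δ : ℝ, 0 < δ ∧
  ∀ p : ℝ → ℝ, Canon p → p 1 = M → ∀ t ∈ Set.Icc (0:ℝ) 1, δ ≤ p t

def S_FIN : Prop :=
  IsGLB {M : ℝ | M ∈ Set.Ioc (0:ℝ) 1 ∧ ∃ δ : ℝ, 0 < δ ∧ ∀ p : ℝ → ℝ,
      (ContinuousOn p (Set.Ici 0) ∧ ∃ μ : Measure ℝ, μ (Set.Iic 0) = 0 ∧
        Integrable (fun x : ℝ => 1 - Real.exp (-x)) μ ∧ ∃ a : ℝ, 0 ≤ a ∧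
        ∀ s : ℝ, 0 < s →
          (∫ t in Set.Ioi (0:ℝ), Real.exp (-(s * t)) * p t) *
            (s + a + ∫ x, (1 - Real.exp (-(s * x))) ∂μ) = 1) →
      p 1 = M → ∀ t ∈ Set.Icc (0:ℝ) 1, δ ≤ p t} (Real.exp (-1))

end H868PF
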