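import Mathlib
import Pool.Agent.H868R2.PF.Defs

set_option autoImplicit false

open MeasureTheory Finset

namespace H868PF

/-- the renewal sequence -/
noncomputable def t01_u (f : ℕ → ℝ) : ℕ → ℝ
  | 0 => 1
  | (n+1) => ∑ k : Fin (n+1), f ((k:ℕ)+1) * t01_u f (n-(k:ℕ))
termination_by n => n
decreasing_by
  omega

theorem t01_u_zero (f : ℕ → ℝ) : t01_u f 0 = 1 := by
  rw [t01_u]

theorem t01_u_succ (f : ℕ → ℝ) (n : ℕ) :
    t01_u f (n+1) = ∑ k ∈ range (n+1), f (k+1) * t01_u f (n-k) := by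
  rw [t01_u, Finset.sum_range]

theorem t01 : S_EX := by
  intro f h0 h1 h2
  exact ⟨t01_u f, h0, h1, h2, t01_u_zero f, t01_u_succ f⟩

end H868PF
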