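import Mathlib
import Pool.Agent.H868R2.PF.Defs

set_option autoImplicit false

open MeasureTheory Finset

namespace H868PF

theorem t02_identity (f u : ℕ → ℝ) (h : Ren f u) :
    ∀ n, ∑ j ∈ range (n+1), Fb f j * u (n-j) = 1 := by
  obtain ⟨h0, h1, h2, h3, h4⟩ := h
  have hF0 : Fb f 0 = 1 := by simp [Fb, h0]
  have hstep : ∀ j, Fb f (j+1) = Fb f j - f (j+1) := by
    intro j
    unfold Fb
    rw [Finset.sum_range_succ _ (j+1)]
    ring
  intro n
  induction n with
  | zero => simp [hF0, h3]
  | succ n ih =>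
    rw [Finset.sum_range_succ']
    have e1 : ∀ k ∈ range (n+1), Fb f (k+1) * u (n+1-(k+1)) =
        Fb f k * u (n-k) - f (k+1) * u (n-k) := by
      intro k _
      rw [hstep, show n + 1 - (k+1) = n - k by omega]
      ring
    rw [Finset.sum_congr rfl e1, Finset.sum_sub_distrib, ih, ← h4 n, hF0]
    simp

theorem t02 : S_A1 := by
  intro f u h
  have hid := t02_identity f u h
  obtain ⟨h0, h1, h2, h3, h4⟩ := h
  have hu : ∀ n, 0 ≤ u n := by
    intro n
    induction n using Nat.strong_induction_on with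
    | _ n ih =>
      rcases n with _ | n
      · rw [h3]; exact zero_le_one
      · rw [h4]
        exact Finset.sum_nonneg fun k _ => mul_nonneg (h1 _) (ih _ (by omega))
  have hF0 : Fb f 0 = 1 := by simp [Fb, h0]
  have hF : ∀ n, 0 ≤ Fb f n := by
    intro n
    unfold Fb
    linarith [h2 n]
  refine ⟨hu, ?_, hF, ?_, hF0, ?_, hid⟩
  · intro n
    have key := Finset.single_le_sum (f := fun j => Fb f j * u (n-j)) (s := range (n+1))
      (fun i _ => mul_nonneg (hF i) (hu _)) (Finset.mem_range.2 (Nat.succ_pos n))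
    simp only [hF0, one_mul, Nat.sub_zero] at key
    linarith [hid n]
  · intro n
    unfold Fb
    have : 0 ≤ ∑ k ∈ range (n+1), f k := Finset.sum_nonneg fun k _ => h1 k
    linarith
  · intro m n hmn
    unfold Fb
    have : ∑ k ∈ range (m+1), f k ≤ ∑ k ∈ range (n+1), f k :=
      Finset.sum_le_sum_of_subset_of_nonneg (Finset.range_mono (by omega)) (fun k _ _ => h1 k)
    linarith

end H868PF
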