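import Mathlib
import Pool.Agent.H868R2.PF.Defs

set_option autoImplicit false

open MeasureTheory Finset

namespace H868PF

theorem t03_ent_nonneg {f u : ℕ → ℝ} (h : Ren f u) (hu : ∀ n, 0 ≤ u n) (a n : ℕ) :
    0 ≤ ent f u a n := by
  unfold ent
  exact Finset.sum_nonneg fun z _ => mul_nonneg (hu z) (h.2.1 _)

theorem t03_miss_nonneg {f u : ℕ → ℝ} (hu : ∀ n, 0 ≤ u n) (hF : ∀ n, 0 ≤ Fb f n) (a n : ℕ) :
    0 ≤ miss f u a n := by
  unfold miss
  exact Finset.sum_nonneg fun z _ => mul_nonneg (hu z) (hF _)

/-- `sum_{n=a}^N f(n-z) = Fb(a-1-z) - Fb(N-z)` for `z < a ≤ N+1`. -/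
theorem t03_sum_f (f : ℕ → ℝ) (a N z : ℕ) (hz : z < a) (haN : a ≤ N) :
    ∑ n ∈ Icc a N, f (n - z) = Fb f (a - 1 - z) - Fb f (N - z) := by
  induction N, haN using Nat.le_induction with
  | base =>
    rw [Finset.Icc_self, Finset.sum_singleton]
    unfold Fb
    have : a - z = (a - 1 - z) + 1 := by omega
    rw [this, Finset.sum_range_succ _ (a - 1 - z + 1)]
    ring
  | succ N hN ih =>
    rw [← Finset.insert_Icc_right_eq_Icc_add_one (by omega), Finset.sum_insert (by simp), ih]
    unfold Fb
    have : N + 1 - z = (N - z) + 1 := by omega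
    rw [this, Finset.sum_range_succ _ (N - z + 1)]
    ring

theorem t03_hit {f u : ℕ → ℝ} (hid : ∀ n, ∑ j ∈ range (n+1), Fb f j * u (n-j) = 1)
    (a N : ℕ) (ha : 1 ≤ a) (haN : a ≤ N) : hit f u a N = 1 - miss f u a N := by
  unfold hit ent miss
  rw [Finset.sum_comm]
  have h1 : ∀ z ∈ range a, ∑ n ∈ Icc a N, u z * f (n - z)
      = u z * Fb f (a - 1 - z) - u z * Fb f (N - z) := by
    intro z hz
    rw [← Finset.mul_sum, t03_sum_f f a N z (by simpa using hz) haN]
    ring
  rw [Finset.sum_congr rfl h1, Finset.sum_sub_distrib]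
  congr 1
  have h2 := hid (a - 1)
  rw [← Finset.sum_range_reflect] at h2
  have ha1 : a - 1 + 1 = a := by omega
  rw [ha1] at h2
  rw [← h2]
  apply Finset.sum_congr rfl
  intro z hz
  have hz' : z < a := by simpa using hz
  have : a - 1 - (a - 1 - z) = z := by omega
  rw [this, mul_comm]

theorem t03_dec {f u : ℕ → ℝ} (h : Ren f u) (a : ℕ) (ha : 1 ≤ a) :
    ∀ n, a ≤ n → u n = ∑ j ∈ Icc a n, ent f u a j * u (n-j) := by
  intro n
  induction n using Nat.strong_induction_on with
  | _ n ih =>
    intro han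
    obtain ⟨hf0, hfn, hfs, hu0, hren⟩ := h
    -- u n = sum_{z<n} u z * f (n-z)
    have e1 : u n = ∑ z ∈ range n, u z * f (n - z) := by
      obtain ⟨m, rfl⟩ : ∃ m, n = m + 1 := ⟨n - 1, by omega⟩
      rw [hren m, ← Finset.sum_range_reflect]
      apply Finset.sum_congr rfl
      intro z hz
      have hz' : z < m + 1 := by simpa using hz
      have h1 : m + 1 - 1 - z + 1 = m + 1 - z := by omega
      have h2 : m - (m + 1 - 1 - z) = z := by omega
      rw [h1, h2, mul_comm]
    have e2 : ∑ z ∈ range n, u z * f (n - z) = ent f u a n + ∑ z ∈ Ico a n, u z * f (n - z) := by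
      unfold ent
      rw [Finset.range_eq_Ico, Finset.range_eq_Ico, Finset.sum_Ico_consecutive _ (by omega) han]
    have e3 : ∑ z ∈ Ico a n, u z * f (n - z) = ∑ j ∈ Ico a n, ent f u a j * u (n - j) := by
      have : ∀ z ∈ Ico a n, u z * f (n - z) =
          ∑ j ∈ Ico a (z+1), ent f u a j * (u (z - j) * f (n - z)) := by
        intro z hz
        rw [Finset.mem_Ico] at hz
        conv_lhs => rw [ih z hz.2 hz.1]
        rw [Finset.sum_mul]
        apply Finset.sum_congr
        · ext j; simp [Nat.lt_succ_iff]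
        · intro j _; ring
      rw [Finset.sum_congr rfl this]
      rw [Finset.sum_sigma', Finset.sum_congr rfl (fun j (_ : j ∈ Ico a n) => rfl)]
      have key : ∀ j ∈ Ico a n, ent f u a j * u (n - j) =
          ∑ z ∈ Ico j n, ent f u a j * (u (z - j) * f (n - z)) := by
        intro j hj
        rw [Finset.mem_Ico] at hj
        rw [← Finset.mul_sum]
        congr 1
        obtain ⟨m, hm⟩ : ∃ m, n - j = m + 1 := ⟨n - j - 1, by omega⟩
        rw [hm, hren m, ← Finset.sum_range_reflect, Finset.sum_Ico_eq_sum_range, hm]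
        apply Finset.sum_congr rfl
        intro z hz
        have hz' : z < m + 1 := by simpa using hz
        have h1 : m + 1 - 1 - z + 1 = n - (j + z) := by omega
        have h2 : m - (m + 1 - 1 - z) = j + z - j := by omega
        rw [h1, h2, mul_comm]
      rw [Finset.sum_congr rfl key, Finset.sum_sigma']
      apply Finset.sum_nbij' (fun x => ⟨x.2, x.1⟩) (fun x => ⟨x.2, x.1⟩)
      · rintro ⟨z, j⟩ hx
        simp only [Finset.mem_sigma, Finset.mem_Ico] at hx ⊢
        omega
      · rintro ⟨z, j⟩ hx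
        simp only [Finset.mem_sigma, Finset.mem_Ico] at hx ⊢
        omega
      · rintro ⟨z, j⟩ _; rfl
      · rintro ⟨z, j⟩ _; rfl
      · rintro ⟨z, j⟩ _; rfl
    rw [e1, e2, e3]
    have : Icc a n = insert n (Ico a n) := by
      ext j; simp only [Finset.mem_Icc, Finset.mem_insert, Finset.mem_Ico]; omega
    rw [this, Finset.sum_insert (by simp), Nat.sub_self, hu0, mul_one]

theorem t03 (h1 : S_A1) : S_H := by
  intro f u h
  obtain ⟨hu, hu1, hF, hF1, hF0, hFa, hid⟩ := h1 f u h
  have hent := t03_ent_nonneg h hu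
  have hhit := fun a N ha haN => t03_hit (f := f) (u := u) hid a N ha haN
  have hdec := fun a n ha han => t03_dec h a ha n han
  refine ⟨hent, hhit, hdec, ?_, ?_, ?_⟩
  · intro a N ha haN
    conv_lhs => rw [hdec a N ha haN]
    unfold hit
    apply Finset.sum_le_sum
    intro j _
    calc ent f u a j * u (N - j) ≤ ent f u a j * 1 :=
          mul_le_mul_of_nonneg_left (hu1 _) (hent a j)
      _ = _ := mul_one _
  · intro a N ha haN
    rw [hhit a N ha haN]
    have := t03_miss_nonneg hu hF a N
    linarith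
  · intro a b N ha hab hbN
    rw [hhit a N ha (by omega), hhit b N (by omega) hbN]
    have key : miss f u b N = miss f u a N + ∑ n ∈ Ico a b, ent f u a n * miss f u (b-n) (N-n) := by
      have s1 : miss f u b N = miss f u a N + ∑ z ∈ Ico a b, u z * Fb f (N - z) := by
        unfold miss
        rw [Finset.range_eq_Ico, Finset.range_eq_Ico, Finset.sum_Ico_consecutive _ (by omega) hab]
      rw [s1]
      congr 1
      have : ∀ z ∈ Ico a b, u z * Fb f (N - z) =
          ∑ j ∈ Ico a (z+1), ent f u a j * (u (z - j) * Fb f (N - z)) := by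
        intro z hz
        rw [Finset.mem_Ico] at hz
        conv_lhs => rw [hdec a z ha hz.1]
        rw [Finset.sum_mul]
        apply Finset.sum_congr
        · ext j; simp [Nat.lt_succ_iff]
        · intro j _; ring
      rw [Finset.sum_congr rfl this]
      have key : ∀ j ∈ Ico a b, ent f u a j * miss f u (b - j) (N - j) =
          ∑ z ∈ Ico j b, ent f u a j * (u (z - j) * Fb f (N - z)) := by
        intro j hj
        rw [Finset.mem_Ico] at hj
        rw [← Finset.mul_sum]
        congr 1
        unfold miss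
        rw [Finset.sum_Ico_eq_sum_range]
        apply Finset.sum_congr rfl
        intro z hz
        have hz' : z < b - j := by simpa using hz
        have h1 : N - j - z = N - (j + z) := by omega
        have h2 : j + z - j = z := by omega
        rw [h1, h2]
      rw [Finset.sum_congr rfl key, Finset.sum_sigma', Finset.sum_sigma']
      apply Finset.sum_nbij' (fun x => ⟨x.2, x.1⟩) (fun x => ⟨x.2, x.1⟩)
      · rintro ⟨z, j⟩ hx
        simp only [Finset.mem_sigma, Finset.mem_Ico] at hx ⊢
        omega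
      · rintro ⟨z, j⟩ hx
        simp only [Finset.mem_sigma, Finset.mem_Ico] at hx ⊢
        omega
      · rintro ⟨z, j⟩ _; rfl
      · rintro ⟨z, j⟩ _; rfl
      · rintro ⟨z, j⟩ _; rfl
    rw [key]; ring

end H868PF
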