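import Mathlib
import Pool.Agent.H868R2.PF.Defs

set_option autoImplicit false

open MeasureTheory Finset

namespace H868PF

theorem t05 (h1 : S_A1) (hH : S_H) : S_A4 := by
  intro f u hR a L
  obtain ⟨hu0, hu1, -⟩ := h1 f u hR
  obtain ⟨hent, -, hdec, -, hhit, -⟩ := hH f u hR
  rcases Nat.eq_zero_or_pos a with rfl | ha
  · simp [RR]
  rcases Nat.eq_zero_or_pos L with rfl | hL
  · simp [RR]
  have hRR : 0 ≤ RR u L := sum_nonneg (fun i _ => hu0 i)
  calc ∑ n ∈ range L, u (a+n)
      = ∑ n ∈ range L, ∑ j ∈ Icc a (a+n), ent f u a j * u (a+n-j) :=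
        sum_congr rfl (fun n _ => hdec a (a+n) ha (by omega))
    _ = ∑ n ∈ range L, ∑ j ∈ Icc a (a+L-1),
          if j ≤ a+n then ent f u a j * u (a+n-j) else 0 := by
        refine sum_congr rfl fun n hn => ?_
        rw [← sum_filter]
        refine sum_congr ?_ fun _ _ => rfl
        ext j
        have := mem_range.1 hn
        simp only [mem_Icc, mem_filter]
        omega
    _ = ∑ j ∈ Icc a (a+L-1), ∑ n ∈ range L,
          if j ≤ a+n then ent f u a j * u (a+n-j) else 0 := sum_comm
    _ ≤ ∑ j ∈ Icc a (a+L-1), ent f u a j * RR u L := by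
        refine sum_le_sum fun j hj => ?_
        rw [← sum_filter, ← mul_sum]
        refine mul_le_mul_of_nonneg_left ?_ (hent a j)
        have hinj : Set.InjOn (fun n => a+n-j)
            ((range L).filter (fun n => j ≤ a+n) : Finset ℕ) := by
          intro x hx y hy hxy
          simp only [coe_filter, mem_range, Set.mem_setOf_eq] at hx hy
          simp only at hxy
          omega
        rw [← sum_image (f := u) hinj]
        refine sum_le_sum_of_subset_of_nonneg ?_ (fun i _ _ => hu0 i)
        intro m hm
        obtain ⟨n, hn, rfl⟩ := mem_image.1 hm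
        have h2 := mem_filter.1 hn
        have h3 := mem_range.1 h2.1
        have h4 := (mem_Icc.1 hj).1
        exact mem_range.2 (by omega)
    _ = RR u L * hit f u a (a+L-1) := by
        unfold hit
        rw [← sum_mul, mul_comm]
    _ ≤ RR u L * 1 := mul_le_mul_of_nonneg_left (hhit a (a+L-1) ha (by omega)) hRR
    _ = RR u L := mul_one _

end H868PF
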