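import Mathlib
import Pool.Agent.H868R2.PF.Defs

set_option autoImplicit false

open Finset

namespace H868PF

theorem t06_sum (F u : ℕ → ℝ) (L : ℕ) :
    ∑ n ∈ range L, ∑ j ∈ range (n + 1), F j * u (n - j)
      = ∑ j ∈ range L, F j * RR u (L - j) := by
  induction L with
  | zero => simp
  | succ L ih =>
    rw [sum_range_succ, ih]
    have h1 : ∑ j ∈ range (L + 1), F j * RR u (L + 1 - j)
        = ∑ j ∈ range (L + 1), F j * RR u (L - j) + ∑ j ∈ range (L + 1), F j * u (L - j) := by
      rw [← sum_add_distrib]
      refine sum_congr rfl fun j hj => ?_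
      rw [mem_range] at hj
      have h2 : L + 1 - j = (L - j) + 1 := by omega
      rw [h2]
      unfold RR
      rw [sum_range_succ]
      ring
    rw [h1, sum_range_succ (fun j => F j * RR u (L - j))]
    have h3 : RR u (L - L) = 0 := by
      rw [Nat.sub_self]; simp [RR]
    rw [h3, mul_zero, add_zero]

theorem t06_mono (u : ℕ → ℝ) (hu : ∀ n, 0 ≤ u n) (a b : ℕ) (h : a ≤ b) : RR u a ≤ RR u b := by
  unfold RR
  exact sum_le_sum_of_subset_of_nonneg (range_subset_range.mpr h) (fun i _ _ => hu i)

theorem t06 (h1 : S_A1) : S_A5 := by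
  intro f u hr L
  obtain ⟨hu, -, hF, -, -, -, hc⟩ := h1 f u hr
  have key : ∀ M : ℕ, (M : ℝ) = ∑ j ∈ range M, Fb f j * RR u (M - j) := by
    intro M
    rw [← t06_sum, sum_congr rfl (fun n _ => hc n)]
    simp
  have hprod : RR u L * UU f L = ∑ j ∈ range L, Fb f j * RR u L := by
    unfold UU
    rw [mul_sum]
    exact sum_congr rfl fun j _ => mul_comm _ _
  constructor
  · rw [hprod]
    conv_lhs => rw [key L]
    exact sum_le_sum fun j _ => mul_le_mul_of_nonneg_left (t06_mono u hu _ _ (by omega)) (hF j)
  · rw [hprod]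
    have h2 := key (2 * L)
    push_cast at h2
    rw [h2]
    calc ∑ j ∈ range L, Fb f j * RR u L ≤ ∑ j ∈ range L, Fb f j * RR u (2 * L - j) := by
          refine sum_le_sum fun j hj => ?_
          rw [mem_range] at hj
          exact mul_le_mul_of_nonneg_left (t06_mono u hu _ _ (by omega)) (hF j)
      _ ≤ ∑ j ∈ range (2 * L), Fb f j * RR u (2 * L - j) := by
          refine sum_le_sum_of_subset_of_nonneg (range_subset_range.mpr (by omega)) ?_
          intro j _ _
          refine mul_nonneg (hF j) ?_
          unfold RR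
          exact sum_nonneg fun i _ => hu i

end H868PF
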