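import Mathlib
import Pool.Agent.H868R2.PF.Defs

set_option autoImplicit false

open MeasureTheory Finset

namespace H868PF

/-- key step -/
lemma t07_key (h1 : S_A1) (h2 : S_A2) {f u : ℕ → ℝ} {b : ℝ} (hR : Ren f u) (hb : 1 ≤ b)
    (hF1 : Fb f 1 ≤ 1 / 4) {n : ℕ} (hn : 1 ≤ n) (hs : ∑ j ∈ Icc 1 n, Fb f j ≤ b)
    (hi : u n ≤ 1 / 4) :
    ∃ m, 1 ≤ m ∧ m ≤ n ∧ u m ≤ 4 * b * u n ∧ 1 / 4 ≤ ∑ j ∈ Ioc m n, Fb f j := by
  obtain ⟨hu0, hu1, hF0, hFle, hFz, hFmono, hsum⟩ := h1 f u hR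
  have hsup := h2 f u hR
  -- the set Y
  set Y := (Icc 1 n).filter (fun j => u j ≤ 4 * b * u n) with hY
  have hnY : n ∈ Y := by
    rw [hY, mem_filter, mem_Icc]
    refine ⟨⟨hn, le_rfl⟩, ?_⟩
    have := hu0 n
    nlinarith
  have hne : Y.Nonempty := ⟨n, hnY⟩
  have hsum1 : ∑ j ∈ Icc 1 n, Fb f j * u (n - j) = 1 - u n := by
    have h := hsum n
    rw [range_eq_Ico, sum_eq_sum_Ico_succ_bot (by omega : 0 < n + 1), hFz, Nat.sub_zero] at h
    have h3 : Ico (0 + 1) (n + 1) = Icc 1 n := by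
      ext x; simp only [mem_Ico, mem_Icc]; omega
    rw [h3] at h
    linarith
  have hsplit : ∑ j ∈ Y, Fb f j * u (n - j)
      + ∑ j ∈ (Icc 1 n).filter (fun j => ¬ u j ≤ 4 * b * u n), Fb f j * u (n - j)
      = 1 - u n := by
    rw [← hsum1, hY]
    exact sum_filter_add_sum_filter_not (Icc 1 n) (fun j => u j ≤ 4 * b * u n) _
  have hcomp : ∑ j ∈ (Icc 1 n).filter (fun j => ¬ u j ≤ 4 * b * u n), Fb f j * u (n - j)
      ≤ 1 / 4 := by
    calc ∑ j ∈ (Icc 1 n).filter (fun j => ¬ u j ≤ 4 * b * u n), Fb f j * u (n - j)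
        ≤ ∑ j ∈ (Icc 1 n).filter (fun j => ¬ u j ≤ 4 * b * u n), Fb f j * (1 / (4 * b)) := by
          refine sum_le_sum fun j hj => ?_
          rw [mem_filter, mem_Icc] at hj
          obtain ⟨⟨hj1, hj2⟩, hj3⟩ := hj
          push Not at hj3
          refine mul_le_mul_of_nonneg_left ?_ (hF0 j)
          rw [le_div_iff₀ (by linarith)]
          by_contra hcon
          push Not at hcon
          have h4 := hsup j (n - j)
          rw [Nat.add_sub_cancel' hj2] at h4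
          have h5 : 0 < u j := by
            have := hu0 n
            have : 0 ≤ 4 * b * u n := by positivity
            linarith
          have h6 : u j * 1 < u j * (u (n - j) * (4 * b)) := mul_lt_mul_of_pos_left hcon h5
          nlinarith
      _ ≤ ∑ j ∈ Icc 1 n, Fb f j * (1 / (4 * b)) := by
          refine sum_le_sum_of_subset_of_nonneg (filter_subset _ _) fun j _ _ => ?_
          exact mul_nonneg (hF0 j) (by positivity)
      _ = (∑ j ∈ Icc 1 n, Fb f j) * (1 / (4 * b)) := by rw [sum_mul]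
      _ ≤ b * (1 / (4 * b)) := mul_le_mul_of_nonneg_right hs (by positivity)
      _ = 1 / 4 := by field_simp
  have hYsum : 1 / 2 ≤ ∑ j ∈ Y, Fb f j := by
    have h3 : ∑ j ∈ Y, Fb f j * u (n - j) ≤ ∑ j ∈ Y, Fb f j := by
      refine sum_le_sum fun j _ => ?_
      have := hF0 j
      have := hu1 (n - j)
      nlinarith
    linarith
  have hmem : ∀ j ∈ Y, (1 ≤ j ∧ j ≤ n) ∧ u j ≤ 4 * b * u n := by
    intro j hj
    rw [hY, mem_filter, mem_Icc] at hj
    exact hj
  obtain ⟨m, hmY, hmin⟩ : ∃ m ∈ Y, ∀ j ∈ Y, m ≤ j :=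
    ⟨Y.min' hne, Y.min'_mem hne, fun j hj => Y.min'_le j hj⟩
  have hm1 := (hmem m hmY).1.1
  have hmn := (hmem m hmY).1.2
  refine ⟨m, hm1, hmn, (hmem m hmY).2, ?_⟩
  have h3 : ∑ j ∈ Y, Fb f j ≤ ∑ j ∈ Icc m n, Fb f j := by
    refine sum_le_sum_of_subset_of_nonneg (fun j hj => ?_) fun j _ _ => hF0 j
    rw [mem_Icc]
    exact ⟨hmin j hj, (hmem j hj).1.2⟩
  have h4 : ∑ j ∈ Icc m n, Fb f j = Fb f m + ∑ j ∈ Ioc m n, Fb f j := by
    have h5 : Icc m n = insert m (Ioc m n) := by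
      ext x
      simp only [mem_insert, mem_Icc, mem_Ioc]
      omega
    rw [h5, sum_insert (by simp)]
  have h5 := hFmono 1 m hm1
  linarith

theorem t07 (h1 : S_A1) (h2 : S_A2) : S_A6 := by
  intro B
  set b := max B 1 with hb
  have hb1 : 1 ≤ b := le_max_right _ _
  have hbB : B ≤ b := le_max_left _ _
  set K := ⌈4 * b⌉₊ with hK
  have hKb : 4 * b ≤ K := Nat.le_ceil _
  have h4b : 1 ≤ 4 * b := by linarith
  have hpow : 0 < (4 * b) ^ K := by positivity
  refine ⟨1 / 4 / (4 * b) ^ K, by positivity, ?_⟩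
  intro f u N hR hF1 hUU n hn
  obtain ⟨hu0, hu1, hF0, hFle, hFz, hFmono, hsum⟩ := h1 f u hR
  have hS : ∀ n, n ≤ N → ∑ j ∈ Icc 1 n, Fb f j ≤ b := by
    intro n hn
    have h3 : UU f (n + 1) = 1 + ∑ j ∈ Icc 1 n, Fb f j := by
      unfold UU
      rw [range_eq_Ico, sum_eq_sum_Ico_succ_bot (by omega : 0 < n + 1), hFz]
      have h3 : Ico (0 + 1) (n + 1) = Icc 1 n := by
        ext x; simp only [mem_Ico, mem_Icc]; omega
      rw [h3]
    have h4 : UU f (n + 1) = UU f n + Fb f n := by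
      unfold UU
      rw [sum_range_succ]
    have h5 : UU f n ≤ UU f N := by
      unfold UU
      exact sum_le_sum_of_subset_of_nonneg (range_mono hn) fun j _ _ => hF0 j
    have h6 := hFle n
    linarith
  have hP : ∀ k : ℕ, ∀ n, 1 ≤ n → n ≤ N → u n * (4 * b) ^ k ≤ 1 / 4 →
      ((k : ℝ) + 1) / 4 ≤ ∑ j ∈ Icc 1 n, Fb f j := by
    intro k
    induction k with
    | zero =>
      intro n hn1 hnN hu
      rw [pow_zero, mul_one] at hu
      obtain ⟨m, hm1, hmn, -, hm4⟩ := t07_key h1 h2 hR hb1 hF1 hn1 (hS n hnN) hu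
      have h3 : ∑ j ∈ Ioc m n, Fb f j ≤ ∑ j ∈ Icc 1 n, Fb f j := by
        refine sum_le_sum_of_subset_of_nonneg (fun j hj => ?_) fun j _ _ => hF0 j
        rw [mem_Ioc] at hj
        rw [mem_Icc]
        omega
      norm_num
      linarith
    | succ k ih =>
      intro n hn1 hnN hu
      have hle : u n ≤ 1 / 4 := by
        have h3 : (1 : ℝ) ≤ (4 * b) ^ (k + 1) := one_le_pow₀ h4b
        have := hu0 n
        nlinarith
      obtain ⟨m, hm1, hmn, hm3, hm4⟩ := t07_key h1 h2 hR hb1 hF1 hn1 (hS n hnN) hle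
      have h3 : u m * (4 * b) ^ k ≤ 1 / 4 := by
        calc u m * (4 * b) ^ k ≤ (4 * b * u n) * (4 * b) ^ k :=
              mul_le_mul_of_nonneg_right hm3 (by positivity)
          _ = u n * (4 * b) ^ (k + 1) := by ring
          _ ≤ 1 / 4 := hu
      have h4 := ih m hm1 (hmn.trans hnN) h3
      have h5 : ∑ j ∈ Icc 1 m, Fb f j + ∑ j ∈ Ioc m n, Fb f j = ∑ j ∈ Icc 1 n, Fb f j := by
        rw [← sum_union]
        · congr 1
          ext x
          simp only [mem_union, mem_Icc, mem_Ioc]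
          omega
        · rw [Finset.disjoint_left]
          intro x hx hx2
          simp only [mem_Icc, mem_Ioc] at hx hx2
          omega
      push_cast
      linarith
  rw [div_le_iff₀ hpow]
  rcases Nat.eq_zero_or_pos n with h0 | h0
  · rw [h0, hR.2.2.2.1]
    have : (1 : ℝ) ≤ (4 * b) ^ K := one_le_pow₀ h4b
    linarith
  · by_contra hcon
    push Not at hcon
    have h3 := hP K n h0 hn hcon.le
    have h4 := hS n hn
    linarith

end H868PF
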