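import Mathlib
import Pool.Agent.H868R2.PF.Defs

set_option autoImplicit false

open Finset

namespace H868PF

theorem t08_mono (u : ℕ → ℝ) (hu : ∀ n, 0 ≤ u n) (a b : ℕ) (h : a ≤ b) : RR u a ≤ RR u b := by
  unfold RR
  exact sum_le_sum_of_subset_of_nonneg (range_subset_range.mpr h) (fun i _ _ => hu i)

theorem t08 (h1 : S_A1) (hH : S_H) : S_A7a := by
  intro f u hr N i l hl hN
  obtain ⟨hu, -, hF, -, -, hanti, -⟩ := h1 f u hr
  obtain ⟨hent, -, -, -, -, hstep⟩ := hH f u hr
  have hp1 : 2 ^ (i - l) = 2 * 2 ^ (i - 1 - l) := by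
    have : i - l = (i - 1 - l) + 1 := by omega
    rw [this, pow_succ]; ring
  have hp2 : 2 ^ (i - l) ≤ 2 ^ i := Nat.pow_le_pow_right (by norm_num) (by omega)
  have hp3 : 0 < 2 ^ (i - 1 - l) := by positivity
  rw [hp1] at hp2 ⊢
  clear hp1
  generalize 2 ^ (i - 1 - l) = B at *
  generalize 2 ^ i = A at *
  have h2 := hstep (N - A) (N - B) N (by omega) (by omega) (by omega)
  rw [h2]
  have hRR : ∀ n, 0 ≤ RR u n := fun n => by
    unfold RR; exact sum_nonneg fun i _ => hu i
  have hmiss : ∀ b M, 0 ≤ miss f u b M := fun b M => by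
    unfold miss; exact sum_nonneg fun z _ => mul_nonneg (hu _) (hF _)
  have h3 : hit f u (N - A) N - ∑ n ∈ Ioc (N - 2 * B) N, ent f u (N - A) n
      = ∑ n ∈ Icc (N - A) (N - 2 * B), ent f u (N - A) n := by
    unfold hit
    have : Icc (N - A) N = Icc (N - A) (N - 2 * B) ∪ Ioc (N - 2 * B) N := by
      ext x
      rw [mem_union, mem_Icc, mem_Icc, mem_Ioc]
      omega
    rw [this, sum_union]
    · ring
    · rw [disjoint_left]
      intro x hx hx'
      rw [mem_Icc] at hx
      rw [mem_Ioc] at hx'
      omega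
  rw [h3]
  have h4 : Fb f A * RR u B * ∑ n ∈ Icc (N - A) (N - 2 * B), ent f u (N - A) n
      ≤ ∑ n ∈ Ico (N - A) (N - B), ent f u (N - A) n * miss f u (N - B - n) (N - n) := by
    rw [mul_sum]
    calc ∑ n ∈ Icc (N - A) (N - 2 * B), Fb f A * RR u B * ent f u (N - A) n
        ≤ ∑ n ∈ Icc (N - A) (N - 2 * B), ent f u (N - A) n * miss f u (N - B - n) (N - n) := by
          refine sum_le_sum fun n hn => ?_
          rw [mem_Icc] at hn
          rw [mul_comm]
          refine mul_le_mul_of_nonneg_left ?_ (hent _ _)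
          have h5 : Fb f (N - n) * RR u (N - B - n) ≤ miss f u (N - B - n) (N - n) := by
            unfold miss RR
            rw [mul_sum]
            refine sum_le_sum fun z _ => ?_
            rw [mul_comm]
            exact mul_le_mul_of_nonneg_left (hanti _ _ (by omega)) (hu z)
          refine le_trans ?_ h5
          refine mul_le_mul (hanti _ _ (by omega)) (t08_mono u hu _ _ (by omega)) (hRR _) (hF _)
      _ ≤ _ := by
          refine sum_le_sum_of_subset_of_nonneg ?_ ?_
          · intro x hx
            rw [mem_Icc] at hx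
            rw [mem_Ico]
            omega
          · intro n _ _
            exact mul_nonneg (hent _ _) (hmiss _ _)
  linarith

end H868PF
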