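import Mathlib
import Pool.Agent.H868R2.PF.Defs

set_option autoImplicit false

open MeasureTheory Finset

namespace H868PF

theorem t09_RR_mono {f u : ℕ → ℝ} (h1 : S_A1) (h : Ren f u) {a b : ℕ} (hab : a ≤ b) :
    RR u a ≤ RR u b := by
  unfold RR
  exact Finset.sum_le_sum_of_subset_of_nonneg (Finset.range_mono hab)
    (fun i _ _ => (h1 f u h).1 i)

/-- a window of shifted values -/
theorem t09_win {f u : ℕ → ℝ} (h1 : S_A1) (h4 : S_A4) (h : Ren f u) (A L k : ℕ) :
    ∑ n ∈ Ioc A (A + L), (if k ≤ n then u (n - k) else 0) ≤ RR u L := by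
  have e : ∑ n ∈ Ioc A (A + L), (if k ≤ n then u (n - k) else 0) =
      ∑ j ∈ range L, (if k ≤ A + 1 + j then u (A + 1 + j - k) else 0) := by
    have : Ioc A (A + L) = Ico (A + 1) (A + 1 + L) := by
      ext x
      simp only [mem_Ioc, mem_Ico]
      omega
    rw [this, Finset.sum_Ico_eq_sum_range]
    simp
  rw [e]
  rcases le_or_gt k (A + 1) with hk | hk
  · have : ∑ j ∈ range L, (if k ≤ A + 1 + j then u (A + 1 + j - k) else 0) =
        ∑ j ∈ range L, u ((A + 1 - k) + j) := by
      apply Finset.sum_congr rfl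
      intro j _
      rw [if_pos (by omega)]
      congr 1
      omega
    rw [this]
    exact h4 f u h _ _
  · obtain ⟨c, hc⟩ : ∃ c, k = A + 1 + c := ⟨k - (A + 1), by omega⟩
    have : ∑ j ∈ range L, (if k ≤ A + 1 + j then u (A + 1 + j - k) else 0) =
        ∑ j ∈ range L, (if c ≤ j then u (j - c) else 0) := by
      apply Finset.sum_congr rfl
      intro j _
      by_cases hcj : c ≤ j
      · rw [if_pos (by omega), if_pos hcj]
        congr 1
        omega
      · rw [if_neg (by omega), if_neg hcj]
    rw [this]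
    rcases le_total L c with hL | hL
    · have : ∑ j ∈ range L, (if c ≤ j then u (j - c) else 0) = 0 := by
        apply Finset.sum_eq_zero
        intro j hj
        rw [if_neg]
        have := Finset.mem_range.1 hj
        omega
      rw [this]
      exact Finset.sum_nonneg fun i _ => (h1 f u h).1 i
    · obtain ⟨L', rfl⟩ := Nat.exists_eq_add_of_le hL
      rw [Finset.sum_range_add]
      have : ∑ j ∈ range c, (if c ≤ j then u (j - c) else 0) = 0 := by
        apply Finset.sum_eq_zero
        intro j hj
        rw [if_neg]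
        have := Finset.mem_range.1 hj
        omega
      rw [this, zero_add]
      have e2 : ∑ j ∈ range L', (if c ≤ c + j then u (c + j - c) else 0) = RR u L' := by
        unfold RR
        apply Finset.sum_congr rfl
        intro j _
        rw [if_pos (by omega)]
        congr 1
        omega
      rw [e2]
      exact t09_RR_mono h1 h (by omega)

theorem t09_tail {f u : ℕ → ℝ} (h : Ren f u) (D N : ℕ) (hD : 1 ≤ D) :
    ∑ k ∈ Icc D N, f k ≤ Fb f (D - 1) := by
  unfold Fb
  rw [Nat.sub_add_cancel hD]
  rcases le_total D (N + 1) with hDN | hDN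
  · have h2 := h.2.2.1 N
    have e : ∑ k ∈ range (N + 1), f k = ∑ k ∈ range D, f k + ∑ k ∈ Icc D N, f k := by
      rw [← Finset.sum_range_add_sum_Ico _ hDN]
      congr 1
    linarith
  · have : Icc D N = ∅ := Finset.Icc_eq_empty (by omega)
    rw [this, Finset.sum_empty]
    obtain ⟨D', rfl⟩ : ∃ D', D = D' + 1 := ⟨D - 1, by omega⟩
    have := h.2.2.1 D'
    linarith

theorem t09 (h1 : S_A1) (h4 : S_A4) : S_A7b := by
  intro f u h N i l hl hli hN
  set D := 2 ^ (i - 1) with hD
  set L := 2 ^ (i - l) with hL
  have hD1 : 1 ≤ D := Nat.one_le_two_pow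
  have hi : 2 ^ i = 2 * D := by
    rw [hD, ← pow_succ']
    congr 1
    omega
  have hLD : L ≤ D := Nat.pow_le_pow_right (by norm_num) (by omega)
  have hLN : L ≤ N := by omega
  obtain ⟨A, hA⟩ : ∃ A, N = A + L := ⟨N - L, by omega⟩
  have hAL : N - L = A := by omega
  rw [hAL]
  have hu := (h1 f u h).1
  have hf := h.2.1
  have step : ∀ n ∈ Ioc A N, ent f u (N - 2 ^ i) n ≤
      ∑ k ∈ Icc D N, f k * (if k ≤ n then u (n - k) else 0) := by
    intro n hn
    rw [mem_Ioc] at hn
    unfold ent
    have e : ∑ z ∈ range (N - 2 ^ i), u z * f (n - z) =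
        ∑ k ∈ (range (N - 2 ^ i)).image (fun z => n - z),
          f k * (if k ≤ n then u (n - k) else 0) := by
      rw [Finset.sum_image]
      · apply Finset.sum_congr rfl
        intro z hz
        rw [mem_range] at hz
        rw [if_pos (by omega), show n - (n - z) = z by omega, mul_comm]
      · intro x hx y hy hxy
        have hx' := mem_range.1 (Finset.mem_coe.1 hx)
        have hy' := mem_range.1 (Finset.mem_coe.1 hy)
        simp only at hxy
        omega
    rw [e]
    apply Finset.sum_le_sum_of_subset_of_nonneg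
    · intro k hk
      rw [Finset.mem_image] at hk
      obtain ⟨z, hz, rfl⟩ := hk
      rw [mem_range] at hz
      rw [mem_Icc]
      omega
    · intro k _ _
      apply mul_nonneg (hf k)
      split_ifs
      · exact hu _
      · exact le_rfl
  calc ∑ n ∈ Ioc A N, ent f u (N - 2 ^ i) n
      ≤ ∑ n ∈ Ioc A N, ∑ k ∈ Icc D N, f k * (if k ≤ n then u (n - k) else 0) :=
        Finset.sum_le_sum step
    _ = ∑ k ∈ Icc D N, f k * ∑ n ∈ Ioc A N, (if k ≤ n then u (n - k) else 0) := by
        rw [Finset.sum_comm]
        apply Finset.sum_congr rfl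
        intro k _
        rw [Finset.mul_sum]
    _ ≤ ∑ k ∈ Icc D N, f k * RR u L := by
        apply Finset.sum_le_sum
        intro k _
        apply mul_le_mul_of_nonneg_left _ (hf k)
        rw [hA]
        exact t09_win h1 h4 h A L k
    _ = (∑ k ∈ Icc D N, f k) * RR u L := by rw [Finset.sum_mul]
    _ ≤ Fb f (D - 1) * RR u L := by
        apply mul_le_mul_of_nonneg_right (t09_tail h D N hD1)
        exact Finset.sum_nonneg fun i _ => hu i

end H868PF
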