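import Mathlib
import Pool.Agent.H868R2.PF.Defs

set_option autoImplicit false

open MeasureTheory Finset

namespace H868PF

theorem t10_UU_add {f u : ℕ → ℝ} (h1 : S_A1) (h : Ren f u) (a b c : ℕ) (hc : c ≤ a) :
    UU f (a + b) ≤ UU f a + b * Fb f c := by
  unfold UU
  rw [Finset.sum_range_add]
  have : ∑ j ∈ range b, Fb f (a + j) ≤ ∑ j ∈ range b, Fb f c :=
    Finset.sum_le_sum fun j _ => (h1 f u h).2.2.2.2.2.1 _ _ (by omega)
  rw [Finset.sum_const, Finset.card_range, nsmul_eq_mul] at this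
  linarith

theorem t10_UU_ge {f u : ℕ → ℝ} (h1 : S_A1) (h : Ren f u) (d : ℕ) :
    (d : ℝ) * Fb f (d - 1) ≤ UU f d := by
  unfold UU
  have : ∑ j ∈ range d, Fb f (d - 1) ≤ ∑ j ∈ range d, Fb f j :=
    Finset.sum_le_sum fun j hj => (h1 f u h).2.2.2.2.2.1 _ _ (by
      have := Finset.mem_range.1 hj
      omega)
  rwa [Finset.sum_const, Finset.card_range, nsmul_eq_mul] at this

theorem t10_UU_mono {f u : ℕ → ℝ} (h1 : S_A1) (h : Ren f u) {a b : ℕ} (hab : a ≤ b) :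
    UU f a ≤ UU f b := by
  unfold UU
  exact Finset.sum_le_sum_of_subset_of_nonneg (Finset.range_mono hab)
    (fun i _ _ => (h1 f u h).2.2.1 i)

theorem t10_UU_le {f u : ℕ → ℝ} (h1 : S_A1) (h : Ren f u) (d : ℕ) : UU f d ≤ d := by
  unfold UU
  have : ∑ j ∈ range d, Fb f j ≤ ∑ j ∈ range d, (1 : ℝ) :=
    Finset.sum_le_sum fun j _ => (h1 f u h).2.2.2.1 j
  rwa [Finset.sum_const, Finset.card_range, nsmul_eq_mul, mul_one] at this

theorem t10_tel (s : ℕ → ℝ) (I l : ℕ) (h0 : ∀ i, i ≤ I → 0 ≤ s i) (hs1 : ∀ i, i ≤ I → s i ≤ 1)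
    (hI : l + 1 ≤ I + 1) :
    ∑ i ∈ Ico (l + 1) (I + 1), (s i - s (i - 1 - l)) ≤ l + 1 := by
  rw [Finset.sum_Ico_eq_sum_range]
  have e : ∑ j ∈ range (I + 1 - (l + 1)), (s (l + 1 + j) - s (l + 1 + j - 1 - l)) =
      ∑ j ∈ range (I + 1 - (l + 1)), s (l + 1 + j) - ∑ j ∈ range (I + 1 - (l + 1)), s j := by
    rw [← Finset.sum_sub_distrib]
    apply Finset.sum_congr rfl
    intro j _
    congr 2
    omega
  rw [e]
  set M := I + 1 - (l + 1) with hM
  have hMI : M + (l + 1) = I + 1 := by omega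
  have e1 := Finset.sum_range_add s (l + 1) M
  have e2 := Finset.sum_range_add s M (l + 1)
  rw [add_comm (l + 1) M] at e1
  have p1 : ∑ j ∈ range (l + 1), s (M + j) ≤ ∑ j ∈ range (l + 1), (1 : ℝ) :=
    Finset.sum_le_sum fun j hj => hs1 _ (by
      have := Finset.mem_range.1 hj
      omega)
  rw [Finset.sum_const, Finset.card_range, nsmul_eq_mul, mul_one] at p1
  have p2 : 0 ≤ ∑ j ∈ range (l + 1), s j := Finset.sum_nonneg fun j hj => h0 _ (by
      have := Finset.mem_range.1 hj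
      omega)
  push_cast at p1
  linarith

theorem t10_deep {f u : ℕ → ℝ} (h1 : S_A1) (h5 : S_A5) (hb : S_A7b) (h : Ren f u) (β : ℝ)
    (hβ0 : 0 < β) (hβ1 : β < 1) (N m i : ℕ)
    (hgap : ∀ d : ℕ, 2 ≤ d → d ≤ N → (d:ℝ) * Fb f (d-1) ≤ (1-β) * UU f d)
    (hi : m + 2 ≤ i) (hN : 2 ^ i < N) :
    ∑ n ∈ Ioc (N - 2^(i-(m+1))) N, ent f u (N-2^i) n ≤ 2 * (1 - β / 2) ^ m := by
  refine (hb f u h N i (m + 1) (by omega) (by omega) hN).trans ?_
  set L := 2 ^ (i - (m + 1)) with hL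
  have hL2 : 2 ≤ L := by
    rw [hL]
    calc 2 = 2 ^ 1 := by norm_num
      _ ≤ 2 ^ (i - (m + 1)) := Nat.pow_le_pow_right (by norm_num) (by omega)
  have hD : 2 ^ (i - 1) = 2 ^ m * L := by
    rw [hL, ← pow_add]
    congr 1
    omega
  have hDN : 2 ^ m * L ≤ N := by
    rw [← hD]
    exact (Nat.pow_le_pow_right (by norm_num) (by omega)).trans hN.le
  rw [hD]
  have key : ∀ j, j ≤ m → UU f (2 ^ j * L) ≤ (2 - β) ^ j * UU f L := by
    intro j
    induction j with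
    | zero => intro _; simp
    | succ j ih =>
      intro hj
      have ih' := ih (by omega)
      have hle : 2 ^ j * L ≤ N := by
        refine le_trans ?_ hDN
        exact Nat.mul_le_mul_right _ (Nat.pow_le_pow_right (by norm_num) (by omega))
      have hge : 2 ≤ 2 ^ j * L := by
        have := Nat.one_le_two_pow (n := j)
        nlinarith
      have e : 2 ^ (j + 1) * L = 2 ^ j * L + 2 ^ j * L := by ring
      rw [e]
      have a1 := t10_UU_add h1 h (2 ^ j * L) (2 ^ j * L) (2 ^ j * L - 1) (by omega)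
      have a2 := hgap _ hge hle
      have a3 : UU f (2 ^ j * L + 2 ^ j * L) ≤ (2 - β) * UU f (2 ^ j * L) := by linarith
      have a4 : (2 - β) * UU f (2 ^ j * L) ≤ (2 - β) * ((2 - β) ^ j * UU f L) :=
        mul_le_mul_of_nonneg_left ih' (by linarith)
      calc _ ≤ _ := a3
        _ ≤ _ := a4
        _ = _ := by ring
  have k1 := key m le_rfl
  have k2 := t10_UU_ge h1 h (2 ^ m * L)
  have k3 := (h5 f u h L).2
  have hR : 0 ≤ RR u L := Finset.sum_nonneg fun i _ => (h1 f u h).1 i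
  have hpos : (0 : ℝ) < ((2 ^ m * L : ℕ) : ℝ) := by
    have := Nat.one_le_two_pow (n := m)
    have : 0 < 2 ^ m * L := by nlinarith
    exact_mod_cast this
  have hq : (2 - β) ^ m = 2 ^ m * (1 - β / 2) ^ m := by
    rw [← mul_pow]
    congr 1
    ring
  have hq0 : 0 ≤ (2 - β) ^ m := pow_nonneg (by linarith) _
  have k4 : ((2 ^ m * L : ℕ) : ℝ) * (Fb f (2 ^ m * L - 1) * RR u L) ≤
      ((2 ^ m * L : ℕ) : ℝ) * (2 * (1 - β / 2) ^ m) := by
    calc ((2 ^ m * L : ℕ) : ℝ) * (Fb f (2 ^ m * L - 1) * RR u L)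
        = (((2 ^ m * L : ℕ) : ℝ) * Fb f (2 ^ m * L - 1)) * RR u L := by ring
      _ ≤ ((2 - β) ^ m * UU f L) * RR u L := mul_le_mul_of_nonneg_right (k2.trans k1) hR
      _ = (2 - β) ^ m * (RR u L * UU f L) := by ring
      _ ≤ (2 - β) ^ m * (2 * L) := mul_le_mul_of_nonneg_left k3 hq0
      _ = ((2 ^ m * L : ℕ) : ℝ) * (2 * (1 - β / 2) ^ m) := by rw [hq]; push_cast; ring
  exact le_of_mul_le_mul_left k4 hpos

theorem t10_grow {f u : ℕ → ℝ} (h1 : S_A1) (h5 : S_A5) (h : Ren f u) (l k : ℕ) (hk : l + 1 ≤ k) :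
    UU f (2 ^ k) ≤ 2 ^ (l + 1) *
      Real.exp (2 ^ (l + 1) * ∑ i ∈ Ico (l + 1) k, Fb f (2 ^ i) * RR u (2 ^ (i - 1 - l))) := by
  induction k, hk using Nat.le_induction with
  | base =>
    simp only [Finset.Ico_self, Finset.sum_empty, mul_zero, Real.exp_zero, mul_one]
    have := t10_UU_le h1 h (2 ^ (l + 1))
    push_cast at this
    exact this
  | succ k hk ih =>
    rw [Finset.sum_Ico_succ_top hk, mul_add, Real.exp_add, ← mul_assoc]
    set g := Fb f (2 ^ k) * RR u (2 ^ (k - 1 - l)) with hg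
    have e : 2 ^ (k + 1) = 2 ^ k + 2 ^ k := by ring
    have a1 := t10_UU_add h1 h (2 ^ k) (2 ^ k) (2 ^ k) le_rfl
    rw [← e] at a1
    have a2 := (h5 f u h (2 ^ (k - 1 - l))).1
    have hR : 0 ≤ RR u (2 ^ (k - 1 - l)) := Finset.sum_nonneg fun i _ => (h1 f u h).1 i
    have hF : 0 ≤ Fb f (2 ^ k) := (h1 f u h).2.2.1 _
    have a3 : UU f (2 ^ (k - 1 - l)) ≤ UU f (2 ^ k) :=
      t10_UU_mono h1 h (Nat.pow_le_pow_right (by norm_num) (by omega))
    have hU : 0 ≤ UU f (2 ^ k) := Finset.sum_nonneg fun i _ => (h1 f u h).2.2.1 i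
    have a4 : ((2 ^ (k - 1 - l) : ℕ) : ℝ) ≤ RR u (2 ^ (k - 1 - l)) * UU f (2 ^ k) :=
      a2.trans (mul_le_mul_of_nonneg_left a3 hR)
    have e2 : ((2 ^ k : ℕ) : ℝ) = 2 ^ (l + 1) * ((2 ^ (k - 1 - l) : ℕ) : ℝ) := by
      push_cast
      rw [← pow_add]
      congr 1
      omega
    have a5 : ((2 ^ k : ℕ) : ℝ) * Fb f (2 ^ k) ≤ UU f (2 ^ k) * (2 ^ (l + 1) * g) := by
      calc ((2 ^ k : ℕ) : ℝ) * Fb f (2 ^ k)
          = 2 ^ (l + 1) * ((2 ^ (k - 1 - l) : ℕ) : ℝ) * Fb f (2 ^ k) := by rw [e2]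
        _ ≤ 2 ^ (l + 1) * (RR u (2 ^ (k - 1 - l)) * UU f (2 ^ k)) * Fb f (2 ^ k) :=
            mul_le_mul_of_nonneg_right (mul_le_mul_of_nonneg_left a4 (by positivity)) hF
        _ = UU f (2 ^ k) * (2 ^ (l + 1) * g) := by rw [hg]; ring
    have a6 : 1 + 2 ^ (l + 1) * g ≤ Real.exp (2 ^ (l + 1) * g) := by
      have := Real.add_one_le_exp (2 ^ (l + 1) * g)
      linarith
    calc UU f (2 ^ (k + 1)) ≤ UU f (2 ^ k) + ((2 ^ k : ℕ) : ℝ) * Fb f (2 ^ k) := a1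
      _ ≤ UU f (2 ^ k) * (1 + 2 ^ (l + 1) * g) := by linarith
      _ ≤ UU f (2 ^ k) * Real.exp (2 ^ (l + 1) * g) := mul_le_mul_of_nonneg_left a6 hU
      _ ≤ _ := mul_le_mul_of_nonneg_right ih (Real.exp_pos _).le

theorem t10 (h1 : S_A1) (hH : S_H) (h5 : S_A5) (ha : S_A7a) (hb : S_A7b) : S_A7 := by
  intro β hβ0 hβ1
  set E := Real.exp (-1) / 2 with hE
  have hE0 : 0 < E := by have := Real.exp_pos (-1); positivity
  obtain ⟨m, hm⟩ := exists_pow_lt_of_lt_one (half_pos hE0) (show 1 - β / 2 < 1 by linarith)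
  set l := m + 1 with hl
  refine ⟨2 ^ (l + 1) * Real.exp (2 ^ (l + 1) * ((l + 1) / E)), ?_⟩
  intro f u N h hgap hB
  by_contra hcon
  push Not at hcon
  have hexp1 : 1 ≤ Real.exp (2 ^ (l + 1) * ((l + 1) / E)) := by
    apply Real.one_le_exp
    positivity
  rcases le_or_gt N (2 ^ (l + 1)) with hN | hN
  · have a1 := t10_UU_le h1 h N
    have a2 : (N : ℝ) ≤ 2 ^ (l + 1) := by exact_mod_cast hN
    have a3 : (2 : ℝ) ^ (l + 1) * 1 ≤ 2 ^ (l + 1) * Real.exp (2 ^ (l + 1) * ((l + 1) / E)) :=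
      mul_le_mul_of_nonneg_left hexp1 (by positivity)
    linarith
  · set I := Nat.log 2 (N - 1) with hI
    have hN1 : N - 1 ≠ 0 := by
      have := Nat.one_le_two_pow (n := l + 1)
      omega
    have hI1 : 2 ^ I ≤ N - 1 := Nat.pow_log_le_self 2 hN1
    have hI2 : N - 1 < 2 ^ (I + 1) := Nat.lt_pow_succ_log_self (by norm_num) _
    have hIl : l + 1 ≤ I + 1 := by
      by_contra hlt
      push Not at hlt
      have : 2 ^ (I + 1) ≤ 2 ^ (l + 1) := Nat.pow_le_pow_right (by norm_num) hlt.le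
      omega
    obtain ⟨q1, q2, q3, q4, q5, q6⟩ := hH f u h
    have hpow : ∀ i, i ≤ I → 2 ^ i < N := by
      intro i hi
      have : 2 ^ i ≤ 2 ^ I := Nat.pow_le_pow_right (by norm_num) hi
      omega
    have hs0 : ∀ i, i ≤ I → 0 ≤ hit f u (N - 2 ^ i) N := fun i _ =>
      Finset.sum_nonneg fun n _ => q1 _ _
    have hs1 : ∀ i, i ≤ I → hit f u (N - 2 ^ i) N ≤ 1 := fun i hi =>
      q5 _ _ (Nat.sub_pos_of_lt (hpow i hi)) (Nat.sub_le _ _)
    have tel := t10_tel (fun i => hit f u (N - 2 ^ i) N) I l hs0 hs1 hIl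
    have hg : ∑ i ∈ Ico (l + 1) (I + 1), Fb f (2 ^ i) * RR u (2 ^ (i - 1 - l)) ≤ (l + 1) / E := by
      rw [le_div_iff₀ hE0, Finset.sum_mul]
      refine le_trans (Finset.sum_le_sum fun i hi => ?_) tel
      rw [mem_Ico] at hi
      have hiN := hpow i (by omega)
      have b1 := ha f u h N i l (by omega) hiN
      have b2 := t10_deep h1 h5 hb h β hβ0 hβ1 N m i hgap (by omega) hiN
      have b3 := q4 (N - 2 ^ i) N (Nat.sub_pos_of_lt hiN) (Nat.sub_le _ _)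
      have hR : 0 ≤ RR u (2 ^ (i - 1 - l)) := Finset.sum_nonneg fun i _ => (h1 f u h).1 i
      have hF : 0 ≤ Fb f (2 ^ i) := (h1 f u h).2.2.1 _
      have b4 : E ≤ hit f u (N - 2 ^ i) N -
          ∑ n ∈ Ioc (N - 2^(i-l)) N, ent f u (N-2^i) n := by
        have : 2 * (1 - β / 2) ^ m < E := by linarith
        have e1 : Real.exp (-1) = 2 * E := by rw [hE]; ring
        rw [← hl] at b2
        linarith
      have b5 := mul_le_mul_of_nonneg_left b4 (mul_nonneg hF hR)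
      linarith
    have hgrow := t10_grow h1 h5 h l (I + 1) hIl
    have c1 : UU f N ≤ UU f (2 ^ (I + 1)) := t10_UU_mono h1 h (by omega)
    have c2 : (2 : ℝ) ^ (l + 1) *
        Real.exp (2 ^ (l + 1) * ∑ i ∈ Ico (l + 1) (I + 1), Fb f (2 ^ i) * RR u (2 ^ (i - 1 - l)))
        ≤ 2 ^ (l + 1) * Real.exp (2 ^ (l + 1) * ((l + 1) / E)) := by
      apply mul_le_mul_of_nonneg_left _ (by positivity)
      apply Real.exp_le_exp.2
      exact mul_le_mul_of_nonneg_left hg (by positivity)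
    linarith

end H868PF
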