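import Mathlib
import Pool.Agent.H868R2.PF.Defs

set_option autoImplicit false

open Finset

namespace H868PF

open PowerSeries in
theorem t11_ren (G R : PowerSeries ℝ) (h0 : coeff 0 G = 0) (h : R = 1 + G * R) (m : ℕ) :
    (∑ k ∈ range m, ((k : ℝ) + 1) • G ^ k)
      = R ^ 2 * (1 - ((m : ℝ) + 1) • G ^ m + (m : ℝ) • G ^ (m + 1)) := by
  have hinv : R * (1 - G) = 1 := by
    linear_combination h
  have h2 : ∀ m : ℕ, (∑ k ∈ range m, ((k : ℝ) + 1) • G ^ k) * (1 - G) ^ 2
      = 1 - ((m : ℝ) + 1) • G ^ m + (m : ℝ) • G ^ (m + 1) := by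
    intro m
    induction m with
    | zero => simp
    | succ m ih =>
      rw [sum_range_succ, add_mul, ih]
      simp only [PowerSeries.smul_eq_C_mul]
      push_cast
      simp only [map_add, map_natCast, map_one]
      ring
  rw [← h2 m]
  have h3 : R ^ 2 * (1 - G) ^ 2 = 1 := by
    rw [← mul_pow, hinv, one_pow]
  linear_combination (-(∑ k ∈ range m, ((k : ℝ) + 1) • G ^ k)) * h3

open PowerSeries in
theorem t11_low (G Y : PowerSeries ℝ) (h0 : coeff 0 G = 0) (m n : ℕ) (h : n < m) :
    coeff n (Y * G ^ m) = 0 := by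
  have h1 : X ∣ G := X_dvd_iff.mpr (by simpa using h0)
  obtain ⟨Z, hZ⟩ := pow_dvd_pow_of_dvd h1 m
  rw [hZ, mul_left_comm, coeff_X_pow_mul', if_neg (by omega)]

open PowerSeries in
theorem t11_nonneg (G : PowerSeries ℝ) (hG : ∀ n, 0 ≤ coeff n G) (k : ℕ) :
    ∀ n, 0 ≤ coeff n (G ^ k) := by
  induction k with
  | zero =>
    intro n
    rw [pow_zero, coeff_one]
    split_ifs <;> norm_num
  | succ k ih =>
    intro n
    rw [pow_succ, coeff_mul]
    exact sum_nonneg fun p _ => mul_nonneg (ih _) (hG _)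

open PowerSeries in
/-- coefficients of `1/(1-G)^2` -/
theorem t11_sq (G R : PowerSeries ℝ) (h0 : coeff 0 G = 0) (h : R = 1 + G * R) (n : ℕ) :
    coeff n (R ^ 2) = ∑ k ∈ range (n + 1), ((k : ℝ) + 1) * coeff n (G ^ k) := by
  have h1 := congrArg (coeff n) (t11_ren G R h0 h (n + 1))
  rw [map_sum] at h1
  simp only [map_smul, smul_eq_mul] at h1
  rw [h1]
  have h2 : R ^ 2 * (1 - (((n + 1 : ℕ) : ℝ) + 1) • G ^ (n + 1) + ((n + 1 : ℕ) : ℝ) • G ^ (n + 1 + 1))
      = R ^ 2 - (((n + 1 : ℕ) : ℝ) + 1) • (R ^ 2 * G ^ (n + 1))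
        + ((n + 1 : ℕ) : ℝ) • (R ^ 2 * G ^ (n + 1 + 1)) := by
    simp only [PowerSeries.smul_eq_C_mul]
    ring
  rw [h2, map_add, map_sub, map_smul, map_smul, t11_low G _ h0 (n + 1) n (by omega),
    t11_low G _ h0 (n + 1 + 1) n (by omega)]
  simp

open PowerSeries in
/-- coefficients of `1/(1-cG)` -/
theorem t11_geom (G W : PowerSeries ℝ) (c : ℝ) (h0 : coeff 0 G = 0)
    (h : W = 1 + (c • G) * W) (n : ℕ) :
    coeff n W = ∑ k ∈ range (n + 1), c ^ k * coeff n (G ^ k) := by
  have hinv : W * (1 - c • G) = 1 := by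
    linear_combination h
  have h1 : (∑ k ∈ range (n + 1), (c • G) ^ k) = W * (1 - (c • G) ^ (n + 1)) := by
    have h2 := mul_neg_geom_sum (c • G) (n + 1)
    rw [← h2]
    linear_combination (-(∑ k ∈ range (n + 1), (c • G) ^ k)) * hinv
  have h3 := congrArg (coeff n) h1
  rw [map_sum] at h3
  simp only [smul_pow, map_smul, smul_eq_mul] at h3
  rw [h3]
  have h4 : W * (1 - c ^ (n + 1) • G ^ (n + 1)) = W - c ^ (n + 1) • (W * G ^ (n + 1)) := by
    simp only [PowerSeries.smul_eq_C_mul]
    ring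
  rw [h4, map_sub, map_smul, t11_low G _ h0 (n + 1) n (by omega)]
  simp

/-- the numerical inequality -/
theorem t11_num (κ : ℝ) (h0 : 0 < κ) (h1 : κ < 1) (k : ℕ) :
    κ * ((k : ℝ) + 1) ≤ Real.exp (κ - 1) * ((1 - κ)⁻¹) ^ k := by
  have hq : 0 < 1 - κ := by linarith
  have h2 : 1 - κ ≤ Real.exp (-κ) := by
    have := Real.add_one_le_exp (-κ); linarith
  have h3 : (1 - κ) ^ k ≤ Real.exp (-κ) ^ k := pow_le_pow_left₀ hq.le h2 k
  have h4 : κ * ((k : ℝ) + 1) * Real.exp (-κ) ^ k ≤ Real.exp (κ - 1) := by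
    have h5 : κ * ((k : ℝ) + 1) ≤ Real.exp (κ * ((k : ℝ) + 1) - 1) := by
      have := Real.add_one_le_exp (κ * ((k : ℝ) + 1) - 1); linarith
    have h6 : 0 < Real.exp (-κ) ^ k := by positivity
    calc κ * ((k : ℝ) + 1) * Real.exp (-κ) ^ k
        ≤ Real.exp (κ * ((k : ℝ) + 1) - 1) * Real.exp (-κ) ^ k :=
          mul_le_mul_of_nonneg_right h5 h6.le
      _ = Real.exp (κ - 1) := by
          rw [← Real.exp_nat_mul, ← Real.exp_add]
          congr 1
          ring
  have h7 : κ * ((k : ℝ) + 1) * (1 - κ) ^ k ≤ Real.exp (κ - 1) := by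
    refine le_trans ?_ h4
    exact mul_le_mul_of_nonneg_left h3 (by positivity)
  rw [inv_pow, ← div_eq_mul_inv, le_div_iff₀ (by positivity)]
  exact h7

open PowerSeries in
theorem t11 : S_C2 := by
  intro g r κ hr hκ hκ1 hsum n
  obtain ⟨hg0, hg, -, hr0, hrec⟩ := hr
  set G : PowerSeries ℝ := PowerSeries.mk g with hG
  set R : PowerSeries ℝ := PowerSeries.mk r with hR
  have hG0 : coeff 0 G = 0 := by rw [hG, coeff_mk, hg0]
  have hGn : ∀ n, 0 ≤ coeff n G := fun n => by rw [hG, coeff_mk]; exact hg n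
  have hRG : R = 1 + G * R := by
    ext m
    rcases m with _ | m
    · simp [hR, hG, hg0, hr0]
    · rw [map_add, coeff_mul, Nat.sum_antidiagonal_eq_sum_range_succ
        (fun i j => coeff i G * coeff j R), sum_range_succ']
      simp only [hG, hR, coeff_mk, coeff_one]
      rw [hg0, hrec m]
      simp
  have hconv : conv r r n = coeff n (R ^ 2) := by
    rw [pow_two, coeff_mul, Nat.sum_antidiagonal_eq_sum_range_succ
        (fun i j => coeff i R * coeff j R)]
    simp only [hR, coeff_mk]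
    rfl
  rw [hconv, t11_sq G R hG0 hRG n]
  rcases eq_or_lt_of_le hκ1 with h1 | h1
  · -- κ = 1
    have hg00 : ∀ k, g k = 0 := by
      intro k
      have h2 := hsum k
      rw [h1, sub_self] at h2
      have h3 : g k ≤ ∑ k ∈ range (k + 1), g k :=
        single_le_sum (f := g) (fun i _ => hg i) (self_mem_range_succ k)
      exact le_antisymm (h3.trans h2) (hg k)
    have hGz : G = 0 := by
      ext m
      rw [hG, coeff_mk, hg00, map_zero]
    rw [hGz, h1, sub_self, Real.exp_zero, one_mul, sum_range_succ']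
    have : ∑ k ∈ range n, (((k + 1 : ℕ) : ℝ) + 1) * coeff n ((0 : PowerSeries ℝ) ^ (k + 1)) = 0 := by
      refine sum_eq_zero fun k _ => ?_
      rw [zero_pow (Nat.succ_ne_zero k), map_zero, mul_zero]
    rw [this, pow_zero, coeff_one]
    split_ifs <;> simp
  · have hq : 0 < 1 - κ := by linarith
    set c : ℝ := (1 - κ)⁻¹ with hc
    have hc0 : 0 < c := inv_pos.mpr hq
    obtain ⟨W, hW⟩ : ∃ W : PowerSeries ℝ, W = 1 + (c • G) * W := by
      refine ⟨(1 - c • G)⁻¹, ?_⟩
      have h2 : constantCoeff (1 - c • G) ≠ 0 := by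
        have : constantCoeff G = 0 := by simpa using hG0
        rw [map_sub, map_one, PowerSeries.smul_eq_C_mul, map_mul, this, mul_zero, sub_zero]
        exact one_ne_zero
      have h3 := PowerSeries.mul_inv_cancel _ h2
      linear_combination h3
    have hw : ∀ m, 0 ≤ coeff m W ∧ coeff m W ≤ 1 := by
      intro m
      induction m using Nat.strong_induction_on with
      | _ m ih =>
        rcases m with _ | m
        · have : coeff 0 W = 1 := by
            rw [hW, map_add, coeff_mul]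
            simp [hG, hg0]
          rw [this]; norm_num
        · have h2 : coeff (m + 1) W = ∑ k ∈ range (m + 1), c * g (k + 1) * coeff (m - k) W := by
            conv_lhs => rw [hW]
            rw [map_add, coeff_mul, Nat.sum_antidiagonal_eq_sum_range_succ
              (fun i j => coeff i (c • G) * coeff j W), sum_range_succ']
            simp only [hG, map_smul, smul_eq_mul, coeff_mk, coeff_one]
            rw [hg0]
            simp
          rw [h2]
          constructor
          · exact sum_nonneg fun k _ => mul_nonneg (mul_nonneg hc0.le (hg _)) (ih _ (by omega)).1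
          · calc ∑ k ∈ range (m + 1), c * g (k + 1) * coeff (m - k) W
                ≤ ∑ k ∈ range (m + 1), c * g (k + 1) := by
                  refine sum_le_sum fun k _ => ?_
                  exact mul_le_of_le_one_right (mul_nonneg hc0.le (hg _)) (ih _ (by omega)).2
              _ = c * ∑ k ∈ range (m + 1 + 1), g k := by
                  rw [sum_range_succ' g (m + 1), hg0, add_zero, mul_sum]
              _ ≤ c * (1 - κ) := mul_le_mul_of_nonneg_left (hsum (m + 1)) hc0.le
              _ = 1 := by rw [hc]; exact inv_mul_cancel₀ hq.ne'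
    have h5 := t11_geom G W c hG0 hW n
    calc κ * ∑ k ∈ range (n + 1), ((k : ℝ) + 1) * coeff n (G ^ k)
        = ∑ k ∈ range (n + 1), κ * ((k : ℝ) + 1) * coeff n (G ^ k) := by
          rw [mul_sum]; exact sum_congr rfl fun k _ => by ring
      _ ≤ ∑ k ∈ range (n + 1), Real.exp (κ - 1) * c ^ k * coeff n (G ^ k) := by
          refine sum_le_sum fun k _ => ?_
          exact mul_le_mul_of_nonneg_right (t11_num κ hκ h1 k) (t11_nonneg G hGn k n)
      _ = Real.exp (κ - 1) * coeff n W := by
          rw [h5, mul_sum]; exact sum_congr rfl fun k _ => by ring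
      _ ≤ Real.exp (κ - 1) := mul_le_of_le_one_right (Real.exp_pos _).le (hw n).2

end H868PF
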