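import Mathlib
import Pool.Agent.H868R2.PF.Defs

set_option autoImplicit false

open Finset

namespace H868PF

theorem t12_ren (f u : ℕ → ℝ) (h : Ren f u) :
    PowerSeries.mk u = 1 + PowerSeries.mk f * PowerSeries.mk u := by
  obtain ⟨h0, -, -, hu0, hu⟩ := h
  ext n
  rw [map_add, PowerSeries.coeff_mul, Finset.Nat.sum_antidiagonal_eq_sum_range_succ_mk]
  simp only [PowerSeries.coeff_mk, PowerSeries.coeff_one]
  cases n with
  | zero => simp [h0, hu0]
  | succ n =>
    have e : ∑ x ∈ range (n+1).succ, f x * u (n+1-x) = ∑ k ∈ range (n + 1), f (k + 1) * u (n - k) := by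
      rw [Finset.sum_range_succ', h0]
      simp
    rw [e, hu n]
    simp

theorem t12_trunc_zero (f : ℕ → ℝ) (h0 : f 0 = 0) (d : ℕ) : trunc f d 0 = 0 := by
  unfold trunc
  split_ifs
  · exact h0
  · rfl

theorem t12_cc (f u : ℕ → ℝ) (d : ℕ) (hd : 1 ≤ d) (h : Ren f u) :
    PowerSeries.mk (cc f u d) = PowerSeries.mk u - PowerSeries.mk (trunc f d) * PowerSeries.mk u := by
  have hr := t12_ren f u h
  obtain ⟨h0, -, -, hu0, hu⟩ := h
  ext n
  rw [map_sub]
  cases n with
  | zero =>
    rw [PowerSeries.coeff_mul]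
    simp [t12_trunc_zero f h0 d, hu0, cc]
  | succ n =>
    have h1 : (PowerSeries.coeff (n+1)) (PowerSeries.mk u) =
        (PowerSeries.coeff (n+1)) (PowerSeries.mk f * PowerSeries.mk u) := by
      conv_lhs => rw [hr]
      rw [map_add]
      simp [PowerSeries.coeff_one]
    rw [h1, PowerSeries.coeff_mul, PowerSeries.coeff_mul,
      Finset.Nat.sum_antidiagonal_eq_sum_range_succ_mk, Finset.Nat.sum_antidiagonal_eq_sum_range_succ_mk,
      ← Finset.sum_sub_distrib]
    simp only [PowerSeries.coeff_mk]
    unfold cc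
    rw [if_neg (by omega)]
    have hsub : Icc d (n+1) ⊆ range (n+1).succ := by
      intro x hx
      rw [mem_Icc] at hx
      rw [mem_range]
      omega
    rw [← Finset.sum_subset hsub]
    · apply Finset.sum_congr rfl
      intro x hx
      rw [mem_Icc] at hx
      unfold trunc
      rw [if_neg (by omega)]
      ring
    · intro x hx hx2
      rw [mem_range] at hx
      rw [mem_Icc] at hx2
      unfold trunc
      rw [if_pos (by omega)]
      ring

theorem t12 (h1 : S_A1) : S_C3 := by
  intro f u r d hd hfu hr n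
  have e1 := t12_cc f u d hd hfu
  have e2 := t12_ren _ _ hr
  have e3 : PowerSeries.mk u = PowerSeries.mk (cc f u d) * PowerSeries.mk r := by
    rw [e1]
    have e4 : PowerSeries.mk r - PowerSeries.mk (trunc f d) * PowerSeries.mk r = 1 := by
      rw [sub_eq_iff_eq_add]
      exact e2
    calc PowerSeries.mk u = PowerSeries.mk u * 1 := (mul_one _).symm
      _ = PowerSeries.mk u * (PowerSeries.mk r - PowerSeries.mk (trunc f d) * PowerSeries.mk r) := by rw [e4]
      _ = _ := by ring
  have e5 := congrArg (PowerSeries.coeff n) e3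
  rw [PowerSeries.coeff_mul, Finset.Nat.sum_antidiagonal_eq_sum_range_succ_mk] at e5
  simpa only [PowerSeries.coeff_mk] using e5

end H868PF
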