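import Mathlib
import Pool.Agent.H868R2.PF.Defs

set_option autoImplicit false

open Finset

namespace H868PF

theorem t13 (h1 : S_A1) (hH : S_H) : S_C4 := by
  intro f u d hd hr
  obtain ⟨hu, -, -, -, -, -, -⟩ := h1 f u hr
  have hf : ∀ n, 0 ≤ f n := hr.2.1
  obtain ⟨hent, -, -, -, hhit, -⟩ := hH f u hr
  have hcc : ∀ n, 0 ≤ cc f u d n := by
    intro n
    unfold cc
    split_ifs
    · exact zero_le_one
    · exact sum_nonneg fun x _ => mul_nonneg (hf x) (hu _)
  refine ⟨hcc, ?_⟩
  intro a L hL
  rcases Nat.eq_zero_or_pos L with hL0 | hL0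
  · rw [hL0, add_zero, Ico_self, sum_empty]; exact zero_le_one
  rcases Nat.eq_zero_or_pos a with ha | ha
  · rw [ha, zero_add]
    have h2 : ∀ n ∈ Ico 0 L, n ≠ 0 → cc f u d n = 0 := by
      intro n hn hn0
      rw [mem_Ico] at hn
      unfold cc
      rw [if_neg hn0, Icc_eq_empty (by omega), sum_empty]
    rw [sum_eq_single 0 (fun n hn hn0 => h2 n hn hn0) (fun h => absurd (mem_Ico.mpr ⟨le_rfl, hL0⟩) h)]
    unfold cc
    simp
  · have h2 : ∀ n ∈ Ico a (a + L), cc f u d n ≤ ent f u a n := by
      intro n hn
      rw [mem_Ico] at hn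
      unfold cc ent
      rw [if_neg (by omega)]
      have h3 : ∑ x ∈ Icc d n, f x * u (n - x)
          = ∑ z ∈ (Icc d n).image (fun x => n - x), u z * f (n - z) := by
        rw [sum_image]
        · refine sum_congr rfl fun x hx => ?_
          rw [mem_Icc] at hx
          have : n - (n - x) = x := by omega
          rw [this, mul_comm]
        · intro x hx y hy hxy
          rw [mem_coe, mem_Icc] at hx hy
          simp only at hxy
          omega
      rw [h3]
      refine sum_le_sum_of_subset_of_nonneg ?_ ?_
      · intro z hz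
        rw [mem_image] at hz
        obtain ⟨x, hx, rfl⟩ := hz
        rw [mem_Icc] at hx
        rw [mem_range]
        omega
      · intro z _ _
        exact mul_nonneg (hu _) (hf _)
    refine (sum_le_sum h2).trans ?_
    have h3 := hhit a (a + L - 1) ha (by omega)
    unfold hit at h3
    have h4 : Ico a (a + L) = Icc a (a + L - 1) := by
      ext x
      rw [mem_Ico, mem_Icc]
      omega
    rw [h4]
    exact h3

end H868PF
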