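import Mathlib
import Pool.Agent.H868R2.PF.Defs

set_option autoImplicit false

open MeasureTheory Finset

namespace H868PF

theorem t14_coeff_mul (a b : ℕ → ℝ) (n : ℕ) :
    PowerSeries.coeff n (PowerSeries.mk a * PowerSeries.mk b) =
      ∑ i ∈ range (n+1), a i * b (n-i) := by
  rw [PowerSeries.coeff_mul, Finset.Nat.sum_antidiagonal_eq_sum_range_succ_mk]
  simp only [PowerSeries.coeff_mk]

theorem t14_mk_mul (a b : ℕ → ℝ) :
    PowerSeries.mk a * PowerSeries.mk b =
      PowerSeries.mk (fun n => ∑ i ∈ range (n+1), a i * b (n-i)) := by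
  ext n
  rw [t14_coeff_mul, PowerSeries.coeff_mk]

theorem t14_sum_trunc (f g : ℕ → ℝ) (d n : ℕ) :
    ∑ i ∈ range (n+1), (if d ≤ i then f i else 0) * g i = ∑ x ∈ Icc d n, f x * g x := by
  simp only [ite_mul, zero_mul]
  rw [← Finset.sum_filter]
  apply Finset.sum_congr _ (fun _ _ => rfl)
  ext x
  simp only [mem_filter, mem_range, mem_Icc]
  omega

theorem t14 (h1 : S_A1) (h3 : S_C3) : S_C5 := by
  intro f u r d hd hu hr N
  have hC3 := h3 f u r d hd hu hr
  have hC : PowerSeries.mk (cc f u d) =
      1 + PowerSeries.mk (fun i => if d ≤ i then f i else 0) * PowerSeries.mk u := by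
    ext n
    rw [map_add, t14_coeff_mul, PowerSeries.coeff_mk, PowerSeries.coeff_one,
      t14_sum_trunc f (fun i => u (n-i)) d n]
    unfold cc
    by_cases hn : n = 0
    · subst hn
      simp only [if_true]
      rw [Finset.Icc_eq_empty (by omega)]
      simp
    · simp only [hn, if_false, zero_add]
  have hU : PowerSeries.mk u = PowerSeries.mk (cc f u d) * PowerSeries.mk r := by
    ext n
    rw [t14_coeff_mul, PowerSeries.coeff_mk, hC3 n]
  have key : PowerSeries.mk u = PowerSeries.mk r +
      PowerSeries.mk (fun i => if d ≤ i then f i else 0) *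
        ((PowerSeries.mk r * PowerSeries.mk r) * PowerSeries.mk (cc f u d)) := by
    have h2 : PowerSeries.mk u = (1 + PowerSeries.mk (fun i => if d ≤ i then f i else 0) *
        PowerSeries.mk u) * PowerSeries.mk r := by
      rw [← hC]; exact hU
    calc PowerSeries.mk u = (1 + PowerSeries.mk (fun i => if d ≤ i then f i else 0) *
        PowerSeries.mk u) * PowerSeries.mk r := h2
      _ = PowerSeries.mk r + PowerSeries.mk (fun i => if d ≤ i then f i else 0) *
        (PowerSeries.mk r * PowerSeries.mk u) := by ring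
      _ = PowerSeries.mk r + PowerSeries.mk (fun i => if d ≤ i then f i else 0) *
        (PowerSeries.mk r * (PowerSeries.mk (cc f u d) * PowerSeries.mk r)) := by rw [← hU]
      _ = _ := by ring
  have := congrArg (PowerSeries.coeff N) key
  rw [map_add, PowerSeries.coeff_mk, PowerSeries.coeff_mk, t14_mk_mul r r, t14_mk_mul,
    t14_coeff_mul] at this
  rw [this]
  congr 1
  rw [t14_sum_trunc f (fun i => ∑ v ∈ range (N-i+1), (∑ j ∈ range (v+1), r j * r (v-j)) *
    cc f u d (N-i-v)) d N]
  rfl

end H868PF
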