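import Mathlib
import Pool.Agent.H868R2.PF.Defs

set_option autoImplicit false

open MeasureTheory Finset

namespace H868PF

lemma t15_dsum (D r : ℕ → ℝ) (Y : ℕ) :
    ∑ n ∈ range Y, ∑ j ∈ range (n+1), D j * r (n-j) = ∑ j ∈ range Y, D j * RR r (Y-j) := by
  induction Y with
  | zero => simp
  | succ Y ih =>
    rw [sum_range_succ, ih]
    have h1 : ∑ j ∈ range (Y+1), D j * RR r (Y+1-j)
        = ∑ j ∈ range (Y+1), (D j * RR r (Y-j) + D j * r (Y-j)) := by
      apply sum_congr rfl
      intro j hj
      have hj' : j ≤ Y := by simpa [Nat.lt_succ_iff] using hj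
      have : Y + 1 - j = (Y - j) + 1 := by omega
      rw [this]
      unfold RR
      rw [sum_range_succ]
      ring
    rw [h1, sum_add_distrib]
    congr 1
    rw [sum_range_succ]
    simp [RR]

lemma t15_trunc_sum (f : ℕ → ℝ) (hf : ∀ n, 0 ≤ f n) (d n : ℕ) :
    ∑ k ∈ range n, trunc f d k ≤ ∑ k ∈ range d, f k := by
  have h1 : ∑ k ∈ range n, trunc f d k = ∑ k ∈ (range n).filter (fun k => k < d), f k := by
    rw [sum_filter]
    rfl
  rw [h1]
  apply sum_le_sum_of_subset_of_nonneg
  · intro k hk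
    simp only [mem_filter, mem_range] at hk ⊢
    exact hk.2
  · intro i _ _
    exact hf i

lemma t15_trunc_sum_eq (f : ℕ → ℝ) (d n : ℕ) (h : n ≤ d) :
    ∑ k ∈ range n, trunc f d k = ∑ k ∈ range n, f k := by
  apply sum_congr rfl
  intro k hk
  have : k < d := lt_of_lt_of_le (mem_range.1 hk) h
  simp [trunc, this]

lemma t15_trunc_sum_ge (f : ℕ → ℝ) (d n : ℕ) (h : d ≤ n) :
    ∑ k ∈ range n, trunc f d k = ∑ k ∈ range d, f k := by
  rw [← t15_trunc_sum_eq f d d le_rfl]
  symm
  apply sum_subset
  · intro k hk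
    simp only [mem_range] at hk ⊢
    omega
  · intro k _ hk
    simp only [mem_range, not_lt] at hk
    simp [trunc, Nat.not_lt.2 hk]

theorem t15 (h1 : S_A1) : S_C6 := by
  intro f u r d hd hfu hgr hk
  obtain ⟨hr0, hr1, hF0, hF1, hF00, hFm, hid⟩ := h1 (trunc f d) r hgr
  obtain ⟨hg0, hgn, hgs, hrz, hrec⟩ := hgr
  obtain ⟨hf0, hfn, hfs, huz, hurec⟩ := hfu
  set κ := Fb f (d-1) with hκ
  set D : ℕ → ℝ := fun j => Fb (trunc f d) j - κ with hD
  have hκe : κ = 1 - ∑ k ∈ range d, f k := by
    rw [hκ]; unfold Fb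
    have : d - 1 + 1 = d := by omega
    rw [this]
  have hDn : ∀ j, 0 ≤ D j := by
    intro j
    simp only [hD, Fb, hκe]
    have := t15_trunc_sum f hfn d (j+1)
    linarith
  have hDz : ∀ j, d ≤ j → D j = 0 := by
    intro j hj
    simp only [hD, Fb, hκe]
    rw [t15_trunc_sum_ge f d (j+1) (by omega)]
    ring
  have hDe : ∀ j, j < d → D j = Fb f j - κ := by
    intro j hj
    simp only [hD, Fb]
    rw [t15_trunc_sum_eq f d (j+1) (by omega)]
  have hDg : ∀ j, trunc f d (j+1) ≤ D j := by
    intro j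
    have h2 := hDn (j+1)
    simp only [hD, Fb] at h2 ⊢
    rw [sum_range_succ] at h2
    linarith
  have hT : ∀ n, TT κ r (n+1) = ∑ j ∈ range (n+1), D j * r (n-j) := by
    intro n
    have h2 := hid n
    have h3 : ∑ j ∈ range (n+1), D j * r (n-j)
        = ∑ j ∈ range (n+1), Fb (trunc f d) j * r (n-j) - κ * ∑ j ∈ range (n+1), r (n-j) := by
      rw [mul_sum, ← sum_sub_distrib]
      apply sum_congr rfl
      intro j _
      simp only [hD]
      ring
    rw [h3, h2]
    have h4 : ∑ j ∈ range (n+1), r (n-j) = ∑ j ∈ range (n+1), r j := by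
      have := sum_range_reflect r (n+1)
      rw [← this]
      apply sum_congr rfl
      intro j hj
      congr 1
    rw [h4]
    rfl
  have hT0 : TT κ r 0 = 1 := by simp [TT, RR]
  have p2 : ∀ y, 0 ≤ TT κ r y := by
    intro y
    cases y with
    | zero => rw [hT0]; norm_num
    | succ n =>
      rw [hT n]
      exact sum_nonneg fun j _ => mul_nonneg (hDn j) (hr0 _)
  have p1 : ∀ y, r y ≤ TT κ r y := by
    intro y
    cases y with
    | zero => rw [hT0, hrz]
    | succ n =>
      rw [hT n, hrec n]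
      exact sum_le_sum fun j _ => mul_le_mul_of_nonneg_right (hDg j) (hr0 _)
  have hRm : ∀ x y, x ≤ y → RR r x ≤ RR r y := by
    intro x y hxy
    unfold RR
    apply sum_le_sum_of_subset_of_nonneg
    · intro k hk'
      simp only [mem_range] at hk' ⊢
      omega
    · intro i _ _
      exact hr0 i
  have p3 : ∀ x y, x ≤ y → TT κ r y ≤ TT κ r x := by
    intro x y hxy
    unfold TT
    have := mul_le_mul_of_nonneg_left (hRm x y hxy) hk.le
    linarith
  have hRb : ∀ y, κ * RR r y ≤ 1 := by
    intro y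
    have := p2 y
    unfold TT at this
    linarith
  have hRn : ∀ y, 0 ≤ RR r y := fun y => sum_nonneg fun i _ => hr0 i
  refine ⟨p1, p2, p3, ?_, ?_⟩
  · intro Y
    have e1 : ∑ y ∈ Icc 1 Y, TT κ r y = ∑ n ∈ range Y, TT κ r (n+1) := by
      rw [range_eq_Ico, sum_Ico_add' (fun x => TT κ r x) 0 Y 1]
      apply sum_congr _ (fun _ _ => rfl)
      ext x
      simp only [mem_Icc, mem_Ico]
      omega
    rw [e1]
    have e2 : ∑ n ∈ range Y, TT κ r (n+1) = ∑ j ∈ range Y, D j * RR r (Y-j) := by
      rw [← t15_dsum]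
      exact sum_congr rfl fun n _ => hT n
    rw [e2]
    have e3 : ∑ j ∈ range Y, D j * RR r (Y-j) ≤ ∑ j ∈ range Y, D j * RR r Y :=
      sum_le_sum fun j _ => mul_le_mul_of_nonneg_left (hRm _ _ (by omega)) (hDn j)
    have e4 : ∑ j ∈ range Y, D j ≤ UU f d - d * κ := by
      have e5 : UU f d - d * κ = ∑ j ∈ range d, D j := by
        unfold UU
        rw [sum_congr rfl fun j hj => hDe j (mem_range.1 hj), sum_sub_distrib]
        simp
      rw [e5]
      have e6 : ∑ j ∈ range Y, D j ≤ ∑ j ∈ range (max Y d), D j := by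
        apply sum_le_sum_of_subset_of_nonneg
        · intro k hk'
          simp only [mem_range] at hk' ⊢
          exact lt_of_lt_of_le hk' (le_max_left _ _)
        · intro i _ _
          exact hDn i
      have e7 : ∑ j ∈ range d, D j = ∑ j ∈ range (max Y d), D j := by
        apply sum_subset
        · intro k hk'
          simp only [mem_range] at hk' ⊢
          exact lt_of_lt_of_le hk' (le_max_right _ _)
        · intro k _ hk'
          simp only [mem_range, not_lt] at hk'
          exact hDz k hk'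
      linarith
    rw [← sum_mul] at e3
    rw [le_div_iff₀ hk]
    have e8 : (∑ j ∈ range Y, D j) * (κ * RR r Y) ≤ (∑ j ∈ range Y, D j) * 1 :=
      mul_le_mul_of_nonneg_left (hRb Y) (sum_nonneg fun j _ => hDn j)
    calc (∑ j ∈ range Y, D j * RR r (Y-j)) * κ ≤ ((∑ j ∈ range Y, D j) * RR r Y) * κ :=
          mul_le_mul_of_nonneg_right e3 hk.le
      _ = (∑ j ∈ range Y, D j) * (κ * RR r Y) := by ring
      _ ≤ (∑ j ∈ range Y, D j) * 1 := e8
      _ ≤ UU f d - d * κ := by linarith
  · intro v
    set h := (v+1)/2 with hh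
    have k1 : conv r r v ≤ ∑ i ∈ range (v+1), (TT κ r h * r i + TT κ r h * r (v-i)) := by
      unfold conv
      apply sum_le_sum
      intro i hi
      have hi' : i ≤ v := by simpa [Nat.lt_succ_iff] using hi
      rcases Nat.lt_or_ge i h with hlt | hge
      · have : h ≤ v - i := by omega
        have h5 : r (v-i) ≤ TT κ r h := (p1 _).trans (p3 _ _ this)
        have h6 := mul_le_mul_of_nonneg_left h5 (hr0 i)
        have h7 := mul_nonneg (p2 h) (hr0 (v-i))
        nlinarith
      · have h5 : r i ≤ TT κ r h := (p1 _).trans (p3 _ _ hge)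
        have h6 := mul_le_mul_of_nonneg_right h5 (hr0 (v-i))
        have h7 := mul_nonneg (p2 h) (hr0 i)
        linarith
    have k2 : ∑ i ∈ range (v+1), (TT κ r h * r i + TT κ r h * r (v-i)) = 2 * TT κ r h * RR r (v+1) := by
      rw [sum_add_distrib, ← mul_sum, ← mul_sum]
      have h4 : ∑ j ∈ range (v+1), r (v-j) = ∑ j ∈ range (v+1), r j := by
        have := sum_range_reflect r (v+1)
        rw [← this]
        apply sum_congr rfl
        intro j hj
        congr 1
      rw [h4]
      unfold RR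
      ring
    rw [k2] at k1
    calc κ * conv r r v ≤ κ * (2 * TT κ r h * RR r (v+1)) := mul_le_mul_of_nonneg_left k1 hk.le
      _ = 2 * TT κ r h * (κ * RR r (v+1)) := by ring
      _ ≤ 2 * TT κ r h * 1 := mul_le_mul_of_nonneg_left (hRb _) (by have := p2 h; linarith)
      _ = 2 * TT κ r h := by ring

end H868PF
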