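import Mathlib
import Pool.Agent.H868R2.PF.Defs

set_option autoImplicit false

open MeasureTheory Finset

namespace H868PF

theorem t16_tail {f u : ℕ → ℝ} (h : Ren f u) (D N : ℕ) (hD : 1 ≤ D) :
    ∑ k ∈ Icc D N, f k ≤ Fb f (D - 1) := by
  unfold Fb
  rw [Nat.sub_add_cancel hD]
  rcases le_total D (N + 1) with hDN | hDN
  · have h2 := h.2.2.1 N
    have e : ∑ k ∈ range (N + 1), f k = ∑ k ∈ range D, f k + ∑ k ∈ Icc D N, f k := by
      rw [← Finset.sum_range_add_sum_Ico _ hDN]
      congr 1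
    linarith
  · have : Icc D N = ∅ := Finset.Icc_eq_empty (by omega)
    rw [this, Finset.sum_empty]
    obtain ⟨D', rfl⟩ : ∃ D', D = D' + 1 := ⟨D - 1, by omega⟩
    have := h.2.2.1 D'
    linarith

/-- windows of the reflected sequence -/
theorem t16_win (c : ℕ → ℝ) (d : ℕ) (h0 : ∀ n, 0 ≤ c n)
    (hc : ∀ (a L : ℕ), L ≤ d → ∑ n ∈ Ico a (a+L), c n ≤ 1) (M s L : ℕ) (hL : L ≤ d) :
    ∑ j ∈ range L, (if s + j ≤ M then c (M - (s + j)) else 0) ≤ 1 := by
  rw [← Finset.sum_filter]
  have e : ∑ j ∈ (range L).filter (fun j => s + j ≤ M), c (M - (s + j)) =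
      ∑ n ∈ ((range L).filter (fun j => s + j ≤ M)).image (fun j => M - (s + j)), c n := by
    rw [Finset.sum_image]
    intro x hx y hy hxy
    have hx' := Finset.mem_filter.1 (Finset.mem_coe.1 hx)
    have hy' := Finset.mem_filter.1 (Finset.mem_coe.1 hy)
    simp only at hxy
    omega
  rw [e]
  refine le_trans ?_ (hc (M - s + 1 - L) L hL)
  apply Finset.sum_le_sum_of_subset_of_nonneg
  · intro n hn
    rw [Finset.mem_image] at hn
    obtain ⟨j, hj, rfl⟩ := hn
    rw [Finset.mem_filter, mem_range] at hj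
    rw [mem_Ico]
    omega
  · intro n _ _
    exact h0 n

theorem t16_split (g : ℕ → ℝ) (W K : ℕ) :
    ∑ v ∈ range (W * K), g v = ∑ k ∈ range K, ∑ j ∈ range W, g (W * k + j) := by
  induction K with
  | zero => simp
  | succ K ih =>
    rw [Nat.mul_succ, Finset.sum_range_add, Finset.sum_range_succ, ih]

/-- the block decomposition -/
theorem t16_S (c a T : ℕ → ℝ) (d w : ℕ) (A0 : ℝ) (hw : 1 ≤ w) (hwd : 2 * w ≤ d)
    (h0 : ∀ n, 0 ≤ c n)
    (hc : ∀ (a L : ℕ), L ≤ d → ∑ n ∈ Ico a (a+L), c n ≤ 1)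
    (hA0 : 0 ≤ A0) (haA : ∀ v, a v ≤ A0) (haT : ∀ v, a v ≤ 2 * T ((v + 1) / 2))
    (hT0 : ∀ y, 0 ≤ T y) (hT : ∀ x y, x ≤ y → T y ≤ T x) (M : ℕ) :
    ∑ v ∈ range (M + 1), a v * c (M - v) ≤ A0 + 2 * ∑ k ∈ range M, T (w * (k + 1)) := by
  have e1 : ∑ v ∈ range (M + 1), a v * c (M - v) =
      ∑ v ∈ range (2 * w * (M + 1)), a v * (if v ≤ M then c (M - v) else 0) := by
    have hsub : range (M + 1) ⊆ range (2 * w * (M + 1)) := by
      apply Finset.range_mono
      nlinarith
    rw [← Finset.sum_subset hsub (f := fun v => a v * (if v ≤ M then c (M - v) else 0))]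
    · apply Finset.sum_congr rfl
      intro v hv
      rw [mem_range] at hv
      rw [if_pos (by omega)]
    · intro v _ hv
      rw [mem_range] at hv
      rw [if_neg (by omega), mul_zero]
  rw [e1, t16_split, Finset.sum_range_succ']
  have b0 : ∑ j ∈ range (2 * w), a (2 * w * 0 + j) *
      (if 2 * w * 0 + j ≤ M then c (M - (2 * w * 0 + j)) else 0) ≤ A0 := by
    calc _ ≤ ∑ j ∈ range (2 * w), A0 *
          (if 2 * w * 0 + j ≤ M then c (M - (2 * w * 0 + j)) else 0) := by
          apply Finset.sum_le_sum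
          intro j _
          apply mul_le_mul_of_nonneg_right (haA _)
          split_ifs
          · exact h0 _
          · exact le_rfl
      _ = A0 * ∑ j ∈ range (2 * w), (if 2 * w * 0 + j ≤ M then c (M - (2 * w * 0 + j)) else 0) := by
          rw [Finset.mul_sum]
      _ ≤ A0 * 1 := mul_le_mul_of_nonneg_left (t16_win c d h0 hc M _ _ hwd) hA0
      _ = A0 := mul_one _
  have b1 : ∀ k, ∑ j ∈ range (2 * w), a (2 * w * (k + 1) + j) *
      (if 2 * w * (k + 1) + j ≤ M then c (M - (2 * w * (k + 1) + j)) else 0) ≤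
        2 * T (w * (k + 1)) := by
    intro k
    calc _ ≤ ∑ j ∈ range (2 * w), (2 * T (w * (k + 1))) *
          (if 2 * w * (k + 1) + j ≤ M then c (M - (2 * w * (k + 1) + j)) else 0) := by
          apply Finset.sum_le_sum
          intro j _
          apply mul_le_mul_of_nonneg_right
          · have := hT (w * (k + 1)) ((2 * w * (k + 1) + j + 1) / 2) (by
              rw [Nat.le_div_iff_mul_le (by norm_num)]
              nlinarith)
            have h2 := haT (2 * w * (k + 1) + j)
            linarith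
          · split_ifs
            · exact h0 _
            · exact le_rfl
      _ = (2 * T (w * (k + 1))) * ∑ j ∈ range (2 * w),
            (if 2 * w * (k + 1) + j ≤ M then c (M - (2 * w * (k + 1) + j)) else 0) := by
          rw [Finset.mul_sum]
      _ ≤ (2 * T (w * (k + 1))) * 1 := mul_le_mul_of_nonneg_left (t16_win c d h0 hc M _ _ hwd) (by
          have := hT0 (w * (k + 1))
          linarith)
      _ = 2 * T (w * (k + 1)) := mul_one _
  have b2 := Finset.sum_le_sum (s := range M) fun k _ => b1 k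
  rw [← Finset.mul_sum] at b2
  linarith

theorem t16_T (T : ℕ → ℝ) (w K : ℕ) (hT : ∀ x y, x ≤ y → T y ≤ T x) :
    (w : ℝ) * ∑ k ∈ range K, T (w * (k + 1)) ≤ ∑ y ∈ Icc 1 (w * K), T y := by
  have e : ∑ y ∈ Icc 1 (w * K), T y = ∑ y ∈ range (w * K), T (1 + y) := by
    have : Icc 1 (w * K) = Ico 1 (w * K + 1) := by
      ext x
      simp only [mem_Icc, mem_Ico]
      omega
    rw [this, Finset.sum_Ico_eq_sum_range]
    simp
  rw [e, t16_split, Finset.mul_sum]
  apply Finset.sum_le_sum
  intro k _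
  have : ∑ j ∈ range w, T (w * (k + 1)) ≤ ∑ j ∈ range w, T (1 + (w * k + j)) := by
    apply Finset.sum_le_sum
    intro j hj
    rw [mem_range] at hj
    apply hT
    rw [Nat.mul_succ]
    omega
  rwa [Finset.sum_const, Finset.card_range, nsmul_eq_mul] at this

theorem t16 (h1 : S_A1) (he : S_EX) (hC2 : S_C2) (hC4 : S_C4) (hC5 : S_C5) (hC6 : S_C6) :
    S_A8 := by
  intro f u N d β hβ0 hβ1 h hd hdN hgap
  set κ := Fb f (d - 1) with hκ
  obtain ⟨a1, a2, a3, a4, a5, a6, a7⟩ := h1 f u h
  have hU1 : 1 ≤ UU f d := by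
    unfold UU
    have : Fb f 0 ≤ ∑ j ∈ range d, Fb f j :=
      Finset.single_le_sum (fun i _ => a3 i) (Finset.mem_range.2 (by omega))
    rwa [a5] at this
  have hκ0 : 0 < κ := by
    by_contra hcon
    push Not at hcon
    have : (d : ℝ) * κ ≤ 0 := mul_nonpos_of_nonneg_of_nonpos (Nat.cast_nonneg d) hcon
    have : 0 < (1 - β) * UU f d := mul_pos (by linarith) (by linarith)
    linarith
  have hκ1 : κ ≤ 1 := a4 _
  -- the truncated sequence
  have ht0 : trunc f d 0 = 0 := by unfold trunc; rw [h.1]; simp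
  have htn : ∀ n, 0 ≤ trunc f d n := by
    intro n
    unfold trunc
    split_ifs
    · exact h.2.1 n
    · exact le_rfl
  have hts : ∀ n, ∑ k ∈ range (n+1), trunc f d k ≤ 1 - κ := by
    intro n
    have e : 1 - κ = ∑ k ∈ range d, f k := by
      rw [hκ]; unfold Fb
      rw [Nat.sub_add_cancel (by omega)]
      ring
    rw [e]
    unfold trunc
    rw [← Finset.sum_filter]
    apply Finset.sum_le_sum_of_subset_of_nonneg
    · intro k hk
      rw [Finset.mem_filter] at hk
      exact Finset.mem_range.2 hk.2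
    · intro k _ _
      exact h.2.1 k
  obtain ⟨r, hr⟩ := he (trunc f d) ht0 htn (fun n => (hts n).trans (by linarith))
  have c2 := hC2 (trunc f d) r κ hr hκ0 hκ1 hts
  obtain ⟨c40, c41⟩ := hC4 f u d (by omega) h
  have c5 := hC5 f u r d (by omega) h hr N
  obtain ⟨t1, t2, t3, t4, t5⟩ := hC6 f u r d (by omega) h hr hκ0
  rw [← hκ] at t1 t2 t3 t4 t5
  set w := d / 2 with hw
  have hw1 : 1 ≤ w := by omega
  have hwd : 2 * w ≤ d := by omega
  have hdw : d ≤ 3 * w := by omega
  have hTs : ∀ K, ∑ k ∈ range K, TT κ r (w * (k + 1)) ≤ 3 * (β / (1 - β)) := by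
    intro K
    have b1 := (t16_T (TT κ r) w K t3).trans (t4 (w * K))
    have b2 : (UU f d - d * κ) / κ ≤ d * (β / (1 - β)) := by
      rw [div_le_iff₀ hκ0]
      have hb : 0 < 1 - β := by linarith
      have : d * (β / (1 - β)) * κ = (d * κ) / (1 - β) - d * κ := by
        field_simp
        ring
      rw [this]
      have : UU f d ≤ (d * κ) / (1 - β) := by
        rw [le_div_iff₀ hb]
        linarith
      linarith
    have hdw' : (d : ℝ) ≤ 3 * w := by exact_mod_cast hdw
    have hq : 0 ≤ β / (1 - β) := div_nonneg hβ0.le (by linarith)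
    have b3 : (w : ℝ) * ∑ k ∈ range K, TT κ r (w * (k + 1)) ≤ w * (3 * (β / (1 - β))) := by
      have := mul_le_mul_of_nonneg_right hdw' hq
      linarith
    have hw0 : (0 : ℝ) < w := by exact_mod_cast hw1
    exact le_of_mul_le_mul_left b3 hw0
  have hrN : r N ≤ 3 * (β / (1 - β)) := by
    have b1 := t1 N
    have b2 := t3 w N (by omega)
    have b3 := hTs 1
    simp at b3
    linarith
  have hS : ∀ M, ∑ v ∈ range (M + 1), conv r r v * cc f u d (M - v) ≤
      (Real.exp (κ - 1) + 6 * (β / (1 - β))) / κ := by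
    intro M
    rw [le_div_iff₀ hκ0, mul_comm, Finset.mul_sum]
    have b1 := t16_S (cc f u d) (fun v => κ * conv r r v) (TT κ r) d w (Real.exp (κ - 1)) hw1 hwd
      c40 c41 (Real.exp_pos _).le c2 t5 t2 t3 M
    have b2 := hTs M
    have e : ∑ v ∈ range (M + 1), κ * (conv r r v * cc f u d (M - v)) =
        ∑ v ∈ range (M + 1), (κ * conv r r v) * cc f u d (M - v) :=
      Finset.sum_congr rfl fun v _ => by ring
    rw [e]
    linarith
  have hmain : ∑ x ∈ Icc d N, f x * ∑ v ∈ range (N-x+1), conv r r v * cc f u d (N-x-v) ≤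
      Real.exp (κ - 1) + 6 * (β / (1 - β)) := by
    calc _ ≤ ∑ x ∈ Icc d N, f x * ((Real.exp (κ - 1) + 6 * (β / (1 - β))) / κ) := by
          apply Finset.sum_le_sum
          intro x _
          exact mul_le_mul_of_nonneg_left (hS (N - x)) (h.2.1 x)
      _ = (∑ x ∈ Icc d N, f x) * ((Real.exp (κ - 1) + 6 * (β / (1 - β))) / κ) := by
          rw [Finset.sum_mul]
      _ ≤ κ * ((Real.exp (κ - 1) + 6 * (β / (1 - β))) / κ) := by
          apply mul_le_mul_of_nonneg_right (t16_tail h d N (by omega))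
          have hq : 0 ≤ β / (1 - β) := div_nonneg hβ0.le (by linarith)
          have := Real.exp_pos (κ - 1)
          positivity
      _ = Real.exp (κ - 1) + 6 * (β / (1 - β)) := by
          field_simp
  have hexp : Real.exp (κ - 1) ≤ Real.exp (Fb f 1 - 1) := by
    apply Real.exp_le_exp.2
    have := a6 1 (d - 1) (by omega)
    linarith
  linarith

end H868PF
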