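import Mathlib
import Pool.Agent.H868R2.PF.Defs

set_option autoImplicit false

open MeasureTheory Finset

namespace H868PF

theorem t17 (h1 : S_A1) (h7 : S_A7) (h8 : S_A8) : S_A9 := by
  intro θ hθ
  have hβ0 : 0 < θ / (18 + θ) := by positivity
  have hβ1 : θ / (18 + θ) < 1 := by
    rw [div_lt_one (by positivity)]
    linarith
  obtain ⟨B, hB⟩ := h7 (θ / (18 + θ)) hβ0 hβ1
  have he : 0 < Real.exp 1 := Real.exp_pos 1
  have hpos : 1 < 1 + θ / 2 * Real.exp 1 := by
    have : 0 < θ / 2 * Real.exp 1 := by positivity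
    linarith
  refine ⟨B, Real.log (1 + θ / 2 * Real.exp 1), Real.log_pos hpos, ?_⟩
  intro f u N hf hκ hU
  have hexp : Real.exp (Real.log (1 + θ / 2 * Real.exp 1) - 1) = Real.exp (-1) + θ / 2 := by
    rw [Real.exp_sub, Real.exp_log (by linarith), Real.exp_neg]
    field_simp
  by_cases hc : ∀ d : ℕ, 2 ≤ d → d ≤ N →
      (d:ℝ) * Fb f (d-1) ≤ (1 - θ / (18 + θ)) * UU f d
  · have := hB f u N hf hc hU
    linarith
  · push Not at hc
    obtain ⟨d, hd2, hdN, hd⟩ := hc
    have h9 := h8 f u N d (θ / (18 + θ)) hβ0 hβ1 hf hd2 hdN hd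
    have h10 : Real.exp (Fb f 1 - 1) ≤ Real.exp (Real.log (1 + θ / 2 * Real.exp 1) - 1) :=
      Real.exp_le_exp.2 (by linarith)
    have h11 : 9 * (θ / (18 + θ) / (1 - θ / (18 + θ))) = θ / 2 := by
      have : (18 + θ) ≠ 0 := by positivity
      have h12 : 1 - θ / (18 + θ) = 18 / (18 + θ) := by
        field_simp
        ring
      rw [h12]
      field_simp
      ring
    rw [hexp] at h10
    linarith

end H868PF
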