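import Mathlib
import Pool.Agent.H868R2.PF.Defs

set_option autoImplicit false

open MeasureTheory Finset

namespace H868PF

theorem t18_pos (μ : Measure ℝ) (h0 : μ (Set.Iic 0) = 0) : ∀ᵐ x ∂μ, (0:ℝ) < x := by
  rw [ae_iff]
  have : {a : ℝ | ¬ (0:ℝ) < a} = Set.Iic 0 := by
    ext a; simp
  rw [this]; exact h0

theorem t18_fin (μ : Measure ℝ) 
    (hI : Integrable (fun x : ℝ => 1 - Real.exp (-x)) μ) :
    ∀ y : ℝ, 0 < y → μ (Set.Ioi y) < ⊤ := by
  intro y hy
  have hc : (0:ℝ) < 1 - Real.exp (-y) := by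
    have : Real.exp (-y) < 1 := by
      rw [Real.exp_lt_one_iff]; linarith
    linarith
  have h := hI.measure_gt_lt_top hc
  refine lt_of_le_of_lt (measure_mono ?_) h
  intro x hx
  simp only [Set.mem_Ioi] at hx
  show (1 - Real.exp (-y)) < 1 - Real.exp (-x)
  have : Real.exp (-x) < Real.exp (-y) := Real.exp_lt_exp.mpr (by linarith)
  linarith

theorem t18_int (s : ℝ) (x : ℝ) : ∫ t in (0:ℝ)..x, s * Real.exp (-(s*t)) = 1 - Real.exp (-(s*x)) := by
  have h : ∀ t ∈ Set.uIcc (0:ℝ) x, HasDerivAt (fun t => - Real.exp (-(s*t))) (s * Real.exp (-(s*t))) t := by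
    intro t _
    have h1 : HasDerivAt (fun t : ℝ => -(s*t)) (-s) t := by
      have h := (hasDerivAt_id t).const_mul (-s)
      simp only [id, mul_one] at h
      refine h.congr_of_eventuallyEq (Filter.Eventually.of_forall fun x => ?_)
      simp only []
      ring
    have h2 : HasDerivAt (fun t => Real.exp (-(s*t)) * (-1)) (Real.exp (-(s*t)) * (-s) * (-1)) t :=
      h1.exp.mul_const (-1)
    refine (h2.congr_deriv (by ring)).congr_of_eventuallyEq
      (Filter.Eventually.of_forall fun x => ?_)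
    simp only []
    ring
  rw [intervalIntegral.integral_eq_sub_of_hasDerivAt h]
  · simp; ring
  · apply Continuous.intervalIntegrable
    fun_prop

theorem t18_intS (μ : Measure ℝ) (h0 : μ (Set.Iic 0) = 0)
    (hI : Integrable (fun x : ℝ => 1 - Real.exp (-x)) μ) (s : ℝ) (hs : 0 < s) :
    Integrable (fun x : ℝ => 1 - Real.exp (-(s*x))) μ := by
  have hb : Integrable (fun x : ℝ => max 1 s * (1 - Real.exp (-x))) μ := hI.const_mul _
  refine hb.mono' ?_ ?_
  · apply Measurable.aestronglyMeasurable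
    fun_prop
  · filter_upwards [t18_pos μ h0] with x hx
    have h1 : Real.exp (-(s*x)) ≤ 1 := by
      rw [Real.exp_le_one_iff]; nlinarith
    rw [Real.norm_eq_abs, abs_of_nonneg (by linarith)]
    have hm1 : (1:ℝ) ≤ max 1 s := le_max_left _ _
    have hms : s ≤ max 1 s := le_max_right _ _
    -- (e^{-x})^m ≥ 1 - m (1 - e^{-x}) Bernoulli
    have hB : 1 + max 1 s * (Real.exp (-x) - 1) ≤ (1 + (Real.exp (-x) - 1)) ^ (max 1 s) := by
      apply one_add_mul_self_le_rpow_one_add
      · have := Real.exp_pos (-x); linarith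
      · exact hm1
    have hE : (1 + (Real.exp (-x) - 1)) ^ (max 1 s) = Real.exp (-(max 1 s * x)) := by
      rw [show (1 + (Real.exp (-x) - 1)) = Real.exp (-x) by ring, ← Real.exp_mul]
      congr 1; ring
    rw [hE] at hB
    have hL : Real.exp (-(max 1 s * x)) ≤ Real.exp (-(s*x)) := by
      apply Real.exp_le_exp.mpr
      nlinarith
    nlinarith

theorem t18 : S_V1a := by
  intro μ h0 hI
  have hfin := t18_fin μ hI
  refine ⟨hfin, ?_⟩
  intro s hs
  have hpos := t18_pos μ h0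
  have key := lintegral_comp_eq_lintegral_meas_lt_mul (μ := μ) (f := fun x : ℝ => x)
    (g := fun t => s * Real.exp (-(s*t))) (by filter_upwards [hpos] with x hx using hx.le)
    (by fun_prop) (by intro t _; apply Continuous.intervalIntegrable; fun_prop)
    (by filter_upwards with t; positivity)
  simp only [t18_int] at key
  have hSet : ∀ t : ℝ, μ {a : ℝ | t < a} = μ (Set.Ioi t) := fun t => rfl
  simp only [hSet] at key
  have hS := t18_intS μ h0 hI s hs
  have hnn : 0 ≤ᵐ[μ] (fun x : ℝ => 1 - Real.exp (-(s*x))) := by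
    filter_upwards [hpos] with x hx
    have h1 : Real.exp (-(s*x)) ≤ 1 := by
      rw [Real.exp_le_one_iff]; nlinarith
    simp only [Pi.zero_apply]; linarith
  have hA : ∫⁻ x, ENNReal.ofReal (1 - Real.exp (-(s*x))) ∂μ = ENNReal.ofReal (∫ x, (1 - Real.exp (-(s*x))) ∂μ) :=
    (ofReal_integral_eq_lintegral_ofReal hS hnn).symm
  -- rewrite the right-hand side
  have hR : ∫⁻ t in Set.Ioi (0:ℝ), μ (Set.Ioi t) * ENNReal.ofReal (s * Real.exp (-(s*t))) =
      ∫⁻ t in Set.Ioi (0:ℝ), ENNReal.ofReal (s * (Real.exp (-(s*t)) * (μ (Set.Ioi t)).toReal)) := by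
    apply setLIntegral_congr_fun measurableSet_Ioi
    intro t ht
    simp only [Set.mem_Ioi] at ht
    have h1 : μ (Set.Ioi t) = ENNReal.ofReal ((μ (Set.Ioi t)).toReal) :=
      (ENNReal.ofReal_toReal (hfin t ht).ne).symm
    simp only []
    rw [show s * (Real.exp (-(s*t)) * (μ (Set.Ioi t)).toReal) =
      (μ (Set.Ioi t)).toReal * (s * Real.exp (-(s*t))) by ring,
      ENNReal.ofReal_mul ENNReal.toReal_nonneg, ← h1]
  have hmeasT : Measurable (fun t : ℝ => (μ (Set.Ioi t)).toReal) := by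
    apply Measurable.ennreal_toReal
    apply Antitone.measurable
    intro a b hab
    exact measure_mono (Set.Ioi_subset_Ioi hab)
  have hmeas : Measurable (fun t : ℝ => s * (Real.exp (-(s*t)) * (μ (Set.Ioi t)).toReal)) := by
    have : Measurable (fun t : ℝ => Real.exp (-(s*t))) := by fun_prop
    exact (this.mul hmeasT).const_mul s
  have hfinR : ∫⁻ t in Set.Ioi (0:ℝ), ENNReal.ofReal (s * (Real.exp (-(s*t)) * (μ (Set.Ioi t)).toReal)) ≠ ⊤ := by
    rw [← hR, ← key, hA]
    exact ENNReal.ofReal_ne_top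
  have hnn2 : 0 ≤ᵐ[volume.restrict (Set.Ioi (0:ℝ))] (fun t : ℝ => s * (Real.exp (-(s*t)) * (μ (Set.Ioi t)).toReal)) := by
    filter_upwards with t
    simp only [Pi.zero_apply]
    have : 0 ≤ (μ (Set.Ioi t)).toReal := ENNReal.toReal_nonneg
    positivity
  have hInt : IntegrableOn (fun t : ℝ => s * (Real.exp (-(s*t)) * (μ (Set.Ioi t)).toReal)) (Set.Ioi 0) :=
    (lintegral_ofReal_ne_top_iff_integrable hmeas.aestronglyMeasurable hnn2).mp hfinR
  have hInt2 : IntegrableOn (fun y : ℝ => Real.exp (-(s*y)) * (μ (Set.Ioi y)).toReal) (Set.Ioi 0) := by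
    have := hInt.const_mul (s⁻¹)
    refine this.congr ?_
    filter_upwards with t
    field_simp
  refine ⟨hInt2, ?_⟩
  have hB : ∫⁻ t in Set.Ioi (0:ℝ), ENNReal.ofReal (s * (Real.exp (-(s*t)) * (μ (Set.Ioi t)).toReal)) =
      ENNReal.ofReal (∫ t in Set.Ioi (0:ℝ), s * (Real.exp (-(s*t)) * (μ (Set.Ioi t)).toReal)) :=
    (ofReal_integral_eq_lintegral_ofReal hInt hnn2).symm
  rw [hR, hB, hA] at key
  have h1 : 0 ≤ ∫ x, (1 - Real.exp (-(s*x))) ∂μ := integral_nonneg_of_ae hnn
  have h2 : 0 ≤ ∫ t in Set.Ioi (0:ℝ), s * (Real.exp (-(s*t)) * (μ (Set.Ioi t)).toReal) :=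
    integral_nonneg_of_ae hnn2
  have h3 := (ENNReal.ofReal_eq_ofReal_iff h1 h2).mp key
  rw [h3, integral_const_mul]

end H868PF
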