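import Mathlib
import Pool.Agent.H868R2.PF.Defs

set_option autoImplicit false

open MeasureTheory Set

namespace H868PF

/-- the algebra of polynomial functions on the unit interval -/
noncomputable def t19_A : StarSubalgebra ℝ (BoundedContinuousFunction (Icc (0:ℝ) 1) ℝ) where
  carrier := {g | ∃ p : Polynomial ℝ, ∀ x : Icc (0:ℝ) 1, g x = p.eval (x : ℝ)}
  mul_mem' := by
    rintro a b ⟨p, hp⟩ ⟨q, hq⟩
    exact ⟨p * q, fun x => by
      rw [BoundedContinuousFunction.mul_apply, hp, hq, Polynomial.eval_mul]⟩
  add_mem' := by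
    rintro a b ⟨p, hp⟩ ⟨q, hq⟩
    exact ⟨p + q, fun x => by
      rw [BoundedContinuousFunction.add_apply, hp, hq, Polynomial.eval_add]⟩
  algebraMap_mem' := by
    intro r
    exact ⟨Polynomial.C r, fun x => by
      rw [Polynomial.eval_C]; rfl⟩
  star_mem' := by
    rintro a ⟨p, hp⟩
    exact ⟨p, fun x => by
      rw [BoundedContinuousFunction.star_apply, star_trivial, hp]⟩

theorem t19_sep : (t19_A.map (BoundedContinuousFunction.toContinuousMapStarₐ ℝ)).SeparatesPoints := by
  intro x y hxy
  refine ⟨fun z => (z : ℝ), ⟨⟨fun z => (z : ℝ), continuous_subtype_val⟩, ?_, rfl⟩, ?_⟩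
  · refine ⟨BoundedContinuousFunction.mkOfCompact ⟨fun z => (z : ℝ), continuous_subtype_val⟩,
      ⟨Polynomial.X, fun z => ?_⟩, ?_⟩
    · rw [Polynomial.eval_X]; rfl
    · ext z; rfl
  · intro h
    exact hxy (Subtype.ext h)

/-- the map to the unit interval -/
noncomputable def t19_phi (t : ℝ) : Icc (0:ℝ) 1 :=
  ⟨Real.exp (-|t|), (Real.exp_pos _).le, by
    rw [Real.exp_le_one_iff]; exact neg_nonpos.2 (abs_nonneg _)⟩

theorem t19_phi_cont : Continuous t19_phi := by
  unfold t19_phi
  exact Continuous.subtype_mk (by fun_prop) _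

theorem t19_meas {ν ν' : Measure ℝ} [IsFiniteMeasure ν] [IsFiniteMeasure ν']
    (h1 : ∀ᵐ t ∂ν, 0 < t) (h2 : ∀ᵐ t ∂ν', 0 < t)
    (h : ∀ p : Polynomial ℝ, ∫ t, p.eval (Real.exp (-|t|)) ∂ν = ∫ t, p.eval (Real.exp (-|t|)) ∂ν') :
    ν = ν' := by
  have hm := t19_phi_cont.measurable
  have h3 : ν.map t19_phi = ν'.map t19_phi := by
    refine ext_of_forall_mem_subalgebra_integral_eq_of_pseudoEMetric_complete_countable
      t19_sep ?_
    rintro g ⟨p, hp⟩
    rw [integral_map hm.aemeasurable g.continuous.aestronglyMeasurable,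
      integral_map hm.aemeasurable g.continuous.aestronglyMeasurable]
    simp only [hp]
    exact h p
  have hpsi : Measurable (fun x : Icc (0:ℝ) 1 => -Real.log (x : ℝ)) :=
    (Real.measurable_log.comp measurable_subtype_coe).neg
  have h4 : ∀ μ : Measure ℝ, (∀ᵐ t ∂μ, 0 < t) →
      (μ.map t19_phi).map (fun x : Icc (0:ℝ) 1 => -Real.log (x : ℝ)) = μ := by
    intro μ hμ
    rw [Measure.map_map hpsi hm]
    have h5 : (fun x : Icc (0:ℝ) 1 => -Real.log (x : ℝ)) ∘ t19_phi =ᵐ[μ] id := by
      filter_upwards [hμ] with t ht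
      show -Real.log (Real.exp (-|t|)) = t
      rw [Real.log_exp, abs_of_pos ht, neg_neg]
    rw [Measure.map_congr h5, Measure.map_id]
  rw [← h4 ν h1, h3, h4 ν' h2]

theorem t19 : S_V1b := by
  intro G hI h0
  set H : ℝ → ℝ := fun t => Real.exp (-t) * G t with hHdef
  have hH : IntegrableOn H (Ioi 0) := by
    have := hI 1 one_pos
    simpa only [one_mul] using this
  have hpow : ∀ (k : ℕ) (t : ℝ), Real.exp (-t) ^ k * H t =
      Real.exp (-(((k : ℝ) + 1) * t)) * G t := by
    intro k t
    rw [hHdef]
    show Real.exp (-t) ^ k * (Real.exp (-t) * G t) = _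
    rw [← Real.exp_nat_mul, ← mul_assoc, ← Real.exp_add]
    ring_nf
  have hkI : ∀ k : ℕ, IntegrableOn (fun t => Real.exp (-t) ^ k * H t) (Ioi 0) := by
    intro k
    simp only [hpow]
    exact hI _ (by positivity)
  have hk : ∀ k : ℕ, ∫ t in Ioi (0:ℝ), Real.exp (-t) ^ k * H t = 0 := by
    intro k
    simp only [hpow]
    exact h0 _ (by positivity)
  have hp : ∀ p : Polynomial ℝ, IntegrableOn (fun t => p.eval (Real.exp (-t)) * H t) (Ioi 0) ∧
      ∫ t in Ioi (0:ℝ), p.eval (Real.exp (-t)) * H t = 0 := by
    intro p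
    induction p using Polynomial.induction_on' with
    | add p q hp hq =>
      have e : (fun t => (p + q).eval (Real.exp (-t)) * H t) =
          fun t => p.eval (Real.exp (-t)) * H t + q.eval (Real.exp (-t)) * H t := by
        funext t
        rw [Polynomial.eval_add]; ring
      rw [e]
      refine ⟨hp.1.add hq.1, ?_⟩
      rw [integral_add hp.1 hq.1, hp.2, hq.2, add_zero]
    | monomial k a =>
      have e : (fun t => ((Polynomial.monomial k a).eval (Real.exp (-t))) * H t) =
          fun t => a * (Real.exp (-t) ^ k * H t) := by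
        funext t
        rw [Polynomial.eval_monomial]; ring
      rw [e]
      refine ⟨(hkI k).const_mul a, ?_⟩
      rw [integral_const_mul, hk k, mul_zero]
  -- the two measures
  have hHm : AEMeasurable H (volume.restrict (Ioi 0)) := hH.aemeasurable
  have f1 : IsFiniteMeasure ((volume.restrict (Ioi (0:ℝ))).withDensity
      (fun t => ENNReal.ofReal (H t))) := isFiniteMeasure_withDensity_ofReal hH.2
  have f2 : IsFiniteMeasure ((volume.restrict (Ioi (0:ℝ))).withDensity
      (fun t => ENNReal.ofReal (-H t))) := isFiniteMeasure_withDensity_ofReal hH.neg.2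
  have hpos : ∀ᵐ t ∂(volume.restrict (Ioi (0:ℝ))), 0 < t := by
    filter_upwards [ae_restrict_mem measurableSet_Ioi] with t ht using ht
  have hint : ∀ (K : ℝ → ℝ), AEMeasurable K (volume.restrict (Ioi 0)) → ∀ p : Polynomial ℝ,
      ∫ t, p.eval (Real.exp (-|t|)) ∂((volume.restrict (Ioi (0:ℝ))).withDensity
        (fun t => ENNReal.ofReal (K t))) =
      ∫ t in Ioi (0:ℝ), max (K t) 0 * p.eval (Real.exp (-t)) := by
    intro K hK p
    rw [integral_withDensity_eq_integral_toReal_smul₀ hK.ennreal_ofReal
      (Filter.Eventually.of_forall fun t => ENNReal.ofReal_lt_top)]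
    refine integral_congr_ae ?_
    filter_upwards [hpos] with t ht
    rw [ENNReal.toReal_ofReal', abs_of_pos ht, smul_eq_mul]
  have heq : (volume.restrict (Ioi (0:ℝ))).withDensity (fun t => ENNReal.ofReal (H t)) =
      (volume.restrict (Ioi (0:ℝ))).withDensity (fun t => ENNReal.ofReal (-H t)) := by
    refine t19_meas ((withDensity_absolutelyContinuous _ _).ae_le hpos)
      ((withDensity_absolutelyContinuous _ _).ae_le hpos) fun p => ?_
    rw [hint H hHm p, hint (fun t => -H t) hHm.neg p, ← sub_eq_zero]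
    obtain ⟨hp1, hp2⟩ := hp p
    have i1 : IntegrableOn (fun t => max (H t) 0 * p.eval (Real.exp (-t))) (Ioi 0) := by
      refine Integrable.mono hp1 ?_ ?_
      · exact ((hHm.max aemeasurable_const).mul (by fun_prop)).aestronglyMeasurable
      · refine Filter.Eventually.of_forall fun t => ?_
        rw [norm_mul, norm_mul, mul_comm]
        refine mul_le_mul_of_nonneg_left ?_ (norm_nonneg _)
        rw [Real.norm_eq_abs, Real.norm_eq_abs]
        rcases le_total (H t) 0 with h | h
        · rw [max_eq_right h, abs_zero]; exact abs_nonneg _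
        · rw [max_eq_left h]
    have i2 : IntegrableOn (fun t => max (-H t) 0 * p.eval (Real.exp (-t))) (Ioi 0) := by
      refine Integrable.mono hp1 ?_ ?_
      · exact ((hHm.neg.max aemeasurable_const).mul (by fun_prop)).aestronglyMeasurable
      · refine Filter.Eventually.of_forall fun t => ?_
        rw [norm_mul, norm_mul, mul_comm]
        refine mul_le_mul_of_nonneg_left ?_ (norm_nonneg _)
        rw [Real.norm_eq_abs, Real.norm_eq_abs]
        rcases le_total (-H t) 0 with h | h
        · rw [max_eq_right h, abs_zero]; exact abs_nonneg _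
        · rw [max_eq_left h, abs_neg]
    rw [← integral_sub i1 i2]
    refine Eq.trans ?_ hp2
    refine integral_congr_ae (Filter.Eventually.of_forall fun t => ?_)
    show max (H t) 0 * p.eval (Real.exp (-t)) - max (-H t) 0 * p.eval (Real.exp (-t)) =
      p.eval (Real.exp (-t)) * H t
    rcases le_total (H t) 0 with h | h
    · rw [max_eq_right h, max_eq_left (by linarith)]; ring
    · rw [max_eq_left h, max_eq_right (by linarith)]; ring
  have hae := (withDensity_eq_iff hHm.ennreal_ofReal hHm.neg.ennreal_ofReal (by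
    have := f1.measure_univ_lt_top
    rw [withDensity_apply _ MeasurableSet.univ, setLIntegral_univ] at this
    exact this.ne)).1 heq
  filter_upwards [hae] with t ht0
  have ht : ENNReal.ofReal (H t) = ENNReal.ofReal (-H t) := ht0
  have h1 : H t = 0 := by
    rcases lt_trichotomy (H t) 0 with h | h | h
    · exfalso
      have h2 : ENNReal.ofReal (H t) = 0 := ENNReal.ofReal_eq_zero.2 h.le
      have h3 : 0 < ENNReal.ofReal (-H t) := ENNReal.ofReal_pos.2 (by linarith)
      rw [← ht, h2] at h3
      exact lt_irrefl _ h3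
    · exact h
    · exfalso
      have h2 : ENNReal.ofReal (-H t) = 0 := ENNReal.ofReal_eq_zero.2 (by linarith)
      have h3 : 0 < ENNReal.ofReal (H t) := ENNReal.ofReal_pos.2 h
      rw [ht, h2] at h3
      exact lt_irrefl _ h3
  rw [hHdef] at h1
  exact (mul_eq_zero.1 h1).resolve_left (Real.exp_pos _).ne'

end H868PF
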