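import Mathlib
import Pool.Agent.H868R2.PF.Defs

set_option autoImplicit false

open MeasureTheory Finset Set

namespace H868PF

theorem t20 : S_V1c := by
  intro m p s hm hp
  set f : ℝ → ℝ := fun t => Real.exp (-(s*t)) * m t with hf
  set g : ℝ → ℝ := fun t => Real.exp (-(s*t)) * p t with hg
  have key : ∀ t : ℝ, (∫ x in (0:ℝ)..t, (ContinuousLinearMap.mul ℝ ℝ) (f x) (g (t - x))) =
      Real.exp (-(s*t)) * ∫ y in (0:ℝ)..t, m y * p (t-y) := by
    intro t
    rw [← intervalIntegral.integral_const_mul]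
    refine intervalIntegral.integral_congr (fun y _ => ?_)
    have e : Real.exp (-(s*t)) = Real.exp (-(s*y)) * Real.exp (-(s*(t-y))) := by
      rw [← Real.exp_add]; congr 1; ring
    simp only [hf, hg, ContinuousLinearMap.mul_apply']
    rw [e]; ring
  have h1 := integrable_posConvolution (μ := (volume : Measure ℝ)) (ν := (volume : Measure ℝ)) hm hp (ContinuousLinearMap.mul ℝ ℝ)
  have h2 := integral_posConvolution (μ := (volume : Measure ℝ)) (ν := (volume : Measure ℝ)) hm hp (ContinuousLinearMap.mul ℝ ℝ)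
  constructor
  · have h3 := h1.integrableOn (s := Ioi (0:ℝ))
    refine h3.congr_fun (fun t ht => ?_) measurableSet_Ioi
    rw [posConvolution, indicator_of_mem ht]
    exact key t
  · rw [← show ∫ t in Ioi (0:ℝ), (∫ x in (0:ℝ)..t, (ContinuousLinearMap.mul ℝ ℝ) (f x) (g (t - x))) = ∫ t in Set.Ioi (0:ℝ), Real.exp (-(s*t)) * (∫ y in (0:ℝ)..t, m y * p (t-y)) from setIntegral_congr_fun measurableSet_Ioi (fun t _ => key t)]
    rw [h2]
    rfl

end H868PF
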