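import Mathlib
import Pool.Agent.H868R2.PF.Defs

set_option autoImplicit false

open MeasureTheory Set

namespace H868PF

theorem t21 : S_V1d := by
  intro m p hm hp
  -- extension of p
  set P : ℝ → ℝ := fun x => p (max x 0) with hP
  have hPc : Continuous P := by
    have : ContinuousOn (fun x : ℝ => p (max x 0)) univ := by
      refine hp.comp (by fun_prop : Continuous fun x : ℝ => max x 0).continuousOn ?_
      intro x _
      exact (le_max_right x 0 : (0:ℝ) ≤ max x 0)
    exact continuousOn_univ.mp this
  intro t0 ht0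
  -- local bound
  set T : ℝ := t0 + 1 with hT
  have hT0 : 0 < T := by
    have : (0:ℝ) ≤ t0 := ht0
    linarith
  have hmT := hm T
  -- F t = ∫ y in Ioc 0 T, m y * P (t-y) - p 0 * ∫ y in Ioc t T, m y
  have hII : IntervalIntegrable m volume 0 T := by
    rw [intervalIntegrable_iff_integrableOn_Ioc_of_le hT0.le]; exact hmT
  obtain ⟨C, hC⟩ : ∃ C : ℝ, ∀ x ∈ Icc (-T) T, ‖P x‖ ≤ C := 
    isCompact_Icc.exists_bound_of_continuousOn hPc.continuousOn
  have hcont1 : ContinuousOn (fun t : ℝ => ∫ y in Ioc (0:ℝ) T, m y * P (t - y)) (Icc 0 T) := by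
    refine continuousOn_of_dominated (bound := fun y => |m y| * C) ?_ ?_ ?_ ?_
    · intro t _
      exact hmT.aestronglyMeasurable.mul
        ((hPc.comp (by fun_prop : Continuous fun y : ℝ => t - y)).aestronglyMeasurable)
    · intro t ht
      refine (ae_restrict_iff' measurableSet_Ioc).2 (Filter.Eventually.of_forall (fun y hy => ?_))
      rw [norm_mul]
      refine mul_le_mul_of_nonneg_left (hC _ ?_) (norm_nonneg _)
      constructor
      · linarith [ht.1, hy.2]
      · linarith [ht.2, hy.1]
    · exact hmT.norm.mul_const C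
    · refine Filter.Eventually.of_forall (fun y => ?_)
      have : Continuous fun t : ℝ => m y * P (t - y) := by fun_prop
      exact this.continuousOn
  have hcont2 : ContinuousOn (fun t : ℝ => ∫ y in (0:ℝ)..t, m y) (Icc 0 T) := by
    have := intervalIntegral.continuousOn_primitive_interval (μ := (volume : Measure ℝ)) (f := m) (a := 0) (b := T) (by
      rw [uIcc_of_le hT0.le]
      exact (integrableOn_Icc_iff_integrableOn_Ioc).2 hmT)
    rwa [uIcc_of_le hT0.le] at this
  have hF : ∀ t ∈ Icc (0:ℝ) T, (∫ y in (0:ℝ)..t, m y * p (t-y)) =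
      (∫ y in Ioc (0:ℝ) T, m y * P (t - y)) - p 0 * ((∫ y in (0:ℝ)..T, m y) - ∫ y in (0:ℝ)..t, m y) := by
    intro t ht
    have hI : IntervalIntegrable (fun y => m y * P (t - y)) volume 0 T :=
      hII.mul_continuousOn (by fun_prop)
    have hI1 : IntervalIntegrable (fun y => m y * P (t - y)) volume 0 t :=
      hI.mono_set (by rw [uIcc_of_le ht.1, uIcc_of_le hT0.le]; exact Icc_subset_Icc le_rfl ht.2)
    have hI2 : IntervalIntegrable (fun y => m y * P (t - y)) volume t T :=
      hI.mono_set (by rw [uIcc_of_le ht.2, uIcc_of_le hT0.le]; exact Icc_subset_Icc ht.1 le_rfl)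
    have hm1 : IntervalIntegrable m volume 0 t :=
      hII.mono_set (by rw [uIcc_of_le ht.1, uIcc_of_le hT0.le]; exact Icc_subset_Icc le_rfl ht.2)
    have hm2 : IntervalIntegrable m volume t T :=
      hII.mono_set (by rw [uIcc_of_le ht.2, uIcc_of_le hT0.le]; exact Icc_subset_Icc ht.1 le_rfl)
    rw [← intervalIntegral.integral_of_le hT0.le,
      ← intervalIntegral.integral_add_adjacent_intervals hI1 hI2,
      ← intervalIntegral.integral_add_adjacent_intervals hm1 hm2]
    have e1 : (∫ y in (0:ℝ)..t, m y * P (t - y)) = ∫ y in (0:ℝ)..t, m y * p (t-y) := by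
      refine intervalIntegral.integral_congr (fun y hy => ?_)
      rw [uIcc_of_le ht.1] at hy
      simp only [hP]
      rw [max_eq_left (by linarith [hy.2])]
    have e2 : (∫ y in t..T, m y * P (t - y)) = p 0 * ∫ y in t..T, m y := by
      rw [← intervalIntegral.integral_const_mul]
      refine intervalIntegral.integral_congr (fun y hy => ?_)
      rw [uIcc_of_le ht.2] at hy
      simp only [hP]
      rw [max_eq_right (by linarith [hy.1])]
      ring
    rw [e1, e2]
    ring
  have hcF : ContinuousOn (fun t : ℝ => ∫ y in (0:ℝ)..t, m y * p (t-y)) (Icc 0 T) := by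
    refine ContinuousOn.congr ?_ hF
    exact hcont1.sub (continuousOn_const.mul (continuousOn_const.sub hcont2))
  have h1 := hcF t0 ⟨ht0, by linarith⟩
  refine h1.mono_of_mem_nhdsWithin ?_
  have : Icc (0:ℝ) T = Ici 0 ∩ Iic T := rfl
  rw [this]
  refine Filter.inter_mem self_mem_nhdsWithin (mem_nhdsWithin_of_mem_nhds (Iic_mem_nhds (by linarith)))

end H868PF
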