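import Mathlib
import Pool.Agent.H868R2.PF.Defs

set_option autoImplicit false

open MeasureTheory Finset

namespace H868PF

theorem t22_exp_int (s : ℝ) (hs : 0 < s) :
    IntegrableOn (fun t : ℝ => Real.exp (-(s*t))) (Set.Ioi 0) := by
  have h := integrableOn_exp_mul_Ioi (a := -s) (by linarith) 0
  refine h.congr_fun ?_ measurableSet_Ioi
  intro t _
  simp only
  congr 1; ring

theorem t22_exp_val (s : ℝ) (hs : 0 < s) :
    ∫ t in Set.Ioi (0:ℝ), Real.exp (-(s*t)) = 1 / s := by
  have h := integral_exp_mul_Ioi (a := -s) (by linarith) 0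
  have h2 : ∫ t in Set.Ioi (0:ℝ), Real.exp (-(s*t)) = ∫ t in Set.Ioi (0:ℝ), Real.exp (-s*t) := by
    congr 1; ext t; congr 1; ring
  rw [h2, h]
  simp

theorem t22 (ha : S_V1a) (hb : S_V1b) (hc : S_V1c) (hd : S_V1d) : S_V1 := by
  intro p hp
  obtain ⟨hcont, μ, hμ0, hint, a, ha0, hLap⟩ := hp
  obtain ⟨hfin, htail⟩ := ha μ hμ0 hint
  set m : ℝ → ℝ := fun y => a + (μ (Set.Ioi y)).toReal with hm
  have hmnn : ∀ y, 0 < y → 0 ≤ m y := by
    intro y _
    simp only [hm]
    positivity
  have hanti : AntitoneOn m (Set.Ioi 0) := by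
    intro x hx y hy hxy
    simp only [hm]
    have h1 : μ (Set.Ioi y) ≤ μ (Set.Ioi x) := measure_mono (Set.Ioi_subset_Ioi hxy)
    have h2 := ENNReal.toReal_mono (hfin x hx).ne h1
    linarith
  have hexp_int := t22_exp_int
  have hexp_val := t22_exp_val
  have hmint : ∀ s : ℝ, 0 < s →
      IntegrableOn (fun t : ℝ => Real.exp (-(s*t)) * m t) (Set.Ioi 0) := by
    intro s hs
    have h1 : IntegrableOn (fun t : ℝ => Real.exp (-(s*t)) * a) (Set.Ioi 0) :=
      (hexp_int s hs).mul_const a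
    have h2 := (htail s hs).1
    have h3 : IntegrableOn (fun t : ℝ => Real.exp (-(s*t)) * a +
        Real.exp (-(s*t)) * (μ (Set.Ioi t)).toReal) (Set.Ioi 0) := h1.add h2
    refine h3.congr_fun ?_ measurableSet_Ioi
    intro t _
    simp only [hm]
    ring
  have hmval : ∀ s : ℝ, 0 < s →
      s * ∫ t in Set.Ioi (0:ℝ), Real.exp (-(s*t)) * m t =
        a + ∫ x, (1 - Real.exp (-(s * x))) ∂μ := by
    intro s hs
    have h1 := (hexp_int s hs).mul_const a
    have h2 := (htail s hs).1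
    have h3 : ∫ t in Set.Ioi (0:ℝ), Real.exp (-(s*t)) * m t =
        (∫ t in Set.Ioi (0:ℝ), Real.exp (-(s*t)) * a) +
          ∫ y in Set.Ioi (0:ℝ), Real.exp (-(s*y)) * (μ (Set.Ioi y)).toReal := by
      rw [← integral_add h1 h2]
      congr 1; ext t; simp only [hm]; ring
    rw [h3, (htail s hs).2, mul_add, integral_mul_const, hexp_val s hs]
    field_simp
  have hpint : ∀ s : ℝ, 0 < s →
      IntegrableOn (fun t : ℝ => Real.exp (-(s*t)) * p t) (Set.Ioi 0) := by
    intro s hs
    by_contra hcon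
    have h1 := hLap s hs
    have h2 : ∫ t in Set.Ioi (0:ℝ), Real.exp (-(s * t)) * p t = 0 := integral_undef hcon
    rw [h2, zero_mul] at h1
    exact zero_ne_one h1
  have hmloc : ∀ T : ℝ, IntegrableOn m (Set.Ioc 0 T) := by
    intro T
    have h1 : IntegrableOn (fun t : ℝ => Real.exp (-(1*t)) * m t) (Set.Ioc 0 T) :=
      (hmint 1 one_pos).mono_set (fun x hx => hx.1)
    have h2 := h1.const_mul (Real.exp T)
    refine Integrable.mono' h2 ?_ ?_
    · exact (aemeasurable_restrict_of_antitoneOn measurableSet_Ioc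
        (hanti.mono (fun x hx => hx.1))).aestronglyMeasurable
    · refine (ae_restrict_iff' measurableSet_Ioc).2 (Filter.Eventually.of_forall ?_)
      intro y hy
      rw [Real.norm_eq_abs, abs_of_nonneg (hmnn y hy.1), ← mul_assoc, ← Real.exp_add]
      have h3 : (1:ℝ) ≤ Real.exp (T + -(1*y)) := Real.one_le_exp (by linarith [hy.2])
      nlinarith [hmnn y hy.1]
  have hconv_cont := hd m p hmloc hcont
  set G : ℝ → ℝ := fun t => 1 - p t - ∫ y in (0:ℝ)..t, m y * p (t-y) with hG
  have hGcont : ContinuousOn G (Set.Ici 0) := (continuousOn_const.sub hcont).sub hconv_cont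
  have hGint : ∀ s : ℝ, 0 < s →
      IntegrableOn (fun t : ℝ => Real.exp (-(s*t)) * G t) (Set.Ioi 0) := by
    intro s hs
    have h1 := ((hexp_int s hs).sub (hpint s hs)).sub (hc m p s (hmint s hs) (hpint s hs)).1
    refine h1.congr_fun ?_ measurableSet_Ioi
    intro t _
    simp only [hG, Pi.sub_apply]
    ring
  have hGval : ∀ s : ℝ, 0 < s →
      ∫ t in Set.Ioi (0:ℝ), Real.exp (-(s*t)) * G t = 0 := by
    intro s hs
    have e1 := hexp_int s hs
    have e2 := hpint s hs
    obtain ⟨e3, e4⟩ := hc m p s (hmint s hs) (hpint s hs)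
    have h1 : ∫ t in Set.Ioi (0:ℝ), Real.exp (-(s*t)) * G t =
        (∫ t in Set.Ioi (0:ℝ), Real.exp (-(s*t))) - (∫ t in Set.Ioi (0:ℝ), Real.exp (-(s*t)) * p t)
        - ∫ t in Set.Ioi (0:ℝ), Real.exp (-(s*t)) * (∫ y in (0:ℝ)..t, m y * p (t-y)) := by
      have e12 : IntegrableOn (fun t : ℝ => Real.exp (-(s*t)) - Real.exp (-(s*t)) * p t)
        (Set.Ioi 0) := e1.sub e2
      rw [← integral_sub e1 e2, ← integral_sub e12 e3]
      congr 1; ext t; simp only [hG]; ring
    rw [h1, e4, hexp_val s hs]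
    have h2 := hLap s hs
    have h3 := hmval s hs
    set M := ∫ t in Set.Ioi (0:ℝ), Real.exp (-(s*t)) * m t with hM
    set P := ∫ t in Set.Ioi (0:ℝ), Real.exp (-(s*t)) * p t with hP
    have h4 : P * (s + s * M) = 1 := by
      rw [h3, ← add_assoc]
      exact h2
    have h5 : 1 / s = P * (1 + M) := by
      field_simp
      linarith
    rw [h5]; ring
  have hae := hb G hGint hGval
  have hEq : Set.EqOn G (fun _ => (0:ℝ)) (Set.Ioi 0) := by
    refine MeasureTheory.Measure.eqOn_open_of_ae_eq (μ := volume) ?_ isOpen_Ioi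
      (hGcont.mono Set.Ioi_subset_Ici_self) continuousOn_const
    exact hae
  have hG0 : G 0 = 0 := by
    have h1 : Filter.Tendsto G (nhdsWithin 0 (Set.Ioi 0)) (nhds (G 0)) :=
      (hGcont 0 (by simp)).mono_left (nhdsWithin_mono _ Set.Ioi_subset_Ici_self)
    have h2 : Filter.Tendsto G (nhdsWithin 0 (Set.Ioi 0)) (nhds 0) := by
      refine Filter.Tendsto.congr' ?_ tendsto_const_nhds
      filter_upwards [self_mem_nhdsWithin] with t ht
      exact (hEq ht).symm
    exact tendsto_nhds_unique h1 h2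
  refine ⟨m, hmnn, hanti, hmloc 1, ?_⟩
  intro t ht
  have h1 : G t = 0 := by
    rcases eq_or_lt_of_le ht.1 with h | h
    · rw [← h]; exact hG0
    · exact hEq h
  simp only [hG] at h1
  linarith

end H868PF
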