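import Mathlib
import Pool.Agent.H868R2.PF.Defs

set_option autoImplicit false

open MeasureTheory Finset

namespace H868PF

private theorem t23_int {m : ℝ → ℝ} (hm : IntegrableOn m (Set.Ioc 0 1)) {a b : ℝ} (ha : 0 ≤ a)
    (hab : a ≤ b) (hb : b ≤ 1) : IntervalIntegrable m volume a b := by
  rw [intervalIntegrable_iff_integrableOn_Ioc_of_le hab]
  exact hm.mono_set (Set.Ioc_subset_Ioc ha hb)

theorem t23 : S_V2a := by
  intro m p hm0 hanti hint hp ε hε
  -- bound of p
  obtain ⟨C, hC⟩ : ∃ C : ℝ, ∀ x ∈ Set.Icc (0:ℝ) 1, |p x| ≤ C := by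
    obtain ⟨C, hC⟩ := isCompact_Icc.exists_bound_of_continuousOn hp
    exact ⟨C, fun x hx => hC x hx⟩
  have hC0 : 0 ≤ C := (abs_nonneg _).trans (hC 0 ⟨le_refl _, zero_le_one⟩)
  set I0 : ℝ := ∫ y in (0:ℝ)..1, m y with hI0
  have hI0nn : 0 ≤ I0 := by
    rw [hI0, intervalIntegral.integral_of_le zero_le_one]
    exact setIntegral_nonneg measurableSet_Ioc (fun y hy => hm0 y hy.1)
  -- modulus of continuity
  obtain ⟨δ₁, hδ₁, hω⟩ : ∃ δ > 0, ∀ x ∈ Set.Icc (0:ℝ) 1, ∀ y ∈ Set.Icc (0:ℝ) 1, |x - y| < δ →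
      |p x - p y| < ε / (2 * (I0 + 1)) := by
    have huc := isCompact_Icc.uniformContinuousOn_of_continuous hp
    rw [Metric.uniformContinuousOn_iff] at huc
    obtain ⟨δ, hδ, h⟩ := huc (ε / (2 * (I0 + 1))) (by positivity)
    exact ⟨δ, hδ, fun x hx y hy hxy => h x hx y hy hxy⟩
  -- smallness of the integral near 0
  obtain ⟨δ₂, hδ₂, hF⟩ : ∃ δ > 0, ∀ x ∈ Set.Icc (0:ℝ) 1, x < δ →
      |∫ y in (0:ℝ)..x, m y| < ε / (2 * (C + 1)) := by
    have hcont : ContinuousOn (fun x => ∫ y in (0:ℝ)..x, m y) (Set.Icc 0 1) := by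
      have h1 : IntegrableOn m (Set.uIcc 0 1) := by
        rw [Set.uIcc_of_le zero_le_one, integrableOn_Icc_iff_integrableOn_Ioc]
        exact hint
      have := intervalIntegral.continuousOn_primitive_interval h1
      rwa [Set.uIcc_of_le zero_le_one] at this
    have h0 := hcont 0 ⟨le_refl _, zero_le_one⟩
    rw [Metric.continuousWithinAt_iff] at h0
    obtain ⟨δ, hδ, h⟩ := h0 (ε / (2 * (C + 1))) (by positivity)
    refine ⟨δ, hδ, fun x hx hxδ => ?_⟩
    have h1 := h hx (by rw [Real.dist_eq, sub_zero, abs_of_nonneg hx.1]; exact hxδ)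
    rw [Real.dist_eq, intervalIntegral.integral_same, sub_zero] at h1
    exact h1
  obtain ⟨N₀, hN₀⟩ := exists_nat_gt (1 / min δ₁ δ₂)
  refine ⟨N₀, fun N hN hNpos n hn => ?_⟩
  have hNr : (0:ℝ) < N := by exact_mod_cast hNpos
  have hmin : 0 < min δ₁ δ₂ := lt_min hδ₁ hδ₂
  have hh : 1 / (N:ℝ) < min δ₁ δ₂ := by
    have h1 : 1 / min δ₁ δ₂ < N := lt_of_lt_of_le hN₀ (by exact_mod_cast hN)
    rw [div_lt_iff₀ hmin] at h1
    rw [div_lt_iff₀ hNr]
    linarith
  have hh1 : 1 / (N:ℝ) < δ₁ := lt_of_lt_of_le hh (min_le_left _ _)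
  have hh2 : 1 / (N:ℝ) < δ₂ := lt_of_lt_of_le hh (min_le_right _ _)
  have hhpos : 0 < 1 / (N:ℝ) := by positivity
  rcases Nat.eq_zero_or_pos n with hn0 | hn0
  · subst hn0
    simp [hε.le]
  set a : ℕ → ℝ := fun k => (k:ℝ) / N with ha
  have ha0 : a 0 = 0 := by simp [ha]
  have hastep : ∀ k, a (k+1) - a k = 1 / (N:ℝ) := by
    intro k; simp only [ha]; push_cast; ring
  have hann : ∀ k, 0 ≤ a k := by intro k; simp only [ha]; positivity
  have hale : ∀ k, k ≤ N → a k ≤ 1 := by
    intro k hk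
    simp only [ha]
    rw [div_le_one hNr]; exact_mod_cast hk
  have hamono : ∀ k, a k ≤ a (k+1) := by
    intro k; have := hastep k; linarith
  have hapos : ∀ k, 0 < a (k+1) := by
    intro k; simp only [ha]; positivity
  have haj : ∀ j : ℕ, ((j:ℝ)+1)/N = a (j+1) := by
    intro j; simp only [ha]; push_cast; ring
  have hamono' : ∀ j k, j ≤ k → a j ≤ a k := by
    intro j k hjk
    simp only [ha]
    exact div_le_div_of_nonneg_right (by exact_mod_cast hjk) hNr.le
  have han : (n:ℝ)/N = a n := rfl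
  have hsub : ∀ j, j < n → (((n - (j+1) : ℕ) : ℝ)/N) = a n - a (j+1) := by
    intro j hj
    simp only [ha]
    rw [Nat.cast_sub (by omega)]
    ring
  -- integrability
  have hII : ∀ j, j < n → IntervalIntegrable m volume (a j) (a (j+1)) := fun j hj =>
    t23_int hint (hann j) (hamono j) (hale _ (by omega))
  have hpc : ∀ j, j < n → ContinuousOn (fun y => p (a n - y)) (Set.uIcc (a j) (a (j+1))) := by
    intro j hj
    rw [Set.uIcc_of_le (hamono j)]
    refine hp.comp (by fun_prop) ?_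
    intro y hy
    have h1 : a (j+1) ≤ a n := hamono' _ _ hj
    have h2 := hann j
    have h3 := hale n hn
    exact ⟨by linarith [hy.2], by linarith [hy.1]⟩
  have hIIp : ∀ j, j < n → IntervalIntegrable (fun y => m y * p (a n - y)) volume (a j) (a (j+1)) :=
    fun j hj => (hII j hj).mul_continuousOn (hpc j hj)
  -- each interval
  have hstep : ∀ j, j < n →
      |(∫ y in (a j)..(a (j+1)), m y * p (a n - y)) - (1/(N:ℝ)) * m (a (j+1)) * p (a n - a (j+1))|
        ≤ C * ((∫ y in (a j)..(a (j+1)), m y) - (1/(N:ℝ)) * m (a (j+1)))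
          + (ε / (2 * (I0 + 1))) * ∫ y in (a j)..(a (j+1)), m y := by
    intro j hj
    have hjn : a (j+1) ≤ a n := hamono' _ _ hj
    have h3 := hale n hn
    have h4 := hann j
    have hc1 : (∫ _y in (a j)..(a (j+1)), m (a (j+1)) * p (a n - a (j+1)))
        = (1/(N:ℝ)) * m (a (j+1)) * p (a n - a (j+1)) := by
      rw [intervalIntegral.integral_const, hastep, smul_eq_mul]; ring
    have hc2 : (∫ _y in (a j)..(a (j+1)), m (a (j+1))) = (1/(N:ℝ)) * m (a (j+1)) := by
      rw [intervalIntegral.integral_const, hastep, smul_eq_mul]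
    rw [← hc1, ← hc2, ← intervalIntegral.integral_sub (hIIp j hj) intervalIntegrable_const,
      ← intervalIntegral.integral_sub (hII j hj) intervalIntegrable_const,
      ← intervalIntegral.integral_const_mul, ← intervalIntegral.integral_const_mul,
      ← intervalIntegral.integral_add
        (((hII j hj).sub intervalIntegrable_const).const_mul C) ((hII j hj).const_mul _)]
    have hnorm := intervalIntegral.norm_integral_le_of_norm_le (μ := volume)
      (f := fun y => m y * p (a n - y) - m (a (j+1)) * p (a n - a (j+1)))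
      (g := fun y => C * (m y - m (a (j+1))) + ε / (2 * (I0 + 1)) * m y) (hamono j) ?_ ?_
    · exact hnorm
    · refine Filter.Eventually.of_forall (fun y hy => ?_)
      have hy0 : 0 < y := lt_of_le_of_lt h4 hy.1
      have hm1 : m (a (j+1)) ≤ m y := hanti hy0 (hapos j) hy.2
      have hm2 : 0 ≤ m (a (j+1)) := hm0 _ (hapos j)
      have hpy : |p (a n - y)| ≤ C := hC _ ⟨by linarith [hy.2], by linarith [hy.1]⟩
      have hpd : |p (a n - y) - p (a n - a (j+1))| ≤ ε / (2 * (I0 + 1)) := by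
        refine (hω _ ⟨by linarith [hy.2], by linarith [hy.1]⟩ _
          ⟨by linarith, by linarith [hapos j]⟩ ?_).le
        have e1 : a n - y - (a n - a (j+1)) = a (j+1) - y := by ring
        rw [e1, abs_of_nonneg (by linarith [hy.2])]
        have := hastep j
        linarith [hy.1]
      rw [Real.norm_eq_abs]
      have e2 : m y * p (a n - y) - m (a (j+1)) * p (a n - a (j+1))
          = (m y - m (a (j+1))) * p (a n - y)
            + m (a (j+1)) * (p (a n - y) - p (a n - a (j+1))) := by ring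
      rw [e2]
      refine (abs_add_le _ _).trans ?_
      rw [abs_mul, abs_mul, abs_of_nonneg (sub_nonneg.mpr hm1), abs_of_nonneg hm2]
      have f1 : (m y - m (a (j+1))) * |p (a n - y)| ≤ (m y - m (a (j+1))) * C :=
        mul_le_mul_of_nonneg_left hpy (sub_nonneg.mpr hm1)
      have f2 : m (a (j+1)) * |p (a n - y) - p (a n - a (j+1))| ≤ m y * (ε / (2 * (I0 + 1))) :=
        mul_le_mul hm1 hpd (abs_nonneg _) (hm2.trans hm1)
      linarith
    · exact (((hII j hj).sub intervalIntegrable_const).const_mul C).add ((hII j hj).const_mul _)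
  -- sum of the intervals
  have hsum1 : (∫ y in (0:ℝ)..(a n), m y * p (a n - y))
      = ∑ j ∈ range n, ∫ y in (a j)..(a (j+1)), m y * p (a n - y) := by
    rw [intervalIntegral.sum_integral_adjacent_intervals hIIp, ha0]
  have hsum2 : (∫ y in (0:ℝ)..(a n), m y) = ∑ j ∈ range n, ∫ y in (a j)..(a (j+1)), m y := by
    rw [intervalIntegral.sum_integral_adjacent_intervals hII, ha0]
  have hgoal : (∫ y in (0:ℝ)..((n:ℝ)/N), m y * p ((n:ℝ)/N - y)) -
      ∑ j ∈ range n, (1/(N:ℝ)) * m (((j:ℝ)+1)/N) * p (((n - (j+1) : ℕ) : ℝ)/N)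
      = ∑ j ∈ range n, ((∫ y in (a j)..(a (j+1)), m y * p (a n - y))
        - (1/(N:ℝ)) * m (a (j+1)) * p (a n - a (j+1))) := by
    rw [han, hsum1, ← Finset.sum_sub_distrib]
    refine Finset.sum_congr rfl (fun j hj => ?_)
    rw [haj, hsub j (Finset.mem_range.mp hj)]
  rw [hgoal]
  have hb1 := (Finset.abs_sum_le_sum_abs _ _).trans
    (Finset.sum_le_sum (fun j hj => hstep j (Finset.mem_range.mp hj)))
  refine hb1.trans ?_
  rw [Finset.sum_add_distrib, ← Finset.mul_sum, ← Finset.mul_sum, ← hsum2,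
    Finset.sum_sub_distrib, ← hsum2]
  -- lower bound for the Riemann sum
  obtain ⟨k, hk⟩ : ∃ k, n = k + 1 := ⟨n - 1, by omega⟩
  have hlow : (∫ y in (a 1)..(a n), m y) ≤ ∑ j ∈ range n, (1/(N:ℝ)) * m (a (j+1)) := by
    have h1 : ∀ j, j < k → IntervalIntegrable m volume (a (j+1)) (a (j+1+1)) := fun j hj =>
      hII (j+1) (by omega)
    have h2 : (∑ j ∈ range k, ∫ y in (a (j+1))..(a (j+1+1)), m y) = ∫ y in (a 1)..(a n), m y := by
      have := intervalIntegral.sum_integral_adjacent_intervals (a := fun j => a (j+1)) h1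
      rw [this, hk]
    rw [← h2, hk, Finset.sum_range_succ]
    have h3 : ∑ j ∈ range k, (∫ y in (a (j+1))..(a (j+1+1)), m y)
        ≤ ∑ j ∈ range k, (1/(N:ℝ)) * m (a (j+1)) := by
      refine Finset.sum_le_sum (fun j hj => ?_)
      have hjk := Finset.mem_range.mp hj
      have h4 : (∫ y in (a (j+1))..(a (j+1+1)), m y) ≤ ∫ _y in (a (j+1))..(a (j+1+1)), m (a (j+1)) := by
        refine intervalIntegral.integral_mono_on (hamono (j+1)) (h1 j hjk)
          intervalIntegrable_const (fun y hy => ?_)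
        exact hanti (hapos j) (lt_of_lt_of_le (hapos j) hy.1) hy.1
      rw [intervalIntegral.integral_const, hastep, smul_eq_mul] at h4
      exact h4
    have h5 : 0 ≤ (1/(N:ℝ)) * m (a (k+1)) := mul_nonneg hhpos.le (hm0 _ (hapos k))
    linarith
  have hsplit : (∫ y in (0:ℝ)..(a 1), m y) + ∫ y in (a 1)..(a n), m y = ∫ y in (0:ℝ)..(a n), m y := by
    apply intervalIntegral.integral_add_adjacent_intervals
    · exact t23_int hint le_rfl (hapos 0).le (hale 1 (by omega))
    · exact t23_int hint (hapos 0).le (hamono' 1 n hn0) (hale n hn)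
  have hfirst : |∫ y in (0:ℝ)..(a 1), m y| < ε / (2 * (C + 1)) := by
    apply hF _ ⟨(hapos 0).le, hale 1 (by omega)⟩
    have : a 1 = 1 / (N:ℝ) := by simp [ha]
    rw [this]; exact hh2
  have htot : (∫ y in (0:ℝ)..(a n), m y) ≤ I0 := by
    have h1 : (∫ y in (0:ℝ)..(a n), m y) + ∫ y in (a n)..1, m y = I0 := by
      apply intervalIntegral.integral_add_adjacent_intervals
      · exact t23_int hint le_rfl (hann n) (hale n hn)
      · exact t23_int hint (hann n) (hale n hn) le_rfl
    have h2 : 0 ≤ ∫ y in (a n)..1, m y := by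
      rw [intervalIntegral.integral_of_le (hale n hn)]
      exact setIntegral_nonneg measurableSet_Ioc (fun y hy =>
        hm0 y (lt_of_le_of_lt (hann n) hy.1))
    linarith
  have hA : C * ((∫ y in (0:ℝ)..(a n), m y) - ∑ j ∈ range n, (1/(N:ℝ)) * m (a (j+1))) ≤ ε / 2 := by
    have h1 : (∫ y in (0:ℝ)..(a n), m y) - ∑ j ∈ range n, (1/(N:ℝ)) * m (a (j+1))
        ≤ ε / (2 * (C + 1)) := by
      have := (abs_lt.mp hfirst).2
      linarith
    calc C * ((∫ y in (0:ℝ)..(a n), m y) - ∑ j ∈ range n, (1/(N:ℝ)) * m (a (j+1)))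
        ≤ C * (ε / (2 * (C + 1))) := mul_le_mul_of_nonneg_left h1 hC0
      _ ≤ (C + 1) * (ε / (2 * (C + 1))) :=
          mul_le_mul_of_nonneg_right (by linarith) (by positivity)
      _ = ε / 2 := by field_simp
  have hB : ε / (2 * (I0 + 1)) * (∫ y in (0:ℝ)..(a n), m y) ≤ ε / 2 := by
    calc ε / (2 * (I0 + 1)) * (∫ y in (0:ℝ)..(a n), m y)
        ≤ ε / (2 * (I0 + 1)) * (I0 + 1) :=
          mul_le_mul_of_nonneg_left (by linarith) (by positivity)
      _ = ε / 2 := by field_simp
  linarith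

end H868PF
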