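import Mathlib
import Pool.Agent.H868R2.PF.Defs

set_option autoImplicit false

open MeasureTheory Finset

namespace H868PF

theorem t24_int (m : ℝ → ℝ) (hint : IntegrableOn m (Set.Ioc 0 1)) (lam : ℝ) (hl : 0 ≤ lam) :
    IntegrableOn (fun y => m y * Real.exp (-(lam * y))) (Set.Ioc 0 1) := by
  refine Integrable.mono hint ?_ ?_
  · refine hint.aestronglyMeasurable.mul ?_
    exact (by fun_prop : Continuous fun y : ℝ => Real.exp (-(lam * y))).aestronglyMeasurable
  · refine (ae_restrict_iff' measurableSet_Ioc).2 (Filter.Eventually.of_forall fun y hy => ?_)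
    rw [norm_mul]
    have h1 : ‖Real.exp (-(lam * y))‖ ≤ 1 := by
      rw [Real.norm_eq_abs, abs_of_pos (Real.exp_pos _)]
      apply Real.exp_le_one_iff.2
      have := mul_nonneg hl hy.1.le
      linarith
    calc ‖m y‖ * ‖Real.exp (-(lam * y))‖ ≤ ‖m y‖ * 1 :=
          mul_le_mul_of_nonneg_left h1 (norm_nonneg _)
      _ = ‖m y‖ := mul_one _

theorem t24_lim (m : ℝ → ℝ) (hint : IntegrableOn m (Set.Ioc 0 1)) :
    Filter.Tendsto (fun k : ℕ => ∫ y in Set.Ioc (0:ℝ) 1, m y * Real.exp (-((k:ℝ) * y)))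
      Filter.atTop (nhds 0) := by
  have h0 : (0:ℝ) = ∫ _y in Set.Ioc (0:ℝ) 1, (0:ℝ) := by simp
  suffices key : Filter.Tendsto
      (fun k : ℕ => ∫ y in Set.Ioc (0:ℝ) 1, m y * Real.exp (-((k:ℝ) * y)))
      Filter.atTop (nhds (∫ _y in Set.Ioc (0:ℝ) 1, (0:ℝ))) by
    rw [← h0] at key
    exact key
  refine tendsto_integral_of_dominated_convergence (fun y => ‖m y‖) ?_ hint.norm ?_ ?_
  · intro k
    exact (t24_int m hint k (Nat.cast_nonneg k)).aestronglyMeasurable
  · intro k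
    refine (ae_restrict_iff' measurableSet_Ioc).2 (Filter.Eventually.of_forall fun y hy => ?_)
    rw [norm_mul]
    have h1 : ‖Real.exp (-((k:ℝ) * y))‖ ≤ 1 := by
      rw [Real.norm_eq_abs, abs_of_pos (Real.exp_pos _)]
      apply Real.exp_le_one_iff.2
      have := mul_nonneg (Nat.cast_nonneg (α := ℝ) k) hy.1.le
      linarith
    calc ‖m y‖ * ‖Real.exp (-((k:ℝ) * y))‖ ≤ ‖m y‖ * 1 :=
          mul_le_mul_of_nonneg_left h1 (norm_nonneg _)
      _ = ‖m y‖ := mul_one _
  · refine (ae_restrict_iff' measurableSet_Ioc).2 (Filter.Eventually.of_forall fun y hy => ?_)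
    have h1 : Filter.Tendsto (fun k : ℕ => (k:ℝ) * y) Filter.atTop Filter.atTop :=
      tendsto_natCast_atTop_atTop.atTop_mul_const hy.1
    have h2 := Real.tendsto_exp_neg_atTop_nhds_zero.comp h1
    have h3 := h2.const_mul (m y)
    rw [mul_zero] at h3
    exact h3

theorem t24 : S_V2b := by
  intro m hpos hanti hint
  obtain ⟨K, hK⟩ := Filter.eventually_atTop.1
    ((t24_lim m hint).eventually (gt_mem_nhds (by norm_num : (0:ℝ) < 1/2)))
  set lam : ℝ := ((K + 1 : ℕ) : ℝ) with hlam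
  have hlpos : 0 < lam := by positivity
  refine ⟨lam, hlpos, ?_⟩
  intro N hN n hn
  have hN' : (0:ℝ) < N := by exact_mod_cast hN
  set g : ℝ → ℝ := fun y => m y * Real.exp (-(lam * y)) with hg
  have hgint : IntegrableOn g (Set.Ioc 0 1) := t24_int m hint lam hlpos.le
  have hgI : IntervalIntegrable g volume 0 1 :=
    (intervalIntegrable_iff_integrableOn_Ioc_of_le zero_le_one).2 hgint
  have hganti : ∀ x y : ℝ, 0 < x → x ≤ y → g y ≤ g x := by
    intro x y hx hxy
    have hy : 0 < y := lt_of_lt_of_le hx hxy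
    have h1 : m y ≤ m x := hanti hx hy hxy
    have h2 : Real.exp (-(lam * y)) ≤ Real.exp (-(lam * x)) := by
      apply Real.exp_le_exp.2
      have := mul_le_mul_of_nonneg_left hxy hlpos.le
      linarith
    exact mul_le_mul h1 h2 (Real.exp_pos _).le (hpos x hx)
  have hgnn : ∀ x : ℝ, 0 < x → 0 ≤ g x := fun x hx =>
    mul_nonneg (hpos x hx) (Real.exp_pos _).le
  have hle1 : ∀ k : ℕ, k ≤ N → (k:ℝ)/N ≤ 1 := by
    intro k hk
    rw [div_le_one hN']
    exact_mod_cast hk
  have hsub : ∀ a b : ℝ, 0 ≤ a → a ≤ b → b ≤ 1 → IntervalIntegrable g volume a b := by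
    intro a b ha hab hb
    refine hgI.mono_set ?_
    rw [Set.uIcc_of_le hab, Set.uIcc_of_le zero_le_one]
    exact Set.Icc_subset_Icc ha hb
  have hstep : ∀ j ∈ range n, (1/(N:ℝ)) * m (((j:ℝ)+1)/N) * Real.exp (-(lam * (((j:ℝ)+1)/N))) ≤
      ∫ y in ((j:ℝ)/N)..(((j+1:ℕ):ℝ)/N), g y := by
    intro j hj
    have hjn : j + 1 ≤ N := le_trans (Finset.mem_range.1 hj) hn
    have ha : 0 ≤ (j:ℝ)/N := by positivity
    have hab : (j:ℝ)/N ≤ ((j+1:ℕ):ℝ)/N := by
      apply div_le_div_of_nonneg_right _ hN'.le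
      push_cast
      linarith
    have hconst : (1/(N:ℝ)) * m (((j:ℝ)+1)/N) * Real.exp (-(lam * (((j:ℝ)+1)/N))) =
        ∫ y in ((j:ℝ)/N)..(((j+1:ℕ):ℝ)/N), g (((j:ℝ)+1)/N) := by
      rw [intervalIntegral.integral_const, smul_eq_mul]
      have : ((j+1:ℕ):ℝ)/N - (j:ℝ)/N = 1/N := by
        push_cast
        field_simp
        ring
      rw [this, hg]
      ring
    rw [hconst]
    refine intervalIntegral.integral_mono_on_of_le_Ioo hab (by simp) (hsub _ _ ha hab (hle1 _ hjn)) ?_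
    intro x hx
    refine hganti x _ (lt_of_le_of_lt ha hx.1) ?_
    have := hx.2.le
    push_cast at this
    exact this
  calc ∑ j ∈ range n, (1/(N:ℝ)) * m (((j:ℝ)+1)/N) * Real.exp (-(lam * (((j:ℝ)+1)/N)))
      ≤ ∑ j ∈ range n, ∫ y in ((j:ℝ)/N)..(((j+1:ℕ):ℝ)/N), g y := Finset.sum_le_sum hstep
    _ = ∫ y in (((0:ℕ):ℝ)/N)..((n:ℝ)/N), g y := by
        refine intervalIntegral.sum_integral_adjacent_intervals (a := fun j : ℕ => (j:ℝ)/N) ?_
        intro k hk
        refine hsub _ _ (by positivity) ?_ (hle1 _ (le_trans hk hn))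
        apply div_le_div_of_nonneg_right _ hN'.le
        push_cast
        linarith
    _ ≤ ∫ y in (0:ℝ)..1, g y := by
        refine intervalIntegral.integral_mono_interval (by simp) ?_ (hle1 n hn) ?_ hgI
        · simp only [Nat.cast_zero, zero_div]
          positivity
        · refine (ae_restrict_iff' measurableSet_Ioc).2 (Filter.Eventually.of_forall fun y hy => ?_)
          exact hgnn y hy.1
    _ = ∫ y in Set.Ioc (0:ℝ) 1, g y := intervalIntegral.integral_of_le zero_le_one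
    _ ≤ 1/2 := (hK (K+1) (Nat.le_succ K)).le

end H868PF
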