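import Mathlib
import Pool.Agent.H868R2.PF.Defs

set_option autoImplicit false

open MeasureTheory Finset

namespace H868PF

theorem t25 : S_V2c := by
  intro b d N lam E hN hlam hE hb hw hd
  have hN' : (0:ℝ) < N := by exact_mod_cast hN
  have key : ∀ n, n ≤ N → |d n| ≤ 2 * E * Real.exp (lam * ((n:ℝ) / N)) := by
    intro n
    induction n using Nat.strong_induction_on with
    | _ n ih =>
      intro hn
      have h1 := hd n hn
      have h2 := hw n hn
      have h3 : |∑ j ∈ range n, b (j+1) * d (n-(j+1))| ≤
          2 * E * Real.exp (lam * ((n:ℝ) / N)) *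
            ∑ j ∈ range n, b (j+1) * Real.exp (-(lam * (((j:ℝ)+1)/N))) := by
        rw [Finset.mul_sum]
        refine (Finset.abs_sum_le_sum_abs _ _).trans (Finset.sum_le_sum fun j hj => ?_)
        have hj' : j < n := Finset.mem_range.1 hj
        rw [abs_mul, abs_of_nonneg (hb (j+1))]
        have h4 := ih (n - (j+1)) (by omega) (by omega)
        have h5 : (((n - (j+1) : ℕ)) : ℝ) = (n:ℝ) - (j + 1) := by
          rw [Nat.cast_sub (by omega)]
          push_cast
          ring
        rw [h5] at h4
        have h6 : Real.exp (lam * (((n:ℝ) - (j + 1)) / N)) =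
            Real.exp (lam * ((n:ℝ) / N)) * Real.exp (-(lam * (((j:ℝ)+1)/N))) := by
          rw [← Real.exp_add]
          congr 1
          ring
        rw [h6] at h4
        calc b (j+1) * |d (n-(j+1))| ≤ b (j+1) * (2 * E *
              (Real.exp (lam * ((n:ℝ) / N)) * Real.exp (-(lam * (((j:ℝ)+1)/N))))) :=
              mul_le_mul_of_nonneg_left h4 (hb _)
          _ = _ := by ring
      have h7 : (1:ℝ) ≤ Real.exp (lam * ((n:ℝ) / N)) := Real.one_le_exp (by positivity)
      have h8 : 2 * E * Real.exp (lam * ((n:ℝ) / N)) *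
            ∑ j ∈ range n, b (j+1) * Real.exp (-(lam * (((j:ℝ)+1)/N))) ≤
          2 * E * Real.exp (lam * ((n:ℝ) / N)) * (1 / 2) :=
        mul_le_mul_of_nonneg_left h2 (by positivity)
      have h9 : |d n| ≤ |d n + ∑ j ∈ range n, b (j+1) * d (n-(j+1))| +
          |∑ j ∈ range n, b (j+1) * d (n-(j+1))| := by
        have := abs_sub (d n + ∑ j ∈ range n, b (j+1) * d (n-(j+1)))
          (∑ j ∈ range n, b (j+1) * d (n-(j+1)))
        simpa using this
      nlinarith
  intro n hn
  refine (key n hn).trans ?_
  have h10 : (n:ℝ) / N ≤ 1 := by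
    rw [div_le_one hN']
    exact_mod_cast hn
  have h11 : Real.exp (lam * ((n:ℝ) / N)) ≤ Real.exp lam := by
    apply Real.exp_le_exp.2
    nlinarith
  nlinarith

end H868PF
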