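import Mathlib
import Pool.Agent.H868R2.PF.Defs

set_option autoImplicit false

open MeasureTheory Finset

namespace H868PF

/-- the jump law -/
noncomputable def t26_f (m : ℝ → ℝ) (N : ℕ) (k : ℕ) : ℝ :=
  if k = 0 then 0 else if k = 1 then 1 - (1/(N:ℝ)) * m (1/N) else
    (1/(N:ℝ)) * (m (((k:ℝ) - 1)/N) - m ((k:ℝ)/N))

theorem t26_sum (m : ℝ → ℝ) (N n : ℕ) : ∑ k ∈ range (n+2), t26_f m N k =
    1 - (1/(N:ℝ)) * m (((n:ℝ)+1)/N) := by
  induction n with
  | zero => simp [Finset.sum_range_succ, t26_f]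
  | succ n ih =>
    rw [Finset.sum_range_succ, ih]
    unfold t26_f
    rw [if_neg (by omega), if_neg (by omega)]
    push_cast
    have h1 : ((n:ℝ) + 1 + 1 - 1) = (n:ℝ) + 1 := by ring
    have h2 : (n:ℝ) + 2 - 1 = (n:ℝ) + 1 := by ring
    have h3 : (n:ℝ) + 1 + 1 = (n:ℝ) + 2 := by ring
    simp only [h1, h2, h3]
    ring

theorem t26_small (m : ℝ → ℝ) (hm : ∀ y, 0 < y → 0 ≤ m y) (ha : AntitoneOn m (Set.Ioi 0))
    (hi : IntegrableOn m (Set.Ioc 0 1)) (ε : ℝ) (hε : 0 < ε) :
    ∃ N₁ : ℕ, ∀ N : ℕ, N₁ ≤ N → 0 < N → (1/(N:ℝ)) * m (1/N) ≤ ε := by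
  have hcont : ContinuousOn (fun x : ℝ => ∫ y in (0:ℝ)..x, m y) (Set.Icc 0 1) := by
    have := intervalIntegral.continuousOn_primitive_interval (a := (0:ℝ)) (b := 1) (f := m)
      (μ := volume) (by
        rw [Set.uIcc_of_le zero_le_one, integrableOn_Icc_iff_integrableOn_Ioc]
        exact hi)
    rwa [Set.uIcc_of_le zero_le_one] at this
  have h0 := hcont 0 ⟨le_rfl, zero_le_one⟩
  have htend : Filter.Tendsto (fun N : ℕ => 1 / ((N:ℝ))) Filter.atTop (nhds 0) :=
    tendsto_one_div_atTop_nhds_zero_nat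
  have htend2 : Filter.Tendsto (fun N : ℕ => 1 / ((N:ℝ))) Filter.atTop
      (nhdsWithin 0 (Set.Icc 0 1)) := by
    rw [tendsto_nhdsWithin_iff]
    refine ⟨htend, ?_⟩
    filter_upwards [Filter.eventually_ge_atTop 1] with N hN
    have hN' : (1:ℝ) ≤ N := by exact_mod_cast hN
    constructor
    · positivity
    · rw [div_le_one (by linarith)]
      exact hN'
  have h3 := h0.tendsto.comp htend2
  have h4 : ∀ᶠ N : ℕ in Filter.atTop, (∫ y in (0:ℝ)..(1/(N:ℝ)), m y) < ε := by
    have h5 : (∫ y in (0:ℝ)..0, m y) < ε := by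
      rw [intervalIntegral.integral_same]
      exact hε
    exact h3.eventually (gt_mem_nhds h5)
  obtain ⟨N₁, hN₁⟩ := Filter.eventually_atTop.1 h4
  refine ⟨N₁, fun N hN hNp => ?_⟩
  have hN' : (1:ℝ) ≤ N := by exact_mod_cast hNp
  have hh : 0 < 1 / (N:ℝ) := by positivity
  have hh1 : 1 / (N:ℝ) ≤ 1 := by
    rw [div_le_one (by linarith)]
    exact hN'
  refine le_trans ?_ (hN₁ N hN).le
  have hint : IntervalIntegrable m volume 0 (1/(N:ℝ)) := by
    rw [intervalIntegrable_iff_integrableOn_Ioc_of_le hh.le]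
    exact hi.mono_set (Set.Ioc_subset_Ioc_right hh1)
  calc (1/(N:ℝ)) * m (1/N) = ∫ _ in (0:ℝ)..(1/(N:ℝ)), m (1/N) := by
        rw [intervalIntegral.integral_const, smul_eq_mul, sub_zero]
    _ ≤ ∫ y in (0:ℝ)..(1/(N:ℝ)), m y := by
        apply intervalIntegral.integral_mono_on_of_le_Ioo hh.le (by simp) hint
        intro y hy
        exact ha hy.1 hh hy.2.le

theorem t26 (he : S_EX) (h1 : S_A1) (ha : S_V2a) (hb : S_V2b) (hc : S_V2c) : S_V2 := by
  intro m p hm hanti hint hp hvol ε hε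
  obtain ⟨lam, hlam, hlamb⟩ := hb m hm hanti hint
  set E : ℝ := ε / (2 * Real.exp lam) with hEdef
  have hE : 0 < E := by positivity
  obtain ⟨N₂, hN₂⟩ := ha m p hm hanti hint hp E hE
  obtain ⟨N₁, hN₁⟩ := t26_small m hm hanti hint (min ε 1) (lt_min hε one_pos)
  refine ⟨max (max N₁ N₂) 1, fun N hN => ?_⟩
  have hNp : 0 < N := lt_of_lt_of_le one_pos ((le_max_right _ _).trans hN)
  have hNpr : (0:ℝ) < N := by exact_mod_cast hNp
  have hs := hN₁ N (((le_max_left _ _).trans (le_max_left _ _)).trans hN) hNp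
  have hq := hN₂ N (((le_max_right _ _).trans (le_max_left _ _)).trans hN) hNp
  have hw := hlamb N hNp
  have hnn : ∀ k, 0 ≤ t26_f m N k := by
    intro k
    unfold t26_f
    split_ifs with h2 h3
    · exact le_rfl
    · have := hs.trans (min_le_right _ _)
      linarith
    · have hk : (2:ℝ) ≤ k := by
        have : 2 ≤ k := by omega
        exact_mod_cast this
      have h4 : m ((k:ℝ)/N) ≤ m (((k:ℝ) - 1)/N) := by
        apply hanti
        · show 0 < ((k:ℝ) - 1)/N
          apply div_pos (by linarith) hNpr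
        · show 0 < (k:ℝ)/N
          apply div_pos (by linarith) hNpr
        · apply div_le_div_of_nonneg_right _ hNpr.le
          linarith
      have : 0 ≤ m (((k:ℝ) - 1)/N) - m ((k:ℝ)/N) := by linarith
      positivity
  have hsum : ∀ n, ∑ k ∈ range (n+1), t26_f m N k ≤ 1 := by
    intro n
    cases n with
    | zero => simp [t26_f]
    | succ n =>
      rw [t26_sum]
      have : 0 ≤ m (((n:ℝ)+1)/N) := hm _ (by positivity)
      have : 0 ≤ (1/(N:ℝ)) * m (((n:ℝ)+1)/N) := by positivity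
      linarith
  obtain ⟨u, hu⟩ := he (t26_f m N) (by simp [t26_f]) hnn hsum
  have hFb : ∀ n, Fb (t26_f m N) (n+1) = (1/(N:ℝ)) * m (((n:ℝ)+1)/N) := by
    intro n
    unfold Fb
    rw [t26_sum]
    ring
  obtain ⟨-, -, -, -, hF0, -, hid⟩ := h1 _ _ hu
  refine ⟨t26_f m N, u, hu, ?_, ?_⟩
  · have := hFb 0
    simp only [zero_add, Nat.cast_zero] at this
    rw [this]
    exact hs.trans (min_le_left _ _)
  · have hmain := hc (fun j => if j = 0 then 0 else (1/(N:ℝ)) * m ((j:ℝ)/N))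
      (fun n => u n - p ((n:ℝ)/N)) N lam E hNp hlam hE.le ?_ ?_ ?_
    · intro n hn
      refine (hmain n hn).trans (le_of_eq ?_)
      rw [hEdef]
      field_simp
    · intro j
      show 0 ≤ (if j = 0 then 0 else (1/(N:ℝ)) * m ((j:ℝ)/N))
      split_ifs with h2
      · exact le_rfl
      · have hj : (0:ℝ) < j := by
          have : 0 < j := Nat.pos_of_ne_zero h2
          exact_mod_cast this
        have : 0 ≤ m ((j:ℝ)/N) := hm _ (by positivity)
        positivity
    · intro n hn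
      refine le_trans (le_of_eq ?_) (hw n hn)
      refine Finset.sum_congr rfl fun j _ => ?_
      rw [if_neg (Nat.succ_ne_zero j)]
      push_cast
      rfl
    · intro n hn
      have e1 := hid n
      rw [Finset.sum_range_succ'] at e1
      rw [hF0, one_mul, Nat.sub_zero] at e1
      have e2 : ∑ k ∈ range n, Fb (t26_f m N) (k + 1) * u (n - (k + 1)) =
          ∑ j ∈ range n, (1/(N:ℝ)) * m (((j:ℝ)+1)/N) * u (n - (j+1)) :=
        Finset.sum_congr rfl fun j _ => by rw [hFb]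
      rw [e2] at e1
      have hn01 : (n:ℝ)/N ∈ Set.Icc (0:ℝ) 1 := by
        constructor
        · positivity
        · rw [div_le_one hNpr]
          exact_mod_cast hn
      have e3 := hvol _ hn01
      have e4 := hq n hn
      have e5 : ∑ j ∈ range n, (if j + 1 = 0 then 0 else (1/(N:ℝ)) * m (((j + 1 : ℕ):ℝ)/N)) *
            (u (n - (j+1)) - p (((n - (j+1) : ℕ):ℝ)/N)) =
          ∑ j ∈ range n, (1/(N:ℝ)) * m (((j:ℝ)+1)/N) * u (n - (j+1)) -
          ∑ j ∈ range n, (1/(N:ℝ)) * m (((j:ℝ)+1)/N) * p (((n - (j+1) : ℕ) : ℝ)/N) := by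
        rw [← Finset.sum_sub_distrib]
        refine Finset.sum_congr rfl fun j _ => ?_
        rw [if_neg (Nat.succ_ne_zero j)]
        push_cast
        ring
      show |(u n - p ((n:ℝ)/N)) + ∑ j ∈ range n,
          (if j + 1 = 0 then 0 else (1/(N:ℝ)) * m (((j + 1 : ℕ):ℝ)/N)) *
            (u (n - (j+1)) - p (((n - (j+1) : ℕ):ℝ)/N))| ≤ E
      rw [e5]
      refine le_trans (le_of_eq ?_) e4
      congr 1
      linarith

end H868PF
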