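import Mathlib
import Pool.Agent.H868R2.PF.Defs

set_option autoImplicit false

open MeasureTheory Finset

namespace H868PF

theorem t27_base (r : ℝ) (hr : 0 < r) (n : ℕ) :
    IntegrableOn (fun w : ℝ => w ^ n * Real.exp (-(r * w))) (Set.Ioi 0) ∧
    ∫ w in Set.Ioi (0:ℝ), w ^ n * Real.exp (-(r * w)) = (n.factorial : ℝ) / r ^ (n + 1) := by
  constructor
  · have h := integrableOn_rpow_mul_exp_neg_mul_rpow (s := (n:ℝ)) (p := 1) (b := r)
      (by have := Nat.cast_nonneg (α := ℝ) n; linarith) one_pos hr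
    refine h.congr_fun ?_ measurableSet_Ioi
    intro w _
    simp only [Real.rpow_natCast, Real.rpow_one, neg_mul]
  · have h := Real.integral_rpow_mul_exp_neg_mul_Ioi (a := (n:ℝ) + 1) (r := r) (by positivity) hr
    have e : ∫ w in Set.Ioi (0:ℝ), w ^ n * Real.exp (-(r * w)) =
        ∫ t in Set.Ioi (0:ℝ), t ^ (((n:ℝ) + 1) - 1) * Real.exp (-(r * t)) := by
      refine setIntegral_congr_fun measurableSet_Ioi fun w _ => ?_
      simp only [add_sub_cancel_right, Real.rpow_natCast]
    rw [e, h, Real.Gamma_nat_eq_factorial]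
    have e2 : (1 / r) ^ ((n:ℝ) + 1) = 1 / r ^ (n + 1) := by
      rw [← Nat.cast_succ, Real.rpow_natCast, one_div_pow]
    rw [e2]
    ring

theorem t27 : S_E1 := by
  intro q x0 s hq hx0 hs n
  set a : ℝ := n * x0 with ha
  have ha0 : 0 ≤ a := by positivity
  set f : ℝ → ℝ := fun t => Real.exp (-(s*t)) * exT q x0 n t with hf
  obtain ⟨hI, hv⟩ := t27_base (s + q) (by positivity) n
  have hzero : ∀ t ∈ Set.Ioi (0:ℝ) \ Set.Ioi a, f t = 0 := by
    rintro t ⟨ht0, hta⟩
    simp only [Set.mem_Ioi, not_lt] at ht0 hta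
    have hn : n ≠ 0 := by
      rintro rfl
      simp only [ha, Nat.cast_zero, zero_mul] at hta
      linarith
    simp only [hf, exT]
    rcases hta.eq_or_lt with h | h
    · rw [if_pos h.ge, ← ha, h, sub_self, mul_zero, zero_pow hn]
      simp
    · rw [if_neg (not_le.2 h), mul_zero]
  have hsh : ∀ w ∈ Set.Ioi (0:ℝ), f (w + a) =
      Real.exp (-(s * x0)) ^ n * q ^ n / (n.factorial : ℝ) *
        (w ^ n * Real.exp (-((s + q) * w))) := by
    intro w hw
    simp only [Set.mem_Ioi] at hw
    simp only [hf, exT]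
    rw [← ha, if_pos (by linarith), add_sub_cancel_right]
    have e1 : Real.exp (-(s * (w + a))) = Real.exp (-(s * x0)) ^ n * Real.exp (-(s * w)) := by
      rw [← Real.exp_nat_mul, ← Real.exp_add]
      congr 1
      rw [ha]; ring
    have e2 : Real.exp (-((s + q) * w)) = Real.exp (-(s * w)) * Real.exp (-(q * w)) := by
      rw [← Real.exp_add]; congr 1; ring
    rw [e1, e2, mul_pow]
    ring
  have hpre : (fun x : ℝ => x + a) ⁻¹' Set.Ioi a = Set.Ioi 0 := by
    ext x; simp
  have hmp : MeasurePreserving (fun x : ℝ => x + a) volume volume :=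
    measurePreserving_add_right volume a
  have hemb : MeasurableEmbedding (fun x : ℝ => x + a) := measurableEmbedding_addRight a
  have hIa : IntegrableOn f (Set.Ioi a) := by
    rw [← hmp.integrableOn_comp_preimage hemb, hpre]
    have h3 : IntegrableOn (fun w : ℝ => Real.exp (-(s * x0)) ^ n * q ^ n / (n.factorial : ℝ) *
        (w ^ n * Real.exp (-((s + q) * w)))) (Set.Ioi 0) := Integrable.const_mul hI _
    exact h3.congr_fun (fun w hw => (hsh w hw).symm) measurableSet_Ioi
  have hsub : Set.Ioi a ⊆ Set.Ioi (0:ℝ) := Set.Ioi_subset_Ioi ha0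
  constructor
  · exact hIa.of_forall_sdiff_eq_zero measurableSet_Ioi hzero
  · have h1 := hmp.setIntegral_preimage_emb hemb f (Set.Ioi a)
    rw [hpre, setIntegral_congr_fun measurableSet_Ioi hsh, integral_const_mul, hv] at h1
    have h2 : ∫ t in Set.Ioi (0:ℝ), f t = ∫ t in Set.Ioi a, f t :=
      setIntegral_eq_of_subset_of_forall_sdiff_eq_zero measurableSet_Ioi hsub hzero
    rw [h2, ← h1]
    have hfac : (n.factorial : ℝ) ≠ 0 := by positivity
    have hsq : (s + q) ^ (n + 1) ≠ 0 := by positivity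
    field_simp

end H868PF
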