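import Mathlib
import Pool.Agent.H868R2.PF.Defs

set_option autoImplicit false

open Finset

namespace H868PF

theorem t28_term (q x0 : ℝ) (n : ℕ) : ContinuousOn (exT q x0 n) (Set.Ici 0) := by
  rcases Nat.eq_zero_or_pos n with hn | hn
  · subst hn
    have : ContinuousOn (fun t : ℝ => Real.exp (-(q * t))) (Set.Ici 0) := by fun_prop
    refine this.congr ?_
    intro t ht
    have ht' : (0 : ℝ) ≤ t := ht
    simp [exT, ht']
  · have : Continuous (exT q x0 n) := by
      unfold exT
      refine Continuous.if_le ?_ continuous_const continuous_const continuous_id ?_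
      · fun_prop
      · intro t ht
        rw [← ht]
        simp [hn.ne']
    exact this.continuousOn

theorem t28 : S_E2 := by
  intro q x0 _ hx
  intro t0 ht0
  obtain ⟨M, hM⟩ := exists_nat_gt (t0 / x0)
  have hM' : t0 < M * x0 := by rwa [div_lt_iff₀ hx] at hM
  have h1 : ContinuousOn (fun t : ℝ => ∑ n ∈ range M, exT q x0 n t) (Set.Ici 0) :=
    continuousOn_finset_sum _ fun n _ => t28_term q x0 n
  have h2 : (fun t : ℝ => ∑' n : ℕ, exT q x0 n t)
      =ᶠ[nhdsWithin t0 (Set.Ici 0)] fun t : ℝ => ∑ n ∈ range M, exT q x0 n t := by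
    refine Filter.Eventually.filter_mono nhdsWithin_le_nhds ?_
    filter_upwards [Iio_mem_nhds hM'] with t ht
    refine tsum_eq_sum ?_
    intro n hn
    rw [mem_range, not_lt] at hn
    unfold exT
    rw [if_neg]
    rw [not_le]
    have h3 : (M : ℝ) * x0 ≤ n * x0 := by
      have : (M : ℝ) ≤ n := by exact_mod_cast hn
      exact mul_le_mul_of_nonneg_right this hx.le
    exact lt_of_lt_of_le ht h3
  exact (h1 t0 ht0).congr_of_eventuallyEq h2 (h2.self_of_nhdsWithin ht0)

end H868PF
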