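import Mathlib
import Pool.Agent.H868R2.PF.Defs

set_option autoImplicit false

open MeasureTheory Finset

namespace H868PF

theorem t29_nonneg (q x0 : ℝ) (hq : 0 < q) (n : ℕ) (t : ℝ) : 0 ≤ exT q x0 n t := by
  unfold exT
  split_ifs with h
  · have : 0 ≤ q * (t - n*x0) := mul_nonneg hq.le (by linarith)
    positivity
  · exact le_refl 0

theorem t29 (h1 : S_E1) (h2 : S_E2) : S_E3 := by
  intro q x0 hq hx0
  refine ⟨h2 q x0 hq hx0, ENNReal.ofReal q • Measure.dirac x0, ?_, ?_, 0, le_refl 0, ?_⟩
  · rw [Measure.smul_apply, Measure.dirac_apply' _ measurableSet_Iic]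
    simp [hx0]
  · refine Integrable.smul_measure ?_ ENNReal.ofReal_ne_top
    apply integrable_dirac
    simp
  · intro s hs
    have hint : ∫ x, (1 - Real.exp (-(s * x))) ∂(ENNReal.ofReal q • Measure.dirac x0)
        = q * (1 - Real.exp (-(s*x0))) := by
      rw [integral_smul_measure, integral_dirac, ENNReal.toReal_ofReal hq.le, smul_eq_mul]
    have hE := h1 q x0 s hq hx0 hs
    set e : ℝ := Real.exp (-(s*x0)) with he
    have he0 : 0 < e := Real.exp_pos _
    have he1 : e < 1 := by
      rw [he, Real.exp_lt_one_iff]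
      have := mul_pos hs hx0
      linarith
    have hsq : 0 < s + q := by linarith
    set r : ℝ := e * q / (s+q) with hr
    have hr0 : 0 ≤ r := by positivity
    have hr1 : r < 1 := by
      rw [hr, div_lt_one hsq]
      nlinarith
    have hterm : ∀ n : ℕ, e^n * q^n / (s+q)^(n+1) = r^n * (1/(s+q)) := by
      intro n
      rw [hr, div_pow, mul_pow, pow_succ]
      field_simp
    have hsummable : Summable (fun n : ℕ => e^n * q^n / (s+q)^(n+1)) := by
      simp_rw [hterm]
      exact (summable_geometric_of_lt_one hr0 hr1).mul_right _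
    have hnorm : ∀ n : ℕ, ∫ t in Set.Ioi (0:ℝ), ‖Real.exp (-(s*t)) * exT q x0 n t‖
        = e^n * q^n / (s+q)^(n+1) := by
      intro n
      rw [← (hE n).2]
      refine integral_congr_ae (Filter.Eventually.of_forall fun t => ?_)
      exact Real.norm_of_nonneg (mul_nonneg (Real.exp_pos _).le (t29_nonneg q x0 hq n t))
    have hS := hasSum_integral_of_summable_integral_norm
      (F := fun (n : ℕ) (t : ℝ) => Real.exp (-(s*t)) * exT q x0 n t)
      (μ := volume.restrict (Set.Ioi (0:ℝ))) (fun n => (hE n).1) (by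
        simp_rw [hnorm]; exact hsummable)
    have hL : ∫ t in Set.Ioi (0:ℝ), Real.exp (-(s * t)) * (∑' n : ℕ, exT q x0 n t)
        = 1 / (s + q - q * e) := by
      have h3 : ∫ t in Set.Ioi (0:ℝ), Real.exp (-(s * t)) * (∑' n : ℕ, exT q x0 n t)
        = ∫ t in Set.Ioi (0:ℝ), ∑' n : ℕ, Real.exp (-(s * t)) * exT q x0 n t := by
        refine integral_congr_ae (Filter.Eventually.of_forall fun t => ?_)
        simp only
        rw [tsum_mul_left]
      rw [h3, ← hS.tsum_eq]
      simp_rw [(hE _).2]
      simp_rw [hterm]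
      rw [tsum_mul_right, tsum_geometric_of_lt_one hr0 hr1, hr]
      have h5 : s + q - e * q ≠ 0 := by nlinarith
      have h6 : s + q - q * e ≠ 0 := by nlinarith
      have h7 : 1 - e * q / (s+q) = (s + q - q * e) / (s+q) := by
        field_simp
      rw [h7]
      field_simp
    rw [hint]
    simp only at hL ⊢
    rw [hL]
    have h6 : s + q - q * e ≠ 0 := by nlinarith
    field_simp
    ring

end H868PF
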