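import Mathlib
import Pool.Agent.H868R2.PF.Defs

set_option autoImplicit false

open MeasureTheory Set

namespace H868PF

/-- terms with `n x0 > t` vanish -/
lemma t30_zero (q x0 : ℝ) (n : ℕ) (t : ℝ) (h : t < n * x0) : exT q x0 n t = 0 := by
  unfold exT
  rw [if_neg (not_le.mpr h)]

lemma t30_sum2 (q x0 t : ℝ) (hx0 : 0 < x0) (h2 : t < 2 * x0) (h1 : x0 ≤ t) (h0 : 0 ≤ t) :
    ∑' n : ℕ, exT q x0 n t = Real.exp (-(q*t)) + Real.exp (-(q*(t-x0))) * (q*(t-x0)) := by
  rw [tsum_eq_sum (s := Finset.range 2)]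
  · rw [Finset.sum_range_succ, Finset.sum_range_one]
    unfold exT
    have e0 : ((0:ℕ):ℝ) * x0 ≤ t := by simpa using h0
    have e1 : ((1:ℕ):ℝ) * x0 ≤ t := by simpa using h1
    rw [if_pos e0, if_pos e1]
    simp
  · intro n hn
    have hn2 : 2 ≤ n := by simp at hn; omega
    apply t30_zero
    have : (2:ℝ) ≤ n := by exact_mod_cast hn2
    nlinarith

lemma t30_sum1 (q x0 t : ℝ) (hx0 : 0 < x0) (h1 : t < x0) (h0 : 0 ≤ t) :
    ∑' n : ℕ, exT q x0 n t = Real.exp (-(q*t)) := by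
  rw [tsum_eq_sum (s := Finset.range 1)]
  · rw [Finset.sum_range_one]
    unfold exT
    have e0 : ((0:ℕ):ℝ) * x0 ≤ t := by simpa using h0
    rw [if_pos e0]
    simp
  · intro n hn
    have hn2 : 1 ≤ n := by simp at hn; omega
    apply t30_zero
    have : (1:ℝ) ≤ n := by exact_mod_cast hn2
    nlinarith

theorem t30 (h3 : S_E3) : S_E := by
  intro M hM hM1 δ hδ
  -- choose q
  obtain ⟨q, hq2, hqM, hqδ⟩ : ∃ q : ℝ, 2 < q ∧ Real.exp (-q) < M ∧ Real.exp (-(q/2)) < δ := by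
    have t1 : Filter.Tendsto (fun q : ℝ => Real.exp (-q)) Filter.atTop (nhds 0) :=
      Real.tendsto_exp_neg_atTop_nhds_zero
    have t2 : Filter.Tendsto (fun q : ℝ => Real.exp (-(q/2))) Filter.atTop (nhds 0) :=
      Real.tendsto_exp_neg_atTop_nhds_zero.comp (Filter.tendsto_id.atTop_div_const (by norm_num))
    have e1 := t1.eventually (gt_mem_nhds hM)
    have e2 := t2.eventually (gt_mem_nhds hδ)
    have e3 := Filter.eventually_gt_atTop (2:ℝ)
    obtain ⟨q, a, b, c⟩ := (e1.and (e2.and e3)).exists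
    exact ⟨q, c, a, b⟩
  have hq : 0 < q := by linarith
  -- choose v
  obtain ⟨v, hv, hv2⟩ : ∃ v ∈ Icc (0:ℝ) 1, v * Real.exp (-v) = M - Real.exp (-q) := by
    have hc : ContinuousOn (fun v : ℝ => v * Real.exp (-v)) (Icc 0 1) := by fun_prop
    have := intermediate_value_Icc (zero_le_one) hc
    have hmem : M - Real.exp (-q) ∈ Icc ((fun v : ℝ => v * Real.exp (-v)) 0) ((fun v : ℝ => v * Real.exp (-v)) 1) := by
      constructor
      · simp only [zero_mul]; linarith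
      · simp only [one_mul]; have := Real.exp_pos (-q); linarith
    obtain ⟨v, hv, hv2⟩ := this hmem
    exact ⟨v, hv, hv2⟩
  set x0 : ℝ := 1 - v / q with hx0
  have hvq : v / q < 1/2 := by
    rw [div_lt_iff₀ hq]; linarith [hv.2]
  have hvq0 : 0 ≤ v / q := div_nonneg hv.1 hq.le
  have hx0h : 1/2 < x0 := by rw [hx0]; linarith
  have hx01 : x0 ≤ 1 := by rw [hx0]; linarith
  refine ⟨fun t => ∑' n : ℕ, exT q x0 n t, h3 q x0 hq (by linarith), ?_, 1/2, ⟨by norm_num, by norm_num⟩, ?_⟩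
  · show ∑' n : ℕ, exT q x0 n 1 = M
    rw [t30_sum2 q x0 1 (by linarith) (by linarith) hx01 (by norm_num)]
    have e : q * (1 - x0) = v := by rw [hx0]; field_simp; ring
    rw [e, mul_one]
    linarith
  · show ∑' n : ℕ, exT q x0 n (1/2) < δ
    rw [t30_sum1 q x0 (1/2) (by linarith) hx0h (by norm_num)]
    have : -(q * (1/2)) = -(q/2) := by ring
    rw [this]; exact hqδ

end H868PF
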