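import Mathlib
import Pool.Agent.H868R2.PF.Defs

/-!
# Task 31 (helper584): uniform positive lower bound above `1/e`
-/

set_option autoImplicit false

open MeasureTheory Finset

namespace H868PF

theorem t31 (h1 : S_A1) (h6 : S_A6) (h9 : S_A9) (hV1 : S_V1) (hV2 : S_V2) : S_B := by
  intro M hM
  have hθ : 0 < (M - Real.exp (-1)) / 3 := by linarith
  obtain ⟨B, κ₀, hκ₀, hB⟩ := h9 _ hθ
  obtain ⟨c, hc, hcB⟩ := h6 B
  refine ⟨c, hc, ?_⟩
  intro p hp hp1 t ht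
  obtain ⟨m, hm0, hmA, hmI, hmV⟩ := hV1 p hp
  have hpc : ContinuousOn p (Set.Icc 0 1) := hp.1.mono Set.Icc_subset_Ici_self
  by_contra hlt
  rw [not_le] at hlt
  have hη : 0 < (c - p t) / 4 := by linarith
  obtain ⟨ρ, hρ, hcont⟩ := Metric.continuousWithinAt_iff.1 (hpc t ht) _ hη
  obtain ⟨N₀, hN₀⟩ := hV2 m p hm0 hmA hmI hpc hmV
    (min (min ((M - Real.exp (-1)) / 3) κ₀) (min (1 / 4) ((c - p t) / 4)))
    (lt_min (lt_min hθ hκ₀) (lt_min (by norm_num) hη))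
  obtain ⟨N₁, hN₁⟩ := exists_nat_gt (1 / ρ)
  have hNpos : 0 < N₀ + N₁ + 1 := by omega
  obtain ⟨f, u, hR, hF, hu⟩ := hN₀ (N₀ + N₁ + 1) (by omega)
  have e1 := min_le_left (min ((M - Real.exp (-1)) / 3) κ₀) (min (1 / 4) ((c - p t) / 4))
  have e2 := min_le_right (min ((M - Real.exp (-1)) / 3) κ₀) (min (1 / 4) ((c - p t) / 4))
  have e3 := e1.trans (min_le_left _ _)
  have e4 := e1.trans (min_le_right _ _)
  have e5 := e2.trans (min_le_left _ _)
  have e6 := e2.trans (min_le_right _ _)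
  set ε := min (min ((M - Real.exp (-1)) / 3) κ₀) (min (1 / 4) ((c - p t) / 4)) with hε
  clear_value ε
  have hNR : (0:ℝ) < ((N₀ + N₁ + 1 : ℕ) : ℝ) := by exact_mod_cast hNpos
  have hNrho : 1 / ((N₀ + N₁ + 1 : ℕ) : ℝ) < ρ := by
    rw [div_lt_iff₀ hNR]
    rw [div_lt_iff₀ hρ] at hN₁
    push_cast
    have : (0:ℝ) ≤ N₀ := Nat.cast_nonneg _
    nlinarith
  generalize N₀ + N₁ + 1 = N at *
  have hUU : UU f N ≤ B := by
    by_contra h
    rw [not_le] at h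
    have a1 := hB f u N hR (hF.trans e4) h
    have a2 := hu N le_rfl
    rw [div_self hNR.ne', hp1, abs_le] at a2
    linarith [a2.1]
  have hcu := hcB f u N hR (hF.trans e5) hUU
  have hn : ⌊t * N⌋₊ ≤ N := by
    have h2 : t * N ≤ N := by nlinarith [ht.2]
    exact_mod_cast (Nat.floor_le (mul_nonneg ht.1 hNR.le)).trans h2
  have hfl := Nat.floor_le (mul_nonneg ht.1 hNR.le)
  have hfl2 := Nat.lt_floor_add_one (t * N)
  have hmem : ((⌊t * N⌋₊ : ℝ) / N) ∈ Set.Icc (0:ℝ) 1 := by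
    refine ⟨by positivity, ?_⟩
    rw [div_le_one hNR]
    exact_mod_cast hn
  have hdist : dist ((⌊t * N⌋₊ : ℝ) / N) t < ρ := by
    rw [Real.dist_eq, abs_lt]
    have b1 : ((⌊t * N⌋₊ : ℝ) / N) ≤ t := by rw [div_le_iff₀ hNR]; exact hfl
    have b2 : t < ((⌊t * N⌋₊ : ℝ) / N) + 1 / N := by
      rw [← add_div, lt_div_iff₀ hNR]; exact hfl2
    constructor
    · linarith
    · linarith
  have hd := hcont hmem hdist
  rw [Real.dist_eq, abs_lt] at hd
  have hu1 := hu _ hn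
  rw [abs_le] at hu1
  have hc1 := hcu _ hn
  linarith [hd.2, hu1.1, hu1.2]

end H868PF
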