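import Mathlib
import Pool.Agent.H868R2.PF.Defs

set_option autoImplicit false

open MeasureTheory Finset

namespace H868PF

theorem t32 (hE : S_E) (hB : S_B) : S_FIN := by
  unfold S_FIN
  constructor
  · rintro M ⟨hM, δ, hδ, h⟩
    by_contra hlt
    rw [not_le] at hlt
    obtain ⟨p, hp, hp1, t, ht, hpt⟩ := hE M hM.1 hlt δ hδ
    have := h p hp hp1 t ht
    linarith
  · intro b hb
    have he1 : Real.exp (-1) < 1 := by
      rw [Real.exp_lt_one_iff]
      norm_num
    have he0 : 0 < Real.exp (-1) := Real.exp_pos _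
    by_contra hlt
    rw [not_le] at hlt
    obtain ⟨M, hM1, hM2⟩ := exists_between (lt_min hlt he1)
    have hM : M ∈ Set.Ioc (0:ℝ) 1 := ⟨by linarith, le_trans hM2.le (min_le_right _ _)⟩
    obtain ⟨δ, hδ, h⟩ := hB M hM1
    have hmem := hb ⟨hM, δ, hδ, fun p hp hp1 => h p hp hp1⟩
    have := lt_of_lt_of_le hM2 (min_le_left b 1)
    linarith

end H868PF
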